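import Pool.Agent.LFZ.Defs

/-!
# Block G1: free groups have faithful representations in `GL₂` over fields of characteristic `p`

The letter `x_i^{±1}` goes to a multiple of `t N(i,±) - N(i,∓)`, where `N(i,+)` and `N(i,-)` are
complementary matrices of rank one; for a reduced word the coefficient of the highest power of `t`
in the product is a product of matrices of rank one which does not vanish.
-/

set_option autoImplicit false

namespace Pool.Agent.LFZ

open Polynomial

namespace FR

variable {k : Type} [Field k] {r : ℕ}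

/-- The opposite letter. -/
def opp (ℓ : Fin r × Bool) : Fin r × Bool := (ℓ.1, !ℓ.2)

/-- The matrix of a letter. -/
noncomputable def Bm (c : Fin r × Bool → k) (ℓ : Fin r × Bool) : Matrix (Fin 2) (Fin 2) k[X] :=
  !![-(X * C (c (opp ℓ))) + C (c ℓ), X - 1;
    -(X * C (c ℓ * c (opp ℓ))) + C (c ℓ * c (opp ℓ)), X * C (c ℓ) - C (c (opp ℓ))]

/-- The product. -/
noncomputable def Pm (c : Fin r × Bool → k) (w : List (Fin r × Bool)) :
    Matrix (Fin 2) (Fin 2) k[X] := (w.map (Bm c)).prod

theorem Bm_mul (c : Fin r × Bool → k) (ℓ : Fin r × Bool) :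
    Bm c ℓ * Bm c (opp ℓ) = (-(X * C ((c ℓ - c (opp ℓ)) ^ 2)) : k[X]) • 1 := by
  have ho : opp (opp ℓ) = ℓ := by unfold opp; simp
  unfold Bm
  rw [ho]
  refine Matrix.ext fun i j => ?_
  fin_cases i <;> fin_cases j <;> simp [Matrix.mul_apply, Fin.sum_univ_two] <;> ring

theorem deg_aux {A B : k[X]} {n : ℕ} (hA : A.natDegree ≤ n) (hB : B.natDegree ≤ n) :
    (X * A - B).natDegree ≤ n + 1 := by
  refine (natDegree_sub_le _ _).trans (max_le ?_ (by omega))
  refine natDegree_mul_le.trans ?_
  rw [natDegree_X]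
  omega

theorem deg_aux' {A B : k[X]} {n : ℕ} (x : k) (hA : A.natDegree ≤ n) (hB : B.natDegree ≤ n) :
    (A - C x * B).natDegree ≤ n :=
  (natDegree_sub_le _ _).trans (max_le hA ((natDegree_C_mul_le _ _).trans hB))

/-- The second column of the product for a reduced word. -/
theorem Pm_spec (c : Fin r × Bool → k) (hc : Function.Injective c) (w : List (Fin r × Bool))
    (hw : FreeGroup.IsReduced w) :
    (∀ a, (Pm c w a 1).natDegree ≤ w.length) ∧
    (∀ ℓ, FreeGroup.IsReduced (ℓ :: w) →
      (Pm c w 1 1).coeff w.length - c (opp ℓ) * (Pm c w 0 1).coeff w.length ≠ 0) ∧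
    (w ≠ [] → (Pm c w 0 1).coeff w.length ≠ 0) := by
  induction w with
  | nil =>
    refine ⟨?_, ?_, ?_⟩
    · intro a
      fin_cases a <;> simp [Pm]
    · intro ℓ _
      simp [Pm]
    · intro h
      exact absurd rfl h
  | cons m w ih =>
    have hw' : FreeGroup.IsReduced w := by
      unfold FreeGroup.IsReduced at hw ⊢
      exact hw.of_cons
    obtain ⟨h1, h2, -⟩ := ih hw'
    have hP : Pm c (m :: w) = Bm c m * Pm c w := by
      unfold Pm
      rw [List.map_cons, List.prod_cons]
    have hκ := h2 m hw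
    set u0 := Pm c w 0 1 with hu0
    set u1 := Pm c w 1 1 with hu1
    have e0 : Pm c (m :: w) 0 1 = X * (u1 - C (c (opp m)) * u0) - (u1 - C (c m) * u0) := by
      rw [hP, Matrix.mul_apply, Fin.sum_univ_two, ← hu0, ← hu1]
      simp only [Bm, Matrix.of_apply, Matrix.cons_val_zero, Matrix.cons_val_one,
        Matrix.cons_val', Matrix.cons_val_fin_one]
      ring
    have e1 : Pm c (m :: w) 1 1 = X * (C (c m) * (u1 - C (c (opp m)) * u0)) -
        C (c (opp m)) * (u1 - C (c m) * u0) := by
      rw [hP, Matrix.mul_apply, Fin.sum_univ_two, ← hu0, ← hu1]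
      simp only [Bm, Matrix.of_apply, Matrix.cons_val_zero, Matrix.cons_val_one,
        Matrix.cons_val', Matrix.cons_val_fin_one, C_mul]
      ring
    have d0 : u0.coeff (w.length + 1) = 0 :=
      coeff_eq_zero_of_natDegree_lt (Nat.lt_succ_of_le (h1 0))
    have d1 : u1.coeff (w.length + 1) = 0 :=
      coeff_eq_zero_of_natDegree_lt (Nat.lt_succ_of_le (h1 1))
    set κ := u1.coeff w.length - c (opp m) * u0.coeff w.length with hκd
    have f0 : (Pm c (m :: w) 0 1).coeff (w.length + 1) = κ := by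
      rw [e0, coeff_sub, coeff_X_mul, coeff_sub, coeff_C_mul, coeff_sub, coeff_C_mul, d0, d1]
      rw [hκd]
      ring
    have f1 : (Pm c (m :: w) 1 1).coeff (w.length + 1) = c m * κ := by
      rw [e1, coeff_sub, coeff_X_mul, coeff_C_mul, coeff_sub, coeff_C_mul, coeff_C_mul,
        coeff_sub, coeff_C_mul, d0, d1]
      rw [hκd]
      ring
    have g0 := h1 0
    have g1 := h1 1
    refine ⟨?_, ?_, ?_⟩
    · intro a
      rw [List.length_cons]
      fin_cases a
      · change (Pm c (m :: w) 0 1).natDegree ≤ _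
        rw [e0]
        exact deg_aux (deg_aux' _ g1 g0) (deg_aux' _ g1 g0)
      · change (Pm c (m :: w) 1 1).natDegree ≤ _
        rw [e1]
        exact deg_aux ((natDegree_C_mul_le _ _).trans (deg_aux' _ g1 g0))
          ((natDegree_C_mul_le _ _).trans (deg_aux' _ g1 g0))
    · intro ℓ hℓ
      rw [List.length_cons, f0, f1]
      have h3 : c m - c (opp ℓ) ≠ 0 := by
        intro h4
        have h5 := hc (sub_eq_zero.1 h4)
        unfold FreeGroup.IsReduced at hℓ
        rw [List.isChain_cons_cons] at hℓ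
        have h6 := hℓ.1
        rw [h5] at h6
        have h7 := h6 rfl
        simp [opp] at h7
      have h4 : c m * κ - c (opp ℓ) * κ = (c m - c (opp ℓ)) * κ := by ring
      rw [h4]
      exact mul_ne_zero h3 hκ
    · intro _
      rw [List.length_cons, f0]
      exact hκ

theorem det_Bm (c : Fin r × Bool → k) (ℓ : Fin r × Bool) :
    (Bm c ℓ).det = X * C ((c ℓ - c (opp ℓ)) ^ 2) := by
  rw [Matrix.det_fin_two]
  simp [Bm]
  ring

section rep

variable (c : Fin r × Bool → k) (hc : Function.Injective c)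

theorem sq_ne (hc : Function.Injective c) (ℓ : Fin r × Bool) :
    algebraMap k[X] (FractionRing k[X]) (X * C ((c ℓ - c (opp ℓ)) ^ 2)) ≠ 0 := by
  rw [ne_eq, FaithfulSMul.algebraMap_eq_zero_iff, mul_eq_zero, not_or]
  refine ⟨X_ne_zero, ?_⟩
  rw [C_eq_zero, pow_eq_zero_iff two_ne_zero, sub_eq_zero]
  intro h
  have h1 := hc h
  have h2 : ℓ.2 = (opp ℓ).2 := by rw [← h1]
  simp [opp] at h2

/-- The matrix of a letter over the fraction field. -/
noncomputable def BK (ℓ : Fin r × Bool) : Matrix (Fin 2) (Fin 2) (FractionRing k[X]) :=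
  (Bm c ℓ).map (algebraMap k[X] (FractionRing k[X]))

theorem isUnit_BK (hc : Function.Injective c) (ℓ : Fin r × Bool) : IsUnit (BK c ℓ).det := by
  have h1 : (BK c ℓ).det = algebraMap k[X] (FractionRing k[X]) (Bm c ℓ).det := by
    unfold BK
    rw [← RingHom.mapMatrix_apply, ← RingHom.map_det]
  rw [h1, det_Bm, isUnit_iff_ne_zero]
  exact sq_ne c hc ℓ

/-- The representation. -/
noncomputable def rep (hc : Function.Injective c) :
    FreeGroup (Fin r) →* GL (Fin 2) (FractionRing k[X]) :=
  FreeGroup.lift fun i =>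
    Matrix.GeneralLinearGroup.mk'' (BK c (i, true)) (isUnit_BK c hc (i, true))

theorem letter_spec (hc : Function.Injective c) (ℓ : Fin r × Bool) :
    ∃ s : FractionRing k[X], ((cond ℓ.2
      (Matrix.GeneralLinearGroup.mk'' (BK c (ℓ.1, true)) (isUnit_BK c hc (ℓ.1, true)))
      (Matrix.GeneralLinearGroup.mk'' (BK c (ℓ.1, true)) (isUnit_BK c hc (ℓ.1, true)))⁻¹ :
        GL (Fin 2) (FractionRing k[X])) : Matrix (Fin 2) (Fin 2) (FractionRing k[X])) =
      s • BK c ℓ := by
  obtain ⟨i, b⟩ := ℓ
  cases b with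
  | true => exact ⟨1, by rw [one_smul]; rfl⟩
  | false =>
    set d : FractionRing k[X] := algebraMap k[X] (FractionRing k[X])
      (X * C ((c (i, true) - c (opp (i, true))) ^ 2)) with hd
    have hd0 : d ≠ 0 := sq_ne c hc (i, true)
    refine ⟨-d⁻¹, ?_⟩
    have h1 : BK c (i, true) * BK c (i, false) = (-d) • 1 := by
      have h2 := Bm_mul c (i, true)
      have h3 := congrArg (algebraMap k[X] (FractionRing k[X])).mapMatrix h2
      rw [map_mul] at h3
      refine Eq.trans h3 ?_
      ext a b
      rw [RingHom.mapMatrix_apply, Matrix.map_apply, Matrix.smul_apply, Matrix.smul_apply,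
        smul_eq_mul, smul_eq_mul, map_mul, map_neg, ← hd, Matrix.one_apply, Matrix.one_apply]
      split_ifs <;> simp
    set M : GL (Fin 2) (FractionRing k[X]) :=
      Matrix.GeneralLinearGroup.mk'' (BK c (i, true)) (isUnit_BK c hc (i, true)) with hM
    have hMv : (M : Matrix (Fin 2) (Fin 2) (FractionRing k[X])) = BK c (i, true) := rfl
    have h4 : (M : Matrix (Fin 2) (Fin 2) (FractionRing k[X])) * ((-d⁻¹) • BK c (i, false)) =
        1 := by
      rw [hMv, Matrix.mul_smul, h1, smul_smul, neg_mul_neg, inv_mul_cancel₀ hd0, one_smul]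
    calc ((M⁻¹ : GL (Fin 2) (FractionRing k[X])) : Matrix (Fin 2) (Fin 2) (FractionRing k[X]))
        = ((M⁻¹ : GL (Fin 2) (FractionRing k[X])) : Matrix (Fin 2) (Fin 2) (FractionRing k[X])) *
          ((M : Matrix (Fin 2) (Fin 2) (FractionRing k[X])) * ((-d⁻¹) • BK c (i, false))) := by
          rw [h4, mul_one]
      _ = (-d⁻¹) • BK c (i, false) := by
          rw [← mul_assoc, ← Units.val_mul, inv_mul_cancel, Units.val_one, one_mul]

theorem rep_spec (hc : Function.Injective c) (w : List (Fin r × Bool)) :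
    ∃ s : FractionRing k[X], (rep c hc (FreeGroup.mk w) :
      Matrix (Fin 2) (Fin 2) (FractionRing k[X])) =
      s • (Pm c w).map (algebraMap k[X] (FractionRing k[X])) := by
  unfold rep
  rw [FreeGroup.lift_mk]
  induction w with
  | nil =>
    refine ⟨1, ?_⟩
    rw [one_smul]
    simp [Pm]
  | cons ℓ w ih =>
    obtain ⟨s, hs⟩ := ih
    obtain ⟨s', hs'⟩ := letter_spec c hc ℓ
    refine ⟨s' * s, ?_⟩
    rw [List.map_cons, List.prod_cons, Units.val_mul, hs, hs', Matrix.smul_mul, Matrix.mul_smul,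
      smul_smul]
    congr 1
    unfold Pm BK
    rw [List.map_cons, List.prod_cons, Matrix.map_mul]

end rep

end FR

/-- **BLOCK G1**: free groups have faithful representations in `GL₂` in characteristic `p`. -/
theorem exists_rep {p : ℕ} [Fact p.Prime] {r : ℕ} (g : FreeGroup (Fin r)) (hg : g ≠ 1) :
    ∃ (A : Type) (_ : Field A) (_ : Algebra (ZMod p) A)
      (ρ : FreeGroup (Fin r) →* GL (Fin 2) A), ρ g ≠ 1 := by
  let k := AlgebraicClosure (ZMod p)
  let c : Fin r × Bool → k := fun ℓ =>
    Infinite.natEmbedding k (2 * ℓ.1.val + (if ℓ.2 then 1 else 0))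
  have hc : Function.Injective c := by
    intro ℓ m h
    have h1 := (Infinite.natEmbedding k).injective h
    obtain ⟨i, a⟩ := ℓ
    obtain ⟨j, b⟩ := m
    simp only at h1
    cases a <;> cases b <;> simp at h1 <;> first | omega | skip
    · rw [Fin.ext h1]
    · rw [Fin.ext h1]
  refine ⟨FractionRing k[X], inferInstance, inferInstance, FR.rep c hc, ?_⟩
  intro h
  obtain ⟨s, hs⟩ := FR.rep_spec c hc g.toWord
  rw [FreeGroup.mk_toWord, h] at hs
  have h1 := congrFun (congrFun hs 0) 1
  have hne : g.toWord ≠ [] := fun h2 => hg (FreeGroup.toWord_eq_nil_iff.1 h2)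
  have h2 := (FR.Pm_spec c hc g.toWord FreeGroup.isReduced_toWord).2.2 hne
  have hs0 : s ≠ 0 := by
    rintro rfl
    rw [zero_smul] at hs
    have h3 := congrFun (congrFun hs 0) 0
    simp at h3
  rw [Matrix.smul_apply, Matrix.map_apply, Units.val_one, Matrix.one_apply_ne (by decide),
    smul_eq_mul] at h1
  have h3 := (mul_eq_zero.1 h1.symm).resolve_left hs0
  rw [FaithfulSMul.algebraMap_eq_zero_iff] at h3
  apply h2
  rw [h3, coeff_zero]

end Pool.Agent.LFZ
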