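import Pool.Agent.LFZ.Defs
import Pool.Agent.LFZ.FreeRep

/-!
# Block G2: generic representations of free groups in GL₂ and amalgamation of fields
-/

set_option autoImplicit false

namespace Pool.Agent.LFZ

open TensorProduct

/-! ### amalgamation of fields -/

/-- Two fields which contain the same quotient of a ring have a common extension. -/
theorem exists_amalgam {R A B : Type} [CommRing R] [Field A] [Field B] (f : R →+* A)
    (g : R →+* B) (h : RingHom.ker f = RingHom.ker g) :
    ∃ (C : Type) (_ : Field C) (a : A →+* C) (b : B →+* C), a.comp f = b.comp g := by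
  set I := RingHom.ker f with hI
  have hprime : I.IsPrime := RingHom.ker_isPrime f
  let f' : R ⧸ I →+* A := RingHom.kerLift f
  let g' : R ⧸ I →+* B := Ideal.Quotient.lift I g (fun a ha => by rwa [h] at ha)
  have hf' : Function.Injective f' := RingHom.kerLift_injective f
  have hg' : Function.Injective g' := by
    rw [RingHom.injective_iff_ker_eq_bot, Ideal.ker_quotient_lift, ← h]
    exact Ideal.map_quotient_self I
  let K := FractionRing (R ⧸ I)
  let fK : K →+* A := IsFractionRing.lift hf'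
  let gK : K →+* B := IsFractionRing.lift hg'
  let := fK.toAlgebra
  let := gK.toAlgebra
  have hnt : Nontrivial (A ⊗[K] B) :=
    Algebra.TensorProduct.nontrivial_of_algebraMap_injective_of_flat_left K A B
      (algebraMap K B).injective
  obtain ⟨m, hm⟩ := Ideal.exists_maximal (A ⊗[K] B)
  let a : A →+* (A ⊗[K] B) ⧸ m :=
    (Ideal.Quotient.mk m).comp (Algebra.TensorProduct.includeLeftRingHom)
  let b : B →+* (A ⊗[K] B) ⧸ m :=
    (Ideal.Quotient.mk m).comp (Algebra.TensorProduct.includeRight : B →ₐ[K] A ⊗[K] B).toRingHom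
  refine ⟨(A ⊗[K] B) ⧸ m, Ideal.Quotient.field m, a, b, ?_⟩
  ext r
  have h1 : f r = algebraMap K A (algebraMap (R ⧸ I) K (Ideal.Quotient.mk I r)) := by
    change _ = fK _
    rw [IsFractionRing.lift_algebraMap]
    rfl
  have h2 : g r = algebraMap K B (algebraMap (R ⧸ I) K (Ideal.Quotient.mk I r)) := by
    change _ = gK _
    rw [IsFractionRing.lift_algebraMap]
    rfl
  change Ideal.Quotient.mk m (f r ⊗ₜ[K] 1) = Ideal.Quotient.mk m (1 ⊗ₜ[K] g r)
  rw [h1, h2, Algebra.TensorProduct.tmul_one_eq_one_tmul]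

/-! ### generic representations -/

section generic

variable (p : ℕ) [Fact p.Prime] (r : ℕ)

/-- The ring of the coordinates of `r` matrices of size two. -/
abbrev GS : Type := MvPolynomial (Fin r × Fin 2 × Fin 2) (ZMod p)

/-- The generic matrix. -/
noncomputable def gmat (i : Fin r) : Matrix (Fin 2) (Fin 2) (GS p r) :=
  Matrix.of fun a b => MvPolynomial.X (i, a, b)

/-- The product of the determinants. -/
noncomputable def gdet : GS p r := ∏ i, (gmat p r i).det

theorem gdet_ne_zero : gdet p r ≠ 0 := by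
  intro h
  have h1 := congrArg (MvPolynomial.aeval (fun v : Fin r × Fin 2 × Fin 2 =>
    if v.2.1 = v.2.2 then (1 : ZMod p) else 0)) h
  rw [map_zero, gdet, map_prod] at h1
  have h2 : ∀ i, MvPolynomial.aeval (fun v : Fin r × Fin 2 × Fin 2 =>
    if v.2.1 = v.2.2 then (1 : ZMod p) else 0) (gmat p r i).det = 1 := by
    intro i
    rw [Matrix.det_fin_two]
    simp [gmat]
  rw [Finset.prod_congr rfl fun i _ => h2 i, Finset.prod_const_one] at h1
  exact one_ne_zero h1

variable {p r}

theorem isUnit_det {A : Type} [CommRing A] (φ : GS p r →+* A) (h : IsUnit (φ (gdet p r)))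
    (i : Fin r) : IsUnit ((gmat p r i).map φ).det := by
  have h1 : ((gmat p r i).map φ).det = φ (gmat p r i).det := by
    rw [← RingHom.mapMatrix_apply, ← RingHom.map_det]
  rw [h1]
  rw [gdet, map_prod] at h
  exact isUnit_of_dvd_unit (Finset.dvd_prod_of_mem (fun x => φ (gmat p r x).det)
    (Finset.mem_univ i)) h

/-- The representation with generic matrices. -/
noncomputable def grep {A : Type} [CommRing A] (φ : GS p r →+* A) (h : IsUnit (φ (gdet p r))) :
    FreeGroup (Fin r) →* GL (Fin 2) A :=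
  FreeGroup.lift fun i => Matrix.GeneralLinearGroup.mk'' ((gmat p r i).map φ) (isUnit_det φ h i)

theorem grep_of {A : Type} [CommRing A] (φ : GS p r →+* A) (h : IsUnit (φ (gdet p r)))
    (i : Fin r) (a b : Fin 2) :
    (grep φ h (FreeGroup.of i) : Matrix (Fin 2) (Fin 2) A) a b = φ (MvPolynomial.X (i, a, b)) := by
  unfold grep
  rw [FreeGroup.lift_apply_of]
  rfl

theorem glmap_apply {A B : Type} [CommRing A] [CommRing B] (θ : A →+* B) (M : GL (Fin 2) A)
    (a b : Fin 2) : (Matrix.GeneralLinearGroup.map θ M : Matrix (Fin 2) (Fin 2) B) a b =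
      θ ((M : Matrix (Fin 2) (Fin 2) A) a b) := rfl

/-- Uniqueness. -/
theorem map_grep {A B : Type} [CommRing A] [CommRing B] (φ : GS p r →+* A)
    (h : IsUnit (φ (gdet p r))) (θ : A →+* B) (ρ : FreeGroup (Fin r) →* GL (Fin 2) B)
    (hρ : ∀ i a b, (ρ (FreeGroup.of i) : Matrix (Fin 2) (Fin 2) B) a b =
      θ (φ (MvPolynomial.X (i, a, b)))) :
    (Matrix.GeneralLinearGroup.map θ).comp (grep φ h) = ρ := by
  apply FreeGroup.ext_hom
  intro i
  apply Units.ext
  ext a b
  rw [hρ, MonoidHom.comp_apply, ← grep_of φ h i a b]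
  rfl

variable (p r)

/-- The ring over which the generic representation is defined. -/
abbrev GO : Type := Localization.Away (gdet p r)

/-- The field of the generic representation. -/
abbrev GK : Type := FractionRing (GS p r)

theorem isUnit_GO : IsUnit (algebraMap (GS p r) (GO p r) (gdet p r)) :=
  IsLocalization.Away.algebraMap_isUnit _

theorem isUnit_GK : IsUnit (algebraMap (GS p r) (GK p r) (gdet p r)) := by
  rw [isUnit_iff_ne_zero, ne_eq, FaithfulSMul.algebraMap_eq_zero_iff]
  exact gdet_ne_zero p r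

/-- The generic representation over the ring. -/
noncomputable def gO : FreeGroup (Fin r) →* GL (Fin 2) (GO p r) :=
  grep (algebraMap (GS p r) (GO p r)) (isUnit_GO p r)

/-- The generic representation over the field. -/
noncomputable def gK : FreeGroup (Fin r) →* GL (Fin 2) (GK p r) :=
  grep (algebraMap (GS p r) (GK p r)) (isUnit_GK p r)

/-- The inclusion of the ring in the field. -/
noncomputable def incl : GO p r →+* GK p r :=
  IsLocalization.Away.lift (gdet p r) (isUnit_GK p r)

theorem incl_injective : Function.Injective (incl p r) := by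
  rw [injective_iff_map_eq_zero]
  intro o ho
  obtain ⟨⟨s, d⟩, hsd⟩ := IsLocalization.surj (Submonoid.powers (gdet p r)) o
  simp only at hsd
  have h1 : algebraMap (GS p r) (GK p r) s = 0 := by
    have h2 := congrArg (incl p r) hsd
    rw [map_mul, ho, zero_mul] at h2
    unfold incl at h2
    rw [IsLocalization.Away.lift_eq] at h2
    exact h2.symm
  have h3 : s = 0 := (FaithfulSMul.algebraMap_eq_zero_iff _ _).1 h1
  rw [h3, map_zero] at hsd
  exact ((IsLocalization.map_units (GO p r) d).mul_left_eq_zero).1 hsd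

theorem map_incl : (Matrix.GeneralLinearGroup.map (incl p r)).comp (gO p r) = gK p r := by
  apply map_grep
  intro i a b
  unfold gK incl
  rw [grep_of, IsLocalization.Away.lift_eq]

variable {p r}

/-- Every representation is a specialisation. -/
theorem exists_special {A : Type} [CommRing A] [Algebra (ZMod p) A]
    (ρ : FreeGroup (Fin r) →* GL (Fin 2) A) :
    ∃ θ : GO p r →+* A, (Matrix.GeneralLinearGroup.map θ).comp (gO p r) = ρ := by
  let φ : GS p r →+* A := (MvPolynomial.aeval (fun v : Fin r × Fin 2 × Fin 2 =>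
    (ρ (FreeGroup.of v.1) : Matrix (Fin 2) (Fin 2) A) v.2.1 v.2.2)).toRingHom
  have hφ : ∀ i, (gmat p r i).map φ = (ρ (FreeGroup.of i) : Matrix (Fin 2) (Fin 2) A) := by
    intro i
    ext a b
    rw [Matrix.map_apply]
    change MvPolynomial.aeval _ (MvPolynomial.X (i, a, b)) = _
    rw [MvPolynomial.aeval_X]
  have hu : IsUnit (φ (gdet p r)) := by
    rw [gdet, map_prod]
    refine (Finset.univ.prod_induction _ IsUnit (fun _ _ => IsUnit.mul) isUnit_one ?_)
    intro i _
    rw [RingHom.map_det, RingHom.mapMatrix_apply, hφ]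
    exact (Matrix.isUnit_iff_isUnit_det _).1 (ρ (FreeGroup.of i)).isUnit
  refine ⟨IsLocalization.Away.lift (gdet p r) hu, ?_⟩
  apply map_grep
  intro i a b
  rw [IsLocalization.Away.lift_eq]
  change _ = MvPolynomial.aeval _ (MvPolynomial.X (i, a, b))
  rw [MvPolynomial.aeval_X]

/-- Ring homomorphisms are homomorphisms of algebras over the prime field. -/
def toAlg {A B : Type} [CommRing A] [CommRing B] [Algebra (ZMod p) A] [Algebra (ZMod p) B]
    (θ : A →+* B) : A →ₐ[ZMod p] B :=
  { θ with
    commutes' := fun x => RingHom.congr_fun (RingHom.ext_zmod (θ.comp (algebraMap (ZMod p) A))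
      (algebraMap (ZMod p) B)) x }

theorem aeval_comp {A B : Type} [CommRing A] [CommRing B] [Algebra (ZMod p) A]
    [Algebra (ZMod p) B] (θ : A →+* B) {σ : Type} (e : σ → A) (P : MvPolynomial σ (ZMod p)) :
    MvPolynomial.aeval (fun v => θ (e v)) P = θ (MvPolynomial.aeval e P) :=
  (MvPolynomial.comp_aeval_apply e (toAlg θ) P).symm

/-- The relations are those of the generic representation. -/
theorem mem_relI_iff {U : Type} [Group U] (bU : FreeGroup (Fin r) ≃* U) {J : Type} (x : J → U)
    (P : MvPolynomial (J × Fin 2 × Fin 2) (ZMod p)) :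
    P ∈ relI p x ↔ MvPolynomial.aeval (fun v : J × Fin 2 × Fin 2 =>
      (gK p r (bU.symm (x v.1)) : Matrix (Fin 2) (Fin 2) (GK p r)) v.2.1 v.2.2) P = 0 := by
  constructor
  · intro h
    exact h (GK p r) ((gK p r).comp bU.symm.toMonoidHom)
  · intro h A _ _ ρ
    obtain ⟨θ, hθ⟩ := exists_special (p := p) (ρ.comp bU.toMonoidHom)
    have h1 : MvPolynomial.aeval (fun v : J × Fin 2 × Fin 2 =>
        (gO p r (bU.symm (x v.1)) : Matrix (Fin 2) (Fin 2) (GO p r)) v.2.1 v.2.2) P = 0 := by
      apply incl_injective p r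
      rw [map_zero, ← aeval_comp, ← h]
      congr 1
      congr 1
      funext v
      rw [← map_incl]
      rfl
    have h2 := congrArg θ h1
    rw [map_zero, ← aeval_comp] at h2
    rw [← h2]
    congr 1
    congr 1
    funext v
    have h3 := DFunLike.congr_fun hθ (bU.symm (x v.1))
    have h4 : ρ (x v.1) = Matrix.GeneralLinearGroup.map θ (gO p r (bU.symm (x v.1))) := by
      rw [← MonoidHom.comp_apply, h3]
      simp
    rw [h4]
    rfl

/-- The generic representation is faithful. -/
theorem gK_ne_one (g : FreeGroup (Fin r)) (hg : g ≠ 1) : gK p r g ≠ 1 := by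
  intro h
  obtain ⟨A, _, _, ρ, hρ⟩ := exists_rep (p := p) g hg
  apply hρ
  obtain ⟨θ, hθ⟩ := exists_special (p := p) ρ
  have h1 : gO p r g = 1 := by
    apply Units.ext
    ext a b
    apply incl_injective p r
    have h2 : (Matrix.GeneralLinearGroup.map (incl p r)) (gO p r g) = 1 := by
      rw [← MonoidHom.comp_apply, map_incl, h]
    have h3 : incl p r ((gO p r g : Matrix (Fin 2) (Fin 2) (GO p r)) a b) =
        ((1 : GL (Fin 2) (GK p r)) : Matrix (Fin 2) (Fin 2) (GK p r)) a b := by
      rw [← glmap_apply, h2]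
    rw [h3]
    rw [Units.val_one, Units.val_one, Matrix.one_apply, Matrix.one_apply]
    split_ifs <;> simp
  rw [← hθ, MonoidHom.comp_apply, h1, map_one]

/-- The coordinates of the generic matrices are algebraically independent. -/
theorem algebraicIndependent_gK {U L : Type} [Group U] [Field L] [Algebra (ZMod p) L]
    (bU : FreeGroup (Fin r) ≃* U) (θ : GK p r →+* L) (ρ : U →* GL (Fin 2) L)
    (hρ : ∀ u, ρ u = Matrix.GeneralLinearGroup.map θ (gK p r (bU.symm u))) :
    AlgebraicIndependent (ZMod p) (fun v : Fin r × Fin 2 × Fin 2 =>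
        (ρ (bU (FreeGroup.of v.1)) : Matrix (Fin 2) (Fin 2) L) v.2.1 v.2.2) := by
  have h1 : (fun v : Fin r × Fin 2 × Fin 2 =>
      (ρ (bU (FreeGroup.of v.1)) : Matrix (Fin 2) (Fin 2) L) v.2.1 v.2.2) =
      fun v => θ (algebraMap (GS p r) (GK p r) (MvPolynomial.X v)) := by
    funext v
    rw [hρ, MulEquiv.symm_apply_apply]
    change θ ((gK p r (FreeGroup.of v.1) : Matrix (Fin 2) (Fin 2) (GK p r)) v.2.1 v.2.2) = _
    unfold gK
    rw [grep_of]
  rw [h1]
  intro P Q hPQ
  rw [aeval_comp θ (fun v => algebraMap (GS p r) (GK p r) (MvPolynomial.X v)),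
    aeval_comp θ (fun v => algebraMap (GS p r) (GK p r) (MvPolynomial.X v)),
    aeval_comp (algebraMap (GS p r) (GK p r)) (fun v => MvPolynomial.X v),
    aeval_comp (algebraMap (GS p r) (GK p r)) (fun v => MvPolynomial.X v),
    MvPolynomial.aeval_X_left] at hPQ
  exact (FaithfulSMul.algebraMap_injective _ _) (θ.injective hPQ)

end generic

/-- **BLOCK G2**: generic representations and amalgamation of fields. -/
theorem amalgam {p : ℕ} [Fact p.Prime] {U W : Type} [Group U] [Group W] {rU rW : ℕ}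
    (bU : FreeGroup (Fin rU) ≃* U) (bW : FreeGroup (Fin rW) ≃* W) {J : Type} [Finite J]
    (x : J → U) (x0 x1 : J → W) (h0 : relI p x = relI p x0) (h1 : relI p x = relI p x1)
    (g : W) (hg : g ≠ 1) :
    ∃ (L : Type) (_ : Field L) (_ : Algebra (ZMod p) L) (ρ : W →* GL (Fin 2) L)
      (ρ0 ρ1 : U →* GL (Fin 2) L), (∀ j, ρ0 (x j) = ρ (x0 j)) ∧ (∀ j, ρ1 (x j) = ρ (x1 j)) ∧
      ρ g ≠ 1 ∧
      AlgebraicIndependent (ZMod p) (fun v : Fin rU × Fin 2 × Fin 2 =>
        (ρ0 (bU (FreeGroup.of v.1)) : Matrix (Fin 2) (Fin 2) L) v.2.1 v.2.2) ∧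
      AlgebraicIndependent (ZMod p) (fun v : Fin rU × Fin 2 × Fin 2 =>
        (ρ1 (bU (FreeGroup.of v.1)) : Matrix (Fin 2) (Fin 2) L) v.2.1 v.2.2) := by
  let εU : MvPolynomial (J × Fin 2 × Fin 2) (ZMod p) →ₐ[ZMod p] GK p rU :=
    MvPolynomial.aeval (fun v : J × Fin 2 × Fin 2 =>
      (gK p rU (bU.symm (x v.1)) : Matrix (Fin 2) (Fin 2) (GK p rU)) v.2.1 v.2.2)
  let ε0 : MvPolynomial (J × Fin 2 × Fin 2) (ZMod p) →ₐ[ZMod p] GK p rW :=
    MvPolynomial.aeval (fun v : J × Fin 2 × Fin 2 =>
      (gK p rW (bW.symm (x0 v.1)) : Matrix (Fin 2) (Fin 2) (GK p rW)) v.2.1 v.2.2)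
  let ε1 : MvPolynomial (J × Fin 2 × Fin 2) (ZMod p) →ₐ[ZMod p] GK p rW :=
    MvPolynomial.aeval (fun v : J × Fin 2 × Fin 2 =>
      (gK p rW (bW.symm (x1 v.1)) : Matrix (Fin 2) (Fin 2) (GK p rW)) v.2.1 v.2.2)
  have kU : RingHom.ker εU.toRingHom = relI p x := by
    ext P; rw [RingHom.mem_ker, mem_relI_iff bU]; rfl
  have k0 : RingHom.ker ε0.toRingHom = relI p x0 := by
    ext P; rw [RingHom.mem_ker, mem_relI_iff bW]; rfl
  have k1 : RingHom.ker ε1.toRingHom = relI p x1 := by
    ext P; rw [RingHom.mem_ker, mem_relI_iff bW]; rfl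
  obtain ⟨C1, _, a1, b1, hab1⟩ := exists_amalgam εU.toRingHom ε0.toRingHom
    (by rw [kU, k0, h0])
  obtain ⟨L, _, a2, b2, hab2⟩ := exists_amalgam (b1.comp ε1.toRingHom)
    εU.toRingHom (by
      rw [kU, h1, ← k1]
      ext P
      rw [RingHom.mem_ker, RingHom.mem_ker, RingHom.comp_apply, map_eq_zero])
  let alg : Algebra (ZMod p) L := (b2.comp (algebraMap (ZMod p) (GK p rU))).toAlgebra
  refine ⟨L, inferInstance, alg,
    (Matrix.GeneralLinearGroup.map (a2.comp b1)).comp ((gK p rW).comp bW.symm.toMonoidHom),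
    (Matrix.GeneralLinearGroup.map (a2.comp a1)).comp ((gK p rU).comp bU.symm.toMonoidHom),
    (Matrix.GeneralLinearGroup.map b2).comp ((gK p rU).comp bU.symm.toMonoidHom),
    ?_, ?_, ?_, ?_, ?_⟩
  · intro j
    apply Units.ext
    ext a b
    have h2 := congrArg a2 (RingHom.congr_fun hab1 (MvPolynomial.X (j, a, b)))
    change a2 (a1 (MvPolynomial.aeval _ (MvPolynomial.X (j, a, b)))) =
      a2 (b1 (MvPolynomial.aeval _ (MvPolynomial.X (j, a, b)))) at h2
    rw [MvPolynomial.aeval_X, MvPolynomial.aeval_X] at h2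
    exact h2
  · intro j
    apply Units.ext
    ext a b
    have h2 := RingHom.congr_fun hab2 (MvPolynomial.X (j, a, b))
    change a2 (b1 (MvPolynomial.aeval _ (MvPolynomial.X (j, a, b)))) =
      b2 (MvPolynomial.aeval _ (MvPolynomial.X (j, a, b))) at h2
    rw [MvPolynomial.aeval_X, MvPolynomial.aeval_X] at h2
    exact h2.symm
  · intro h
    apply gK_ne_one (p := p) (bW.symm g)
      (fun h2 => hg (bW.symm.injective (by rw [h2, map_one])))
    apply Units.ext
    ext a b
    apply (a2.comp b1).injective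
    have h3 : (a2.comp b1) ((gK p rW (bW.symm g) : Matrix (Fin 2) (Fin 2) (GK p rW)) a b) =
        ((1 : GL (Fin 2) L) : Matrix (Fin 2) (Fin 2) L) a b := by
      rw [← glmap_apply, ← h]
      rfl
    rw [h3, Units.val_one, Units.val_one, Matrix.one_apply, Matrix.one_apply]
    split_ifs <;> simp
  · exact algebraicIndependent_gK bU (a2.comp a1) _ (fun _ => rfl)
  · exact algebraicIndependent_gK bU b2 _ (fun _ => rfl)

end Pool.Agent.LFZ
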