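import Pool.Agent.LFZ.Deg1

/-!
# MP_08a057_al, block A2: finite free rings over the local ring `κ[u]_(u)`
-/

set_option autoImplicit false

namespace Pool.Agent.LFZ

open Polynomial IntermediateField

section A2core

variable {κ E V K : Type} [Field κ] [Field E] [Algebra κ E]
  [CommRing V] [IsDomain V] [IsLocalRing V] [IsPrincipalIdealRing V] [Algebra κ V]
  [Algebra V E] [IsScalarTower κ V E]
  [Field K] [Algebra V K] [IsFractionRing V K] [Algebra K E] [IsScalarTower V K E]

theorem wring_core0 [FiniteDimensional K E]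
    (u0 : V) (hu0 : u0 ∈ IsLocalRing.maximalIdeal V)
    (h1 : ∀ v : V, ∃ (c : κ) (v' : V), v = algebraMap κ V c + u0 * v')
    (T : Set E) (hT : T.Finite) (hTi : ∀ x ∈ T, IsIntegral V x) :
    ∃ (W : Subalgebra V E),
      Module.Finite κ (W ⧸ Ideal.span {algebraMap V W u0}) ∧
      Module.finrank κ (W ⧸ Ideal.span {algebraMap V W u0}) = Module.finrank K E ∧
      (∀ w : W, IsUnit (1 + algebraMap V W u0 * w)) ∧ ∀ x ∈ T, x ∈ W := by
  classical
  let e := Module.finBasis K E
  have halg : ∀ i, ∃ y ≠ (0 : V), IsIntegral V (y • e i) := fun i =>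
    ((IsFractionRing.isAlgebraic_iff V K E).2
      (IsAlgebraic.of_finite K (e i))).exists_integral_multiple
  choose y hy0 hyi using halg
  set S : Set E := T ∪ Set.range (fun i => y i • e i) with hS
  have hSfin : S.Finite := hT.union (Set.finite_range _)
  have hSint : ∀ x ∈ S, IsIntegral V x := by
    rintro x (hx | ⟨i, rfl⟩)
    · exact hTi x hx
    · exact hyi i
  obtain ⟨W0, hW0⟩ : ∃ W0 : Subalgebra V E, W0 = Algebra.adjoin V S := ⟨_, rfl⟩
  have hfg : (Subalgebra.toSubmodule W0).FG := by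
    rw [hW0]; exact fg_adjoin_of_finite hSfin hSint
  have hfinW : Module.Finite V W0 := Module.Finite.iff_fg.2 hfg
  have hinjK : Function.Injective (algebraMap V K) := IsFractionRing.injective V K
  have hinjE : Function.Injective (algebraMap V E) := by
    rw [IsScalarTower.algebraMap_eq V K E]
    exact (algebraMap K E).injective.comp hinjK
  have : FaithfulSMul V E := (faithfulSMul_iff_algebraMap_injective V E).2 hinjE
  have : Module.IsTorsionFree V W0 := inferInstance
  have hfree : Module.Free V W0 := Module.free_of_finite_type_torsion_free'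
  let b := Module.Free.chooseBasis V W0
  let ι := Module.Free.ChooseBasisIndex V W0
  -- a K-basis of E
  have hli : LinearIndependent V (fun i : ι => ((b i : W0) : E)) := by
    have := b.linearIndependent
    exact this.map' W0.val.toLinearMap (by
      rw [LinearMap.ker_eq_bot]
      exact Subtype.val_injective)
  have hliK : LinearIndependent K (fun i : ι => ((b i : W0) : E)) :=
    (LinearIndependent.iff_fractionRing V K).1 hli
  have hspan : ⊤ ≤ Submodule.span K (Set.range (fun i : ι => ((b i : W0) : E))) := by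
    have hW : ∀ w : W0, (w : E) ∈ Submodule.span K (Set.range (fun i : ι => ((b i : W0) : E))) := by
      intro w
      have := b.sum_repr w
      rw [← this]
      rw [AddSubmonoidClass.coe_finsetSum]
      refine Submodule.sum_mem _ fun i _ => ?_
      rw [Subalgebra.coe_smul, ← algebraMap_smul K (b.repr w i) ((b i : W0) : E)]
      exact Submodule.smul_mem _ _ (Submodule.subset_span ⟨i, rfl⟩)
    rw [← e.span_eq, Submodule.span_le]
    rintro _ ⟨i, rfl⟩
    have hmem : y i • e i ∈ W0 := by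
      rw [hW0]; exact Algebra.subset_adjoin (Or.inr ⟨i, rfl⟩)
    have h2 := hW ⟨_, hmem⟩
    have h3 : e i = (algebraMap V K (y i))⁻¹ • (y i • e i) := by
      rw [← algebraMap_smul K (y i) (e i), inv_smul_smul₀]
      exact fun h => hy0 i (hinjK (by rw [h, map_zero]))
    rw [h3]
    exact Submodule.smul_mem _ _ h2
  have hcard : Fintype.card ι = Module.finrank K E :=
    (Module.finrank_eq_card_basis (Module.Basis.mk hliK hspan)).symm
  -- the quotient
  let f : (ι → κ) →ₗ[κ] W0 ⧸ Ideal.span {algebraMap V W0 u0} :=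
    (Ideal.Quotient.mkₐ κ (Ideal.span {algebraMap V W0 u0})).toLinearMap ∘ₗ
      (Fintype.linearCombination κ (fun i : ι => (b i : W0)))
  have hf : ∀ c : ι → κ, f c = Ideal.Quotient.mk _ (∑ i, c i • (b i : W0)) := fun c => rfl
  have hsm : ∀ (c : κ) (w : W0), c • w = (algebraMap κ V c) • w := by
    intro c w
    rw [algebraMap_smul]
  have hnonunit : ¬ IsUnit u0 := (IsLocalRing.mem_maximalIdeal u0).1 hu0
  have hfinj : Function.Injective f := by
    rw [← LinearMap.ker_eq_bot, LinearMap.ker_eq_bot']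
    intro c hc
    rw [hf, Ideal.Quotient.eq_zero_iff_mem, Ideal.mem_span_singleton'] at hc
    obtain ⟨w, hw⟩ := hc
    have hw' : ∑ i, (algebraMap κ V (c i)) • b i = u0 • w := by
      rw [Algebra.smul_def u0 w, mul_comm, hw]
      exact Finset.sum_congr rfl fun i _ => (hsm _ _).symm
    funext i
    have h2 := congrArg (fun z => b.repr z i) hw'
    simp only [map_sum, map_smul, Finsupp.coe_finsetSum, Finset.sum_apply, Finsupp.smul_apply,
      Module.Basis.repr_self, smul_eq_mul] at h2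
    rw [Finset.sum_eq_single i] at h2
    · rw [Finsupp.single_eq_same, mul_one] at h2
      by_contra hci
      have : IsUnit (algebraMap κ V (c i)) := (IsUnit.mk0 (c i) hci).map _
      rw [h2] at this
      exact hnonunit (isUnit_of_mul_isUnit_left this)
    · intro j _ hj
      rw [Finsupp.single_eq_of_ne (Ne.symm hj), mul_zero]
    · simp
  have hfsurj : Function.Surjective f := by
    intro q
    obtain ⟨w, rfl⟩ := Ideal.Quotient.mk_surjective q
    choose c v' hcv using h1
    refine ⟨fun i => c (b.repr w i), ?_⟩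
    rw [hf, eq_comm, Ideal.Quotient.eq, Ideal.mem_span_singleton']
    refine ⟨∑ i, v' (b.repr w i) • b i, ?_⟩
    rw [mul_comm, ← Algebra.smul_def, eq_sub_iff_add_eq]
    conv_rhs => rw [← b.sum_repr w]
    rw [Finset.smul_sum, ← Finset.sum_add_distrib]
    refine Finset.sum_congr rfl fun i _ => ?_
    conv_rhs => rw [hcv (b.repr w i)]
    rw [add_smul, smul_smul, add_comm, hsm]
  let F : (ι → κ) ≃ₗ[κ] W0 ⧸ Ideal.span {algebraMap V W0 u0} :=
    LinearEquiv.ofBijective f ⟨hfinj, hfsurj⟩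
  refine ⟨W0, Module.Finite.equiv F, ?_, ?_, ?_⟩
  · rw [← F.finrank_eq, Module.finrank_fintype_fun_eq_card, hcard]
  · intro w
    have : Algebra.IsIntegral V W0 := Algebra.IsIntegral.of_finite V W0
    by_contra hcon
    obtain ⟨m, hm, hmem⟩ := exists_max_ideal_of_mem_nonunits hcon
    have hmax := Ideal.isMaximal_comap_of_isIntegral_of_isMaximal (R := V) (S := W0) m
    have heq := IsLocalRing.eq_maximalIdeal hmax
    have hu1 : u0 ∈ Ideal.comap (algebraMap V W0) m := by rw [heq]; exact hu0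
    have hu2 : algebraMap V W0 u0 ∈ m := hu1
    have h3 : (1 : W0) ∈ m := by
      have := m.sub_mem hmem (m.mul_mem_right w hu2)
      simpa using this
    exact hm.ne_top ((Ideal.eq_top_iff_one m).2 h3)
  · intro x hx
    rw [hW0]
    exact Algebra.subset_adjoin (Or.inl hx)

theorem wring_core [FiniteDimensional K E]
    (u0 : V) (hu0 : u0 ∈ IsLocalRing.maximalIdeal V)
    (h1 : ∀ v : V, ∃ (c : κ) (v' : V), v = algebraMap κ V c + u0 * v')
    (T : Set E) (hT : T.Finite) (hTi : ∀ x ∈ T, IsIntegral V x) :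
    ∃ (W : Subalgebra κ E) (hu : algebraMap V E u0 ∈ W),
      Module.Finite κ (W ⧸ Ideal.span {(⟨_, hu⟩ : W)}) ∧
      Module.finrank κ (W ⧸ Ideal.span {(⟨_, hu⟩ : W)}) = Module.finrank K E ∧
      (∀ w : W, IsUnit (1 + ⟨_, hu⟩ * w)) ∧ ∀ x ∈ T, x ∈ W := by
  obtain ⟨W0, h2, h3, h4, h5⟩ := wring_core0 (κ := κ) (K := K) u0 hu0 h1 T hT hTi
  exact ⟨W0.restrictScalars κ, W0.algebraMap_mem u0, h2, h3, h4, h5⟩

end A2core

section A2inst

variable {κ E : Type} [Field κ] [Field E] [Algebra κ E]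

theorem span_X_isPrime : (Ideal.span {(X : κ[X])}).IsPrime :=
  (Ideal.span_singleton_prime X_ne_zero).2 prime_X

theorem mem_span_X_iff (p : κ[X]) : p ∈ Ideal.span {(X : κ[X])} ↔ p.eval 0 = 0 := by
  rw [Ideal.mem_span_singleton, X_dvd_iff, coeff_zero_eq_eval_zero]

theorem wring_inst {K : Type} [Field K] [Algebra κ[X] K] [IsFractionRing κ[X] K] [Algebra K E]
    [Algebra κ[X] E] [IsScalarTower κ[X] K E] [IsScalarTower κ κ[X] E] [FiniteDimensional K E]
    {u : E} (hXu : algebraMap κ[X] E X = u) (T : Set E) (hT : T.Finite) (hTi : ∀ x ∈ T, ∃ P : Polynomial (Polynomial κ),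
      P.leadingCoeff.eval 0 ≠ 0 ∧ Polynomial.eval₂ (algebraMap κ[X] E) x P = 0) :
    ∃ (W : Subalgebra κ E) (hu : u ∈ W),
      Module.Finite κ (W ⧸ Ideal.span {(⟨_, hu⟩ : W)}) ∧
      Module.finrank κ (W ⧸ Ideal.span {(⟨_, hu⟩ : W)}) = Module.finrank K E ∧
      (∀ w : W, IsUnit (1 + ⟨_, hu⟩ * w)) ∧ ∀ x ∈ T, x ∈ W := by
  subst hXu
  have hP0 : (Ideal.span {(X : κ[X])}).IsPrime := span_X_isPrime
  have hne : Ideal.span {(X : κ[X])} ≠ ⊥ := by
    rw [Ne, Ideal.span_singleton_eq_bot]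
    exact X_ne_zero
  obtain ⟨P0, hP0def⟩ : ∃ P0 : Ideal κ[X], P0 = Ideal.span {(X : κ[X])} := ⟨_, rfl⟩
  rw [← hP0def] at hP0 hne
  have hmem : ∀ p : κ[X], p ∈ P0 ↔ p.eval 0 = 0 := by
    intro p
    rw [hP0def, mem_span_X_iff]
  let V := Localization.AtPrime P0
  have hdvr : IsDiscreteValuationRing V :=
    IsLocalization.AtPrime.isDiscreteValuationRing_of_dedekind_domain κ[X] hne V
  have hunit : ∀ y : P0.primeCompl, IsUnit (algebraMap κ[X] K y) := by
    intro y
    refine IsUnit.mk0 _ fun h => ?_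
    have h0 : (y : κ[X]) = 0 := IsFractionRing.injective κ[X] K (by rw [h, map_zero])
    exact y.2 (by rw [h0]; exact P0.zero_mem)
  let aVK : Algebra V K := (IsLocalization.lift (M := P0.primeCompl) hunit).toAlgebra
  have tVK : IsScalarTower κ[X] V K := IsScalarTower.of_algebraMap_eq' 
    (IsLocalization.lift_comp (M := P0.primeCompl) hunit).symm
  have fVK : IsFractionRing V K :=
    IsFractionRing.isFractionRing_of_isDomain_of_isLocalization P0.primeCompl V K
  let aVE : Algebra V E := ((algebraMap K E).comp (algebraMap V K)).toAlgebra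
  have tVKE : IsScalarTower V K E := IsScalarTower.of_algebraMap_eq' rfl
  have tXVE : IsScalarTower κ[X] V E := IsScalarTower.of_algebraMap_eq' (by
    rw [IsScalarTower.algebraMap_eq κ[X] K E, IsScalarTower.algebraMap_eq κ[X] V K,
      IsScalarTower.algebraMap_eq V K E]
    rfl)
  have tκVE : IsScalarTower κ V E := IsScalarTower.of_algebraMap_eq' (by
    rw [IsScalarTower.algebraMap_eq κ κ[X] E, IsScalarTower.algebraMap_eq κ[X] V E,
      IsScalarTower.algebraMap_eq κ κ[X] V]
    rfl)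
  have hu0 : algebraMap κ[X] V X ∈ IsLocalRing.maximalIdeal V := by
    rw [IsLocalization.AtPrime.to_map_mem_maximal_iff V P0, hmem]
    simp
  have h1 : ∀ v : V, ∃ (c : κ) (v' : V), v = algebraMap κ V c + algebraMap κ[X] V X * v' := by
    intro v
    obtain ⟨a, s, rfl⟩ := IsLocalization.exists_mk'_eq P0.primeCompl v
    have hs : (s : κ[X]).eval 0 ≠ 0 := fun h => s.2 ((hmem _).2 h)
    obtain ⟨r, hr⟩ : X ∣ a - C (a.eval 0 / (s : κ[X]).eval 0) * (s : κ[X]) := by
      rw [X_dvd_iff, coeff_zero_eq_eval_zero]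
      simp [div_mul_cancel₀ _ hs]
    refine ⟨a.eval 0 / (s : κ[X]).eval 0, IsLocalization.mk' V r s, ?_⟩
    rw [IsLocalization.mk'_eq_iff_eq_mul, add_mul, mul_assoc, IsLocalization.mk'_spec,
      IsScalarTower.algebraMap_apply κ κ[X] V, ← map_mul, ← map_mul, ← map_add, ← hr]
    congr 1
    rw [← C_eq_algebraMap]
    ring
  have hTi' : ∀ x ∈ T, IsIntegral V x := by
    intro x hx
    obtain ⟨P, hP, hPx⟩ := hTi x hx
    have hlc : IsUnit (algebraMap κ[X] V P.leadingCoeff) := by
      rw [IsLocalization.AtPrime.isUnit_to_map_iff V P0]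
      exact fun h => hP ((hmem _).1 h)
    have hlc2 : (P.map (algebraMap κ[X] V)).leadingCoeff = algebraMap κ[X] V P.leadingCoeff :=
      leadingCoeff_map_of_leadingCoeff_ne_zero _ hlc.ne_zero
    obtain ⟨w, hw⟩ := hlc.exists_left_inv
    refine ⟨C w * P.map (algebraMap κ[X] V), monic_C_mul_of_mul_leadingCoeff_eq_one ?_, ?_⟩
    · rw [hlc2, hw]
    · rw [eval₂_mul, eval₂_map, ← IsScalarTower.algebraMap_eq κ[X] V E, hPx, mul_zero]
  have := wring_core (κ := κ) (K := K) (E := E) (algebraMap κ[X] V X) hu0 h1 T hT hTi'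
  rwa [← IsScalarTower.algebraMap_apply κ[X] V E] at this

theorem isFractionRing_polynomial {u : E} (hu : Transcendental κ u) [Algebra κ[X] κ⟮u⟯]
    (h : ∀ p : κ[X], ((algebraMap κ[X] κ⟮u⟯ p : κ⟮u⟯) : E) = aeval u p) :
    IsFractionRing κ[X] κ⟮u⟯ := by
  have hF : FaithfulSMul κ[X] κ⟮u⟯ := by
    rw [faithfulSMul_iff_algebraMap_injective, injective_iff_map_eq_zero]
    intro p hp
    have h2 := h p
    rw [hp] at h2
    exact transcendental_iff.1 hu p h2.symm
  refine IsFractionRing.of_field _ _ fun z => ?_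
  obtain ⟨r, s, hrs⟩ := (mem_adjoin_simple_iff κ (z : E)).1 z.2
  refine ⟨r, s, Subtype.ext ?_⟩
  rw [hrs, ← h, ← h]
  rfl

theorem exists_isW (hE : IsFF κ E) {u : E} (hu : Transcendental κ u) (T : Set E)
    (hT : T.Finite) (hTi : ∀ x ∈ T, IntAt κ u x) :
    ∃ W : Subalgebra κ E, IsW κ u W ∧ ∀ x ∈ T, x ∈ W := by
  have hfd := hE.finite hu
  let a1 : Algebra κ[X] κ⟮u⟯ :=
    (aeval (AdjoinSimple.gen κ u) : κ[X] →ₐ[κ] κ⟮u⟯).toRingHom.toAlgebra
  let a2 : Algebra κ[X] E := (aeval u : κ[X] →ₐ[κ] E).toRingHom.toAlgebra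
  have h1 : ∀ p : κ[X], ((algebraMap κ[X] κ⟮u⟯ p : κ⟮u⟯) : E) = aeval u p := by
    intro p
    exact (aeval_algHom_apply κ⟮u⟯.val (AdjoinSimple.gen κ u) p).symm
  have t1 : IsScalarTower κ[X] κ⟮u⟯ E := IsScalarTower.of_algebraMap_eq fun p => (h1 p).symm
  have t2 : IsScalarTower κ κ[X] E :=
    IsScalarTower.of_algebraMap_eq fun c => (aeval_C (x := u) c).symm
  have hfr : IsFractionRing κ[X] κ⟮u⟯ := isFractionRing_polynomial hu h1
  obtain ⟨W, huW, h2, h3, h4, h5⟩ := wring_inst (K := κ⟮u⟯) (aeval_X u) T hT hTi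
  exact ⟨W, ⟨huW, h2, h3.trans (dg_of_transcendental hu).symm, h4⟩, h5⟩

theorem finite_not_intAt (hE : IsFF κ E) {u : E} (hu : Transcendental κ u) (x : E) :
    {β : κ | x = algebraMap κ E β ∨ ¬ IntAt κ u (x - algebraMap κ E β)⁻¹}.Finite := by
  classical
  have hfd := hE.finite hu
  -- a nonzero relation with coefficients in `κ[u]`
  obtain ⟨P, hP0, hP⟩ : ∃ P : κ[X][X], P ≠ 0 ∧
      eval₂ ((aeval u : κ[X] →ₐ[κ] E) : κ[X] →+* E) x P = 0 := by
    let a1 : Algebra κ[X] κ⟮u⟯ :=
      (aeval (AdjoinSimple.gen κ u) : κ[X] →ₐ[κ] κ⟮u⟯).toRingHom.toAlgebra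
    let a2 : Algebra κ[X] E := (aeval u : κ[X] →ₐ[κ] E).toRingHom.toAlgebra
    have h1 : ∀ p : κ[X], ((algebraMap κ[X] κ⟮u⟯ p : κ⟮u⟯) : E) = aeval u p := by
      intro p
      exact (aeval_algHom_apply κ⟮u⟯.val (AdjoinSimple.gen κ u) p).symm
    have t1 : IsScalarTower κ[X] κ⟮u⟯ E := IsScalarTower.of_algebraMap_eq fun p => (h1 p).symm
    have hfr : IsFractionRing κ[X] κ⟮u⟯ := isFractionRing_polynomial hu h1
    obtain ⟨P, hP0, hP⟩ := (IsFractionRing.isAlgebraic_iff κ[X] κ⟮u⟯ E).2
      (IsAlgebraic.of_finite κ⟮u⟯ x)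
    exact ⟨P, hP0, hP⟩
  have hu0 : u ≠ 0 := by
    rintro rfl
    exact hu (isAlgebraic_zero)
  -- primitive at `0`
  obtain ⟨Q, hQ0, hQ⟩ : ∃ Q : κ[X][X], Q.map (evalRingHom (0 : κ)) ≠ 0 ∧
      eval₂ ((aeval u : κ[X] →ₐ[κ] E) : κ[X] →+* E) x Q = 0 := by
    have hnu : ¬ IsUnit (C X : κ[X][X]) := by
      rw [isUnit_C]
      exact not_isUnit_X
    obtain ⟨Q, hQ1, hQ2⟩ :=
      (FiniteMultiplicity.of_not_isUnit hnu hP0).exists_eq_pow_mul_and_not_dvd
    refine ⟨Q, fun h0 => hQ2 ?_, ?_⟩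
    · rw [C_dvd_iff_dvd_coeff]
      intro i
      rw [X_dvd_iff, coeff_zero_eq_eval_zero]
      have := congrArg (fun f => coeff f i) h0
      simpa [coeff_map] using this
    · rw [hQ1, eval₂_mul, eval₂_pow, eval₂_C] at hP
      refine (mul_eq_zero.1 hP).resolve_left (pow_ne_zero _ ?_)
      rw [RingHom.coe_coe, aeval_X]
      exact hu0
  have hfin1 : {β : κ | x = algebraMap κ E β}.Finite := by
    refine Set.Subsingleton.finite ?_
    intro a ha b hb
    exact (algebraMap κ E).injective (ha.symm.trans hb)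
  have hfin2 : {β : κ | (Q.map (evalRingHom (0 : κ))).eval β = 0}.Finite := by
    refine (Q.map (evalRingHom (0 : κ))).roots.toFinset.finite_toSet.subset ?_
    intro β hβ
    rw [Finset.mem_coe, Multiset.mem_toFinset, mem_roots hQ0]
    exact hβ
  refine (hfin1.union hfin2).subset ?_
  rintro β (hβ | hβ)
  · exact Or.inl hβ
  · by_contra hcon
    rw [Set.mem_union, not_or, Set.mem_ofPred_eq, Set.mem_ofPred_eq] at hcon
    obtain ⟨hc1, hc2⟩ := hcon
    apply hβ
    have hc3 : x - algebraMap κ E β ≠ 0 := sub_ne_zero.2 hc1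
    have hcoef : ((taylor (C β) Q).coeff 0).eval 0 ≠ 0 := by
      rw [taylor_coeff_zero]
      have : (Q.eval (C β)).eval 0 = (Q.map (evalRingHom (0 : κ))).eval β := by
        rw [eval_map]
        have h := hom_eval₂ Q (RingHom.id _) (evalRingHom (0 : κ)) (C β)
        rw [RingHom.comp_id] at h
        simpa using h
      rw [this]
      exact hc2
    refine ⟨(taylor (C β) Q).reverse, ?_, ?_⟩
    · rw [reverse_leadingCoeff, trailingCoeff]
      have : (taylor (C β) Q).natTrailingDegree = 0 := by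
        rw [natTrailingDegree_eq_zero]
        right
        intro h
        rw [h] at hcoef
        simp at hcoef
      rw [this]
      exact hcoef
    · let inv : Invertible (x - algebraMap κ E β) := invertibleOfNonzero hc3
      rw [← invOf_eq_inv (x - algebraMap κ E β), eval₂_reverse_eq_zero_iff, taylor_apply,
        eval₂_comp]
      rw [← hQ]
      congr 1
      simp

end A2inst

end Pool.Agent.LFZ
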