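import Pool.Agent.LFZ.Deg1
import Pool.Agent.LFZ.Wring

/-!
# MP_08a057_al, block A3: subadditivity of the degree and the root bound
-/

set_option autoImplicit false

namespace Pool.Agent.LFZ

open Polynomial IntermediateField

section A3

variable {κ E : Type} [Field κ] [Field E] [Algebra κ E]

section Rank

variable {W : Type} [CommRing W] [Algebra κ W]

/-- rank of the quotient by a principal ideal -/
noncomputable def qr (κ : Type) {W : Type} [Field κ] [CommRing W] [Algebra κ W] (a : W) :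
    Cardinal := Module.rank κ (W ⧸ Ideal.span {a})

theorem qr_one : qr κ (1 : W) = 0 := by
  have : Subsingleton (W ⧸ Ideal.span {(1 : W)}) := by
    rw [Ideal.Quotient.subsingleton_iff, Ideal.span_singleton_one]
  exact rank_subsingleton' κ _

theorem qr_le_of_dvd {a b : W} (h : a ∣ b) : qr κ a ≤ qr κ b := by
  have hle : Ideal.span {b} ≤ Ideal.span {a} := Ideal.span_singleton_le_span_singleton.2 h
  exact LinearMap.rank_le_of_surjective (Ideal.Quotient.factorₐ κ hle).toLinearMap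
    (Ideal.Quotient.factor_surjective hle)

theorem qr_mul_le (a b : W) : qr κ (a * b) ≤ qr κ a + qr κ b := by
  have h1 : Ideal.span {a * b} ≤ Ideal.span {a} :=
    Ideal.span_singleton_le_span_singleton.2 (dvd_mul_right a b)
  let φ : (W ⧸ Ideal.span {a * b}) →ₗ[κ] (W ⧸ Ideal.span {a}) :=
    (Ideal.Quotient.factorₐ κ h1).toLinearMap
  -- multiplication by `a`
  let μ : W →ₗ[κ] (W ⧸ Ideal.span {a * b}) :=
    (Ideal.Quotient.mkₐ κ (Ideal.span {a * b})).toLinearMap ∘ₗ LinearMap.mulLeft κ a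
  have hμ : (Ideal.span {b}).restrictScalars κ ≤ LinearMap.ker μ := by
    intro x hx
    obtain ⟨c, rfl⟩ := Ideal.mem_span_singleton'.1 hx
    rw [LinearMap.mem_ker]
    change Ideal.Quotient.mk _ (a * (c * b)) = 0
    rw [Ideal.Quotient.eq_zero_iff_mem, Ideal.mem_span_singleton]
    exact ⟨c, by ring⟩
  let ψ : (W ⧸ (Ideal.span {b}).restrictScalars κ) →ₗ[κ] (W ⧸ Ideal.span {a * b}) :=
    Submodule.liftQ _ μ hμ
  have hker : LinearMap.ker φ ≤ LinearMap.range ψ := by
    intro x hx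
    obtain ⟨x, rfl⟩ := Ideal.Quotient.mk_surjective x
    have hx' : Ideal.Quotient.mk (Ideal.span {a}) x = 0 := hx
    rw [Ideal.Quotient.eq_zero_iff_mem, Ideal.mem_span_singleton] at hx'
    obtain ⟨c, rfl⟩ := hx'
    exact ⟨Submodule.Quotient.mk c, rfl⟩
  have h2 : Module.rank κ (LinearMap.range φ) + Module.rank κ (LinearMap.ker φ) =
      Module.rank κ (W ⧸ Ideal.span {a * b}) := LinearMap.rank_range_add_rank_ker φ
  have h3 : Module.rank κ (LinearMap.range φ) ≤ qr κ a := Submodule.rank_le _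
  have h4 : Module.rank κ (LinearMap.ker φ) ≤ qr κ b :=
    (Submodule.rank_mono hker).trans (LinearMap.rank_le_domain ψ)
  calc qr κ (a * b) = _ := h2.symm
    _ ≤ _ := add_le_add h3 h4

theorem qr_prod_le {ι : Type} (s : Finset ι) (y : ι → W) :
    qr κ (∏ i ∈ s, y i) ≤ ∑ i ∈ s, qr κ (y i) := by
  classical
  induction s using Finset.induction_on with
  | empty => simp [qr_one]
  | insert i s hi ih =>
    rw [Finset.prod_insert hi, Finset.sum_insert hi]
    exact (qr_mul_le _ _).trans (add_le_add le_rfl ih)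

end Rank

/-- (G4') -/
theorem IsW.dg_le (hE : IsFF κ E) {u : E} {W : Subalgebra κ E} (hW : IsW κ u W)
    {ι : Type} (s : Finset ι) (y : ι → E) (hy : ∀ i ∈ s, y i ∈ W ∧ y i ≠ 0)
    (hprod : ∃ w ∈ W, ∏ i ∈ s, y i = u * w) : dg κ E u ≤ ∑ i ∈ s, dg κ E (y i) := by
  classical
  obtain ⟨hu, hfin, hrank, -⟩ := hW
  obtain ⟨w, hw, hwu⟩ := hprod
  -- lift the `y i` to `W`
  let y' : ι → W := fun i => if h : i ∈ s then ⟨y i, (hy i h).1⟩ else 1
  have hy' : ∀ i ∈ s, ((y' i : W) : E) = y i := by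
    intro i hi
    simp only [y', dif_pos hi]
  have hdvd : (⟨u, hu⟩ : W) ∣ ∏ i ∈ s, y' i := by
    refine ⟨⟨w, hw⟩, Subtype.ext ?_⟩
    push_cast
    rw [Finset.prod_congr rfl hy', hwu]
  have h1 : (dg κ E u : Cardinal) ≤ ∑ i ∈ s, qr κ (y' i) := by
    have e1 : (dg κ E u : Cardinal) = qr κ (⟨u, hu⟩ : W) := by
      rw [← hrank]
      exact Module.finrank_eq_rank κ _
    rw [e1]
    exact (qr_le_of_dvd hdvd).trans (qr_prod_le s y')
  have h2 : ∀ i ∈ s, qr κ (y' i) ≤ (dg κ E (y i) : Cardinal) := by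
    intro i hi
    have hne : y' i ≠ 0 := by
      intro h0
      apply (hy i hi).2
      rw [← hy' i hi, h0]
      rfl
    obtain ⟨hf, hle⟩ := dg_quot hE W (y' i) hne
    rw [hy' i hi] at hle
    have e1 : qr κ (y' i) = (Module.finrank κ (W ⧸ Ideal.span {y' i}) : Cardinal) :=
      (Module.finrank_eq_rank κ _).symm
    rw [e1]
    exact_mod_cast hle
  have h3 := h1.trans (Finset.sum_le_sum h2)
  exact_mod_cast h3

theorem dg_algebraMap (c : κ) : dg κ E (algebraMap κ E c) = 0 :=
  dg_eq_zero_of_isAlgebraic (isAlgebraic_algebraMap c)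

theorem dg_add_algebraMap (x : E) (β : κ) : dg κ E (x + algebraMap κ E β) = dg κ E x := by
  have := dg_sub_algebraMap x (-β)
  rwa [map_neg, sub_neg_eq_add] at this

theorem dg_algebraMap_mul (x : E) {β : κ} (hβ : β ≠ 0) :
    dg κ E (algebraMap κ E β * x) = dg κ E x := by
  have hβ' : algebraMap κ E β ≠ 0 := by
    rwa [Ne, map_eq_zero]
  refine dg_congr_of_mem (mul_mem (IntermediateField.algebraMap_mem _ β)
    (mem_adjoin_simple_self κ x)) ?_ ?_
  · have := mul_mem (IntermediateField.algebraMap_mem κ⟮algebraMap κ E β * x⟯ β⁻¹)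
      (mem_adjoin_simple_self κ (algebraMap κ E β * x))
    rwa [map_inv₀, inv_mul_cancel_left₀ hβ'] at this
  · constructor
    · intro h
      have := (isAlgebraic_algebraMap (A := E) β⁻¹).mul h
      rwa [map_inv₀, inv_mul_cancel_left₀ hβ'] at this
    · exact fun h => (isAlgebraic_algebraMap (A := E) β).mul h

/-- a constant `β` good for finitely many elements -/
theorem exists_beta [Infinite κ] (hE : IsFF κ E) {u : E} (hu : Transcendental κ u)
    (T : Finset E) : ∃ β : κ, β ≠ 0 ∧ ∀ x ∈ T, x ≠ algebraMap κ E β ∧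
      IntAt κ u (x - algebraMap κ E β)⁻¹ := by
  have hfin : ({0} ∪ ⋃ x ∈ T, {β : κ | x = algebraMap κ E β ∨
      ¬ IntAt κ u (x - algebraMap κ E β)⁻¹}).Finite :=
    (Set.finite_singleton _).union (T.finite_toSet.biUnion (fun x _ => finite_not_intAt hE hu x))
  obtain ⟨β, hβ⟩ := hfin.infinite_compl.nonempty
  refine ⟨β, fun h0 => hβ (Or.inl h0), fun x hx => ?_⟩
  by_contra hcon
  apply hβ
  refine Or.inr ?_
  rw [Set.mem_iUnion₂]
  refine ⟨x, hx, ?_⟩
  rw [Set.mem_setOf_eq]
  tauto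

/-- the Moebius transform has the same degree -/
theorem dg_moeb (x : E) (β : κ) : dg κ E (x - algebraMap κ E β)⁻¹ = dg κ E x := by
  rw [dg_inv, dg_sub_algebraMap]

/-- common part of the two subadditivity statements -/
theorem dg_two [Infinite κ] (hE : IsFF κ E) (x y w : E)
    (hw : ∀ β : κ, x ≠ algebraMap κ E β → y ≠ algebraMap κ E β → ∀ W : Subalgebra κ E,
      (x - algebraMap κ E β)⁻¹ ∈ W → (y - algebraMap κ E β)⁻¹ ∈ W →
      (x - algebraMap κ E β)⁻¹ * (y - algebraMap κ E β)⁻¹ * w ∈ W) :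
    dg κ E w ≤ dg κ E x + dg κ E y := by
  classical
  by_cases hwa : IsAlgebraic κ w
  · rw [dg_eq_zero_of_isAlgebraic hwa]
    exact Nat.zero_le _
  have hw0 : w ≠ 0 := by
    rintro rfl
    exact hwa isAlgebraic_zero
  have hu : Transcendental κ w⁻¹ := fun h => hwa (IsAlgebraic.inv_iff.1 h)
  obtain ⟨β, -, hβ⟩ := exists_beta hE hu {x, y}
  obtain ⟨hx, hxi⟩ := hβ x (by simp)
  obtain ⟨hy, hyi⟩ := hβ y (by simp)
  obtain ⟨W, hW, hT⟩ := exists_isW hE hu
    {(x - algebraMap κ E β)⁻¹, (y - algebraMap κ E β)⁻¹} (Set.toFinite _) (by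
      rintro z (rfl | rfl)
      · exact hxi
      · exact hyi)
  have hxW := hT _ (Set.mem_insert _ _)
  have hyW := hT _ (Set.mem_insert_of_mem _ rfl)
  have key := hW.dg_le hE (Finset.univ : Finset Bool)
    (fun b => if b then (x - algebraMap κ E β)⁻¹ else (y - algebraMap κ E β)⁻¹) (by
      intro b _
      cases b
      · simp only [Bool.false_eq_true, if_false]
        exact ⟨hyW, inv_ne_zero (sub_ne_zero.2 hy)⟩
      · simp only [if_true]
        exact ⟨hxW, inv_ne_zero (sub_ne_zero.2 hx)⟩) (by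
      refine ⟨_, hw β hx hy W hxW hyW, ?_⟩
      rw [Fintype.prod_bool]
      simp only [Bool.false_eq_true, if_false, if_true]
      rw [mul_comm w⁻¹, mul_assoc _ w, mul_inv_cancel₀ hw0, mul_one])
  rw [Fintype.sum_bool] at key
  simp only [Bool.false_eq_true, if_false, if_true] at key
  rwa [dg_inv, dg_moeb, dg_moeb] at key

theorem dg_add_le [Infinite κ] (hE : IsFF κ E) (x y : E) :
    dg κ E (x + y) ≤ dg κ E x + dg κ E y := by
  refine dg_two hE x y (x + y) (fun β hx hy W hxW hyW => ?_)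
  have hx' := sub_ne_zero.2 hx
  have hy' := sub_ne_zero.2 hy
  have e1 : (x - algebraMap κ E β)⁻¹ * (y - algebraMap κ E β)⁻¹ * (x + y) =
      (x - algebraMap κ E β)⁻¹ + (y - algebraMap κ E β)⁻¹ +
        algebraMap κ E (2 * β) * ((x - algebraMap κ E β)⁻¹ * (y - algebraMap κ E β)⁻¹) := by
    rw [map_mul, map_ofNat]
    field_simp
    ring
  rw [e1]
  exact W.add_mem (W.add_mem hxW hyW) (W.mul_mem (W.algebraMap_mem _) (W.mul_mem hxW hyW))

theorem dg_mul_le [Infinite κ] (hE : IsFF κ E) (x y : E) :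
    dg κ E (x * y) ≤ dg κ E x + dg κ E y := by
  refine dg_two hE x y (x * y) (fun β hx hy W hxW hyW => ?_)
  have hx' := sub_ne_zero.2 hx
  have hy' := sub_ne_zero.2 hy
  have e1 : (x - algebraMap κ E β)⁻¹ * (y - algebraMap κ E β)⁻¹ * (x * y) =
      (1 + algebraMap κ E β * (x - algebraMap κ E β)⁻¹) *
      (1 + algebraMap κ E β * (y - algebraMap κ E β)⁻¹) := by
    field_simp
    ring
  rw [e1]
  exact W.mul_mem (W.add_mem W.one_mem (W.mul_mem (W.algebraMap_mem _) hxW))
    (W.add_mem W.one_mem (W.mul_mem (W.algebraMap_mem _) hyW))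

/-- root bound: independent of the exponents. -/
theorem dg_root_le [Infinite κ] (hE : IsFF κ E) (X : E) (s : Finset ℕ) (e : ℕ → E)
    (he : ∃ m ∈ s, e m ≠ 0) (h : ∑ m ∈ s, e m * X ^ m = 0) :
    dg κ E X ≤ ∑ m ∈ s, dg κ E (e m) := by
  classical
  by_cases hXa : IsAlgebraic κ X
  · rw [dg_eq_zero_of_isAlgebraic hXa]
    exact Nat.zero_le _
  have hX0 : X ≠ 0 := by
    rintro rfl
    exact hXa isAlgebraic_zero
  have hu : Transcendental κ X⁻¹ := fun h => hXa (IsAlgebraic.inv_iff.1 h)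
  -- the nonzero coefficients
  set s' := s.filter (fun m => e m ≠ 0) with hs'
  have hs'ne : s'.Nonempty := by
    obtain ⟨m, hm, hm0⟩ := he
    exact ⟨m, Finset.mem_filter.2 ⟨hm, hm0⟩⟩
  have hsum' : ∑ m ∈ s', e m * X ^ m = 0 := by
    rw [← h, hs', Finset.sum_filter]
    refine Finset.sum_congr rfl (fun m _ => ?_)
    by_cases hm : e m = 0
    · simp [hm]
    · simp [hm]
  set M := s'.max' hs'ne with hM
  have hMs : M ∈ s' := Finset.max'_mem _ _
  obtain ⟨β, hβ0, hβ⟩ := exists_beta hE hu (s'.image e)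
  have hβe : ∀ m ∈ s', e m ≠ algebraMap κ E β ∧
      IntAt κ X⁻¹ (e m - algebraMap κ E β)⁻¹ :=
    fun m hm => hβ _ (Finset.mem_image_of_mem e hm)
  obtain ⟨W, hW, hT⟩ := exists_isW hE hu
    ((fun m => (e m - algebraMap κ E β)⁻¹) '' (s' : Set ℕ)) (Set.toFinite _) (by
      rintro z ⟨m, hm, rfl⟩
      exact (hβe m hm).2)
  have hTm : ∀ m ∈ s', (e m - algebraMap κ E β)⁻¹ ∈ W :=
    fun m hm => hT _ ⟨m, hm, rfl⟩
  have huW : X⁻¹ ∈ W := hW.1
  set e' : ℕ → E := fun m => (e m - algebraMap κ E β)⁻¹ with he'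
  have hme : ∀ m ∈ s', e m * e' m = 1 + algebraMap κ E β * e' m := by
    intro m hm
    have := sub_ne_zero.2 (hβe m hm).1
    simp only [he']
    field_simp
    ring
  have hme0 : ∀ m ∈ s', e m * e' m ≠ 0 := by
    intro m hm
    exact mul_ne_zero (Finset.mem_filter.1 hm).2 (inv_ne_zero (sub_ne_zero.2 (hβe m hm).1))
  have hmeW : ∀ m ∈ s', e m * e' m ∈ W := by
    intro m hm
    rw [hme m hm]
    exact W.add_mem W.one_mem (W.mul_mem (W.algebraMap_mem _) (hTm m hm))
  set y : ℕ → E := fun m => if m = M then e m * e' m else e' m with hy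
  have key := hW.dg_le hE s' y (by
      intro m hm
      by_cases hmM : m = M
      · simp only [hy, if_pos hmM]
        exact ⟨hmeW m hm, hme0 m hm⟩
      · simp only [hy, if_neg hmM]
        exact ⟨hTm m hm, inv_ne_zero (sub_ne_zero.2 (hβe m hm).1)⟩) (by
      refine ⟨- ∑ m ∈ s'.erase M, X⁻¹ ^ (M - m - 1) * ((e m * e' m) * ∏ l ∈ s'.erase m, e' l),
        ?_, ?_⟩
      · refine W.neg_mem (W.sum_mem (fun m hm => W.mul_mem (W.pow_mem huW _)
          (W.mul_mem (hmeW m (Finset.mem_of_mem_erase hm)) (W.prod_mem (fun l hl =>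
            hTm l (Finset.mem_of_mem_erase hl))))))
      · have e1 : ∏ m ∈ s', y m = (e M * e' M) * ∏ l ∈ s'.erase M, e' l := by
          rw [← Finset.mul_prod_erase s' y hMs]
          congr 1
          · simp [hy]
          · refine Finset.prod_congr rfl (fun l hl => ?_)
            simp only [hy, if_neg (Finset.ne_of_mem_erase hl)]
        have e2 : ∀ m ∈ s', X⁻¹ ^ M * (∏ l ∈ s', e' l) * (e m * X ^ m) =
            X⁻¹ ^ (M - m) * ((e m * e' m) * ∏ l ∈ s'.erase m, e' l) := by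
          intro m hm
          have hmM : m ≤ M := Finset.le_max' _ _ hm
          rw [← Finset.mul_prod_erase s' e' hm]
          have e3 : X⁻¹ ^ M = X⁻¹ ^ (M - m) * X⁻¹ ^ m := by
            rw [← pow_add, Nat.sub_add_cancel hmM]
          rw [e3, inv_pow X m]
          have hXm : X ^ m ≠ 0 := pow_ne_zero _ hX0
          field_simp
        have e4 : ∑ m ∈ s', X⁻¹ ^ (M - m) * ((e m * e' m) * ∏ l ∈ s'.erase m, e' l) = 0 := by
          rw [← Finset.sum_congr rfl e2, ← Finset.mul_sum, hsum', mul_zero]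
        rw [← Finset.add_sum_erase _ _ hMs, Nat.sub_self, pow_zero, one_mul] at e4
        rw [e1, eq_neg_of_add_eq_zero_left e4, mul_neg, Finset.mul_sum]
        congr 1
        refine Finset.sum_congr rfl (fun m hm => ?_)
        have hmM : m < M := lt_of_le_of_ne (Finset.le_max' _ _ (Finset.mem_of_mem_erase hm))
          (Finset.ne_of_mem_erase hm)
        have e5 : M - m = (M - m - 1) + 1 := by omega
        conv_lhs => rw [e5, pow_succ]
        ring)
  rw [dg_inv] at key
  refine key.trans ?_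
  have e6 : ∀ m ∈ s', dg κ E (y m) = dg κ E (e m) := by
    intro m hm
    by_cases hmM : m = M
    · simp only [hy, if_pos hmM]
      rw [hme m hm, add_comm, ← map_one (algebraMap κ E), dg_add_algebraMap,
        dg_algebraMap_mul _ hβ0]
      exact dg_moeb _ _
    · simp only [hy, if_neg hmM]
      exact dg_moeb _ _
  rw [Finset.sum_congr rfl e6]
  exact Finset.sum_le_sum_of_subset (Finset.filter_subset _ _)

theorem dg_sum_le [Infinite κ] (hE : IsFF κ E) {ι : Type} (s : Finset ι) (x : ι → E) :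
    dg κ E (∑ i ∈ s, x i) ≤ ∑ i ∈ s, dg κ E (x i) := by
  classical
  induction s using Finset.induction_on with
  | empty => simp [dg_eq_zero_of_isAlgebraic (κ := κ) (E := E) (x := 0) isAlgebraic_zero]
  | insert i s hi ih =>
    rw [Finset.sum_insert hi, Finset.sum_insert hi]
    exact (dg_add_le hE _ _).trans (add_le_add le_rfl ih)

theorem dg_prod_le [Infinite κ] (hE : IsFF κ E) {ι : Type} (s : Finset ι) (x : ι → E) :
    dg κ E (∏ i ∈ s, x i) ≤ ∑ i ∈ s, dg κ E (x i) := by
  classical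
  induction s using Finset.induction_on with
  | empty => simp [dg_eq_zero_of_isAlgebraic (κ := κ) (E := E) (x := 1) isAlgebraic_one]
  | insert i s hi ih =>
    rw [Finset.prod_insert hi, Finset.sum_insert hi]
    exact (dg_mul_le hE _ _).trans (add_le_add le_rfl ih)

theorem dg_aeval_le {k₀ : Type} [Field k₀] [Algebra k₀ κ] [Algebra k₀ E] [IsScalarTower k₀ κ E]
    [Infinite κ] (hE : IsFF κ E) {σ : Type} [Fintype σ] (P : MvPolynomial σ k₀) (x : σ → E) :
    dg κ E (MvPolynomial.aeval x P) ≤ mvC P * ∑ i, dg κ E (x i) := by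
  classical
  rw [MvPolynomial.aeval_def, MvPolynomial.eval₂_eq]
  refine (dg_sum_le hE _ _).trans ?_
  rw [mvC, Finset.sum_mul]
  refine Finset.sum_le_sum (fun m _ => ?_)
  refine (dg_mul_le hE _ _).trans ?_
  rw [IsScalarTower.algebraMap_apply k₀ κ E, dg_algebraMap, zero_add]
  refine (dg_prod_le hE _ _).trans ?_
  have e1 : m.degree = ∑ v ∈ m.support, m v := rfl
  rw [e1, Finset.sum_mul]
  refine Finset.sum_le_sum (fun v _ => ?_)
  have hpow : dg κ E (x v ^ m v) ≤ m v * dg κ E (x v) := by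
    by_cases hm : m v = 0
    · rw [hm, pow_zero]
      simp [dg_eq_zero_of_isAlgebraic (κ := κ) (E := E) (x := 1) isAlgebraic_one]
    · rw [dg_pow hE _ hm]
  exact hpow.trans (Nat.mul_le_mul_left _ (Finset.single_le_sum
    (f := fun i => dg κ E (x i)) (fun i _ => Nat.zero_le _) (Finset.mem_univ v)))

end A3

end Pool.Agent.LFZ
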