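import Pool.Agent.LFZ.Level1

set_option autoImplicit false

namespace Pool.Agent.LFZ

open Polynomial IntermediateField

section Cg

variable {E : Type} [Field E]

/-- `y ≡ y'` modulo `gW`, both in `W`. -/
def Cg (W : Subring E) (g y y' : E) : Prop := y ∈ W ∧ y' ∈ W ∧ ∃ w ∈ W, y - y' = g * w

theorem Cg.refl (W : Subring E) (g : E) {y : E} (hy : y ∈ W) : Cg W g y y :=
  ⟨hy, hy, 0, W.zero_mem, by ring⟩

theorem Cg.add {W : Subring E} {g a a' b b' : E} (h1 : Cg W g a a') (h2 : Cg W g b b') :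
    Cg W g (a + b) (a' + b') := by
  obtain ⟨ha, ha', w, hw, h⟩ := h1
  obtain ⟨hb, hb', v, hv, h'⟩ := h2
  exact ⟨W.add_mem ha hb, W.add_mem ha' hb', w + v, W.add_mem hw hv, by
    rw [mul_add, ← h, ← h']; ring⟩

theorem Cg.mul {W : Subring E} {g a a' b b' : E} (h1 : Cg W g a a') (h2 : Cg W g b b') :
    Cg W g (a * b) (a' * b') := by
  obtain ⟨ha, ha', w, hw, h⟩ := h1
  obtain ⟨hb, hb', v, hv, h'⟩ := h2
  refine ⟨W.mul_mem ha hb, W.mul_mem ha' hb', w * b + a' * v,
    W.add_mem (W.mul_mem hw hb) (W.mul_mem ha' hv), ?_⟩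
  have e : a * b - a' * b' = (a - a') * b + a' * (b - b') := by ring
  rw [e, h, h']
  ring

theorem Cg.pow {W : Subring E} {g a a' : E} (h1 : Cg W g a a') (m : ℕ) :
    Cg W g (a ^ m) (a' ^ m) := by
  induction m with
  | zero => simpa using Cg.refl W g W.one_mem
  | succ m ih => rw [pow_succ, pow_succ]; exact ih.mul h1

theorem Cg.sum {W : Subring E} {g : E} {ι : Type} (s : Finset ι) (a a' : ι → E)
    (h : ∀ i ∈ s, Cg W g (a i) (a' i)) : Cg W g (∑ i ∈ s, a i) (∑ i ∈ s, a' i) := by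
  classical
  induction s using Finset.induction_on with
  | empty => simpa using Cg.refl W g W.zero_mem
  | insert i s hi ih =>
    rw [Finset.sum_insert hi, Finset.sum_insert hi]
    exact (h i (Finset.mem_insert_self i s)).add
      (ih (fun l hl => h l (Finset.mem_insert_of_mem hl)))

theorem Cg.prod {W : Subring E} {g : E} {ι : Type} (s : Finset ι) (a a' : ι → E)
    (h : ∀ i ∈ s, Cg W g (a i) (a' i)) : Cg W g (∏ i ∈ s, a i) (∏ i ∈ s, a' i) := by
  classical
  induction s using Finset.induction_on with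
  | empty => simpa using Cg.refl W g W.one_mem
  | insert i s hi ih =>
    rw [Finset.prod_insert hi, Finset.prod_insert hi]
    exact (h i (Finset.mem_insert_self i s)).mul
      (ih (fun l hl => h l (Finset.mem_insert_of_mem hl)))

theorem algebraMap_zmod_mem {p : ℕ} [Algebra (ZMod p) E] (W : Subring E) (c : ZMod p) :
    algebraMap (ZMod p) E c ∈ W := by
  obtain ⟨z, rfl⟩ := ZMod.intCast_surjective c
  rw [map_intCast]
  exact intCast_mem W z

/-- homogenisation -/
theorem Cg.hom {p : ℕ} [Algebra (ZMod p) E] {W : Subring E} {g U U' : E} (hU : Cg W g U U')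
    {σ : Type} {x x' : σ → E} (hx : ∀ v, Cg W g (U * x v) (U' * x' v))
    (B : MvPolynomial σ (ZMod p)) (a : ℕ) (ha : B.totalDegree ≤ a) :
    Cg W g (U ^ a * MvPolynomial.aeval x B) (U' ^ a * MvPolynomial.aeval x' B) := by
  have key : ∀ (V : E) (y : σ → E), V ^ a * MvPolynomial.aeval y B =
      ∑ m ∈ B.support, algebraMap (ZMod p) E (B.coeff m) *
        (V ^ (a - m.degree) * ∏ v ∈ m.support, (V * y v) ^ (m v)) := by
    intro V y
    rw [MvPolynomial.aeval_def, MvPolynomial.eval₂_eq, Finset.mul_sum]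
    refine Finset.sum_congr rfl (fun m hm => ?_)
    have hma : m.degree ≤ a := le_trans (MvPolynomial.le_totalDegree hm) ha
    have e1 : ∏ v ∈ m.support, (V * y v) ^ (m v) =
        V ^ m.degree * ∏ v ∈ m.support, y v ^ (m v) := by
      simp only [mul_pow, Finset.prod_mul_distrib]
      rw [Finset.prod_pow_eq_pow_sum]
      rfl
    rw [e1]
    have e2 : V ^ a = V ^ (a - m.degree) * V ^ m.degree := by
      rw [← pow_add, Nat.sub_add_cancel hma]
    rw [e2]
    ring
  rw [key U x, key U' x']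
  refine Cg.sum _ _ _ (fun m _ => ?_)
  exact (Cg.refl W g (algebraMap_zmod_mem W _)).mul
    ((hU.pow _).mul (Cg.prod _ _ _ (fun v _ => (hx v).pow _)))

theorem hom_mem {p : ℕ} [Algebra (ZMod p) E] {W : Subring E} {U : E} (hU : U ∈ W)
    {σ : Type} {x : σ → E} (hx : ∀ v, U * x v ∈ W)
    (B : MvPolynomial σ (ZMod p)) (a : ℕ) (ha : B.totalDegree ≤ a) :
    U ^ a * MvPolynomial.aeval x B ∈ W :=
  (Cg.hom (Cg.refl W 0 hU) (fun v => Cg.refl W 0 (hx v)) B a ha).1

theorem aeval_frob {p : ℕ} [Fact p.Prime] [Algebra (ZMod p) E] {σ : Type} (x : σ → E)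
    (e : ℕ) (B : MvPolynomial σ (ZMod p)) :
    (MvPolynomial.aeval x B) ^ (p ^ e) = MvPolynomial.aeval (fun v => x v ^ (p ^ e)) B := by
  have : CharP E p := charP_of_injective_algebraMap (algebraMap (ZMod p) E).injective p
  have h : ((iterateFrobenius E p e).comp (MvPolynomial.aeval x : MvPolynomial σ (ZMod p) →ₐ[ZMod p] E).toRingHom)
      = (MvPolynomial.aeval (fun v => x v ^ (p ^ e)) :
        MvPolynomial σ (ZMod p) →ₐ[ZMod p] E).toRingHom := by
    apply MvPolynomial.ringHom_ext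
    · intro c
      have : ((iterateFrobenius E p e).comp (algebraMap (ZMod p) E)) = algebraMap (ZMod p) E :=
        Subsingleton.elim _ _
      have h2 := RingHom.congr_fun this c
      simpa using h2
    · intro v
      simp [iterateFrobenius_def]
  calc (MvPolynomial.aeval x B) ^ (p ^ e)
      = iterateFrobenius E p e (MvPolynomial.aeval x B) := (iterateFrobenius_def ..).symm
    _ = _ := RingHom.congr_fun h B

end Cg

section Step

variable {p n : ℕ} [Fact p.Prime] {E : Type} [Field E] [Algebra (ZMod p) E]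

theorem sub_pow_frob (x y : E) (e : ℕ) : (x - y) ^ (p ^ e) = x ^ (p ^ e) - y ^ (p ^ e) := by
  have : CharP E p := charP_of_injective_algebraMap (algebraMap (ZMod p) E).injective p
  exact sub_pow_char_pow x y e

/-- the point of level `K` -/
noncomputable def pt (j K Q : ℕ) (H : Fin n → E) (β : ℕ → E) : Fin n ⊕ Gam n j K → E :=
  Sum.elim H (fun v => (Option.elim v.2 (β v.1) (fun k => H k.1)) ^ (Q ^ (K - v.1.val)))

/-- the constants of level `K` -/
noncomputable def gm (j K Q : ℕ) (H : Fin n → E) (β : ℕ → E) : Gam n j K → E :=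
  fun v => (Option.elim v.2 (β v.1) (fun k => H k.1)) ^ (Q ^ (K - v.1.val))

theorem lev_eq (j K Q : ℕ) (H : Fin n → E) (β : ℕ → E) (B : Lev p n j K) :
    lev j K Q H β B = MvPolynomial.aeval (Sum.elim H (gm j K Q H β)) B := rfl

theorem gm_mem {W : Subring E} (j K Q : ℕ) (H : Fin n → E) (β : ℕ → E) (hβ : ∀ l, β l ∈ W)
    (hk : ∀ k : Fin n, j < k.val → H k ∈ W) (v : Gam n j K) : gm j K Q H β v ∈ W := by
  obtain ⟨l, o⟩ := v
  refine W.pow_mem ?_ _
  cases o with
  | none => exact hβ _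
  | some k => exact hk k.1 k.2

/-- `u_K` times a coordinate of level `K` lies in `W`. -/
theorem u_mul_mem {W : Subring E} (j K Q : ℕ) (H : Fin n → E) (β : ℕ → E) (b : E) (hb : b ∈ W)
    (hβ : ∀ l, β l ∈ W)
    (hH : ∀ i : Fin n, i.val ≤ j → H i ≠ b ∧ (H i - b)⁻¹ ∈ W)
    (hk : ∀ k : Fin n, j < k.val → H k ∈ W) :
    (∏ i : Fin n with i.val ≤ j, (H i - b)⁻¹) ∈ W ∧
    ∀ v : Fin n ⊕ Gam n j K,
      (∏ i : Fin n with i.val ≤ j, (H i - b)⁻¹) * Sum.elim H (gm j K Q H β) v ∈ W := by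
  classical
  have hu : (∏ i : Fin n with i.val ≤ j, (H i - b)⁻¹) ∈ W :=
    W.prod_mem (fun i hi => (hH i (Finset.mem_filter.1 hi).2).2)
  refine ⟨hu, ?_⟩
  rintro (i | v)
  · by_cases hi : i.val ≤ j
    · have him : i ∈ Finset.univ.filter (fun i : Fin n => i.val ≤ j) := by simp [hi]
      rw [← Finset.prod_erase_mul _ _ him, mul_assoc]
      refine W.mul_mem (W.prod_mem (fun l hl => (hH l (Finset.mem_filter.1
        (Finset.mem_of_mem_erase hl)).2).2)) ?_
      have h1 : (H i - b)⁻¹ * Sum.elim H (gm j K Q H β) (Sum.inl i) = 1 + b * (H i - b)⁻¹ := by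
        have := sub_ne_zero.2 (hH i hi).1
        simp only [Sum.elim_inl]
        field_simp
        ring
      rw [h1]
      exact W.add_mem W.one_mem (W.mul_mem hb (hH i hi).2)
    · exact W.mul_mem hu (hk i (not_le.1 hi))
  · exact W.mul_mem hu (gm_mem j K Q H β hβ hk v)

theorem step_up {W : Subring E} {g : E} (hg : g ∈ W)
    (hunit : ∀ w ∈ W, 1 + g * w ≠ 0 ∧ (1 + g * w)⁻¹ ∈ W) (j : Fin n) (K e : ℕ)
    (F H : Fin n → E) (β : ℕ → E)
    (hlt : ∀ i : Fin n, i.val < j.val → F i = H i ^ (p ^ e))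
    (heq : F j = H j ^ (p ^ e) + g)
    (hH : ∀ i : Fin n, i.val ≤ j.val → H i ≠ β K ∧ (H i - β K)⁻¹ ∈ W)
    (hβ : ∀ l, β l ∈ W) (hk : ∀ k : Fin n, j.val < k.val → H k ∈ W) :
    (∀ i : Fin n, i.val ≤ j.val → F i - β K ^ (p ^ e) ≠ 0) ∧
    ∀ (B : Lev p n j.val K) (a : ℕ), B.totalDegree ≤ a →
      Cg W g (((∏ i : Fin n with i.val ≤ j.val, (H i - β K)⁻¹) ^ a *
          lev j.val K (p ^ e) H β B) ^ (p ^ e))
        ((∏ i : Fin n with i.val ≤ j.val, (F i - β K ^ (p ^ e)))⁻¹ ^ a *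
          MvPolynomial.aeval (Sum.elim
            (fun i : Fin n => if hi : i.val ≤ j.val then F i
              else gm j.val (K + 1) (p ^ e) H β (Fin.last K, some ⟨i, not_le.1 hi⟩))
            (fun v : Gam n j.val K => gm j.val (K + 1) (p ^ e) H β (upG v))) B) := by
  classical
  -- the basic congruence
  have base : ∀ i : Fin n, i.val ≤ j.val → F i - β K ^ (p ^ e) ≠ 0 ∧
      Cg W g (((H i - β K)⁻¹) ^ (p ^ e)) ((F i - β K ^ (p ^ e))⁻¹) := by
    intro i hi
    have hne := sub_ne_zero.2 (hH i hi).1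
    have hz : ((H i - β K)⁻¹) ^ (p ^ e) ∈ W := W.pow_mem (hH i hi).2 _
    have hzz : ((H i - β K)⁻¹) ^ (p ^ e) = (H i ^ (p ^ e) - β K ^ (p ^ e))⁻¹ := by
      rw [inv_pow, sub_pow_frob]
    have hne' : H i ^ (p ^ e) - β K ^ (p ^ e) ≠ 0 := by
      rw [← sub_pow_frob]; exact pow_ne_zero _ hne
    rcases lt_or_eq_of_le hi with hlt' | heq'
    · rw [hlt i hlt']
      refine ⟨hne', ?_⟩
      rw [← hzz]
      exact Cg.refl W g hz
    · have hij : i = j := Fin.ext heq'
      subst hij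
      rw [heq]
      set z := ((H i - β K)⁻¹) ^ (p ^ e) with hzdef
      have hz0 : z ≠ 0 := by rw [hzz]; exact inv_ne_zero hne'
      obtain ⟨hu, hu'⟩ := hunit z hz
      have e1 : H i ^ (p ^ e) + g - β K ^ (p ^ e) = (1 + g * z) * z⁻¹ := by
        rw [hzz, inv_inv]
        field_simp
        ring
      rw [e1]
      refine ⟨mul_ne_zero hu (inv_ne_zero hz0), hz, ?_, ?_⟩
      · rw [mul_inv, inv_inv]
        exact W.mul_mem hu' hz
      · refine ⟨z * z * (1 + g * z)⁻¹, W.mul_mem (W.mul_mem hz hz) hu', ?_⟩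
        rw [mul_inv, inv_inv]
        have e7 : (1 + g * z) * (1 + g * z)⁻¹ = 1 := mul_inv_cancel₀ hu
        linear_combination (-z) * e7
  refine ⟨fun i hi => (base i hi).1, ?_⟩
  intro B a ha
  rw [mul_pow, lev_eq, aeval_frob, ← pow_mul, mul_comm a, pow_mul]
  have hU : Cg W g ((∏ i : Fin n with i.val ≤ j.val, (H i - β K)⁻¹) ^ (p ^ e))
      ((∏ i : Fin n with i.val ≤ j.val, (F i - β K ^ (p ^ e)))⁻¹) := by
    rw [← Finset.prod_pow, ← Finset.prod_inv_distrib]
    exact Cg.prod _ _ _ (fun i hi => (base i (Finset.mem_filter.1 hi).2).2)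
  refine Cg.hom hU ?_ B a ha
  rintro (i | v)
  · by_cases hi : i.val ≤ j.val
    · have him : i ∈ Finset.univ.filter (fun i : Fin n => i.val ≤ j.val) :=
        Finset.mem_filter.2 ⟨Finset.mem_univ _, hi⟩
      have e1 : Sum.elim (fun i : Fin n => if hi : i.val ≤ j.val then F i
              else gm j.val (K + 1) (p ^ e) H β (Fin.last K, some ⟨i, not_le.1 hi⟩))
            (fun v : Gam n j.val K => gm j.val (K + 1) (p ^ e) H β (upG v)) (Sum.inl i) = F i := by
        rw [Sum.elim_inl, dif_pos hi]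
      rw [e1]
      simp only [Sum.elim_inl]
      rw [← Finset.prod_pow, ← Finset.prod_inv_distrib, ← Finset.prod_erase_mul _ _ him,
        ← Finset.prod_erase_mul _ (fun i => (F i - β K ^ (p ^ e))⁻¹) him, mul_assoc, mul_assoc]
      refine Cg.mul (Cg.prod _ _ _ (fun l hl => (base l (Finset.mem_filter.1
        (Finset.mem_of_mem_erase hl)).2).2)) ?_
      obtain ⟨hFne, hb⟩ := base i hi
      have hne := sub_ne_zero.2 (hH i hi).1
      have hne' : H i ^ (p ^ e) - β K ^ (p ^ e) ≠ 0 := by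
        rw [← sub_pow_frob]; exact pow_ne_zero _ hne
      have e2 : (H i - β K)⁻¹ ^ (p ^ e) * H i ^ (p ^ e) =
          1 + β K ^ (p ^ e) * (H i - β K)⁻¹ ^ (p ^ e) := by
        rw [inv_pow, sub_pow_frob]
        field_simp
        ring
      have e3 : (F i - β K ^ (p ^ e))⁻¹ * F i = 1 + β K ^ (p ^ e) * (F i - β K ^ (p ^ e))⁻¹ := by
        field_simp
        ring
      rw [e2, e3]
      exact (Cg.refl W g W.one_mem).add ((Cg.refl W g (W.pow_mem (hβ K) _)).mul hb)
    · have e1 : Sum.elim (fun i : Fin n => if hi : i.val ≤ j.val then F i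
              else gm j.val (K + 1) (p ^ e) H β (Fin.last K, some ⟨i, not_le.1 hi⟩))
            (fun v : Gam n j.val K => gm j.val (K + 1) (p ^ e) H β (upG v)) (Sum.inl i) =
            H i ^ (p ^ e) := by
        rw [Sum.elim_inl, dif_neg hi]
        have e5 : K + 1 - (Fin.last K).val = 1 := by simp
        simp only [gm, Option.elim_some]
        rw [e5, pow_one]
      rw [e1]
      exact hU.mul (Cg.refl W g (W.pow_mem (hk i (not_le.1 hi)) _))
  · have e1 : Sum.elim (fun i : Fin n => if hi : i.val ≤ j.val then F i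
              else gm j.val (K + 1) (p ^ e) H β (Fin.last K, some ⟨i, not_le.1 hi⟩))
            (fun v : Gam n j.val K => gm j.val (K + 1) (p ^ e) H β (upG v)) (Sum.inr v) =
            (gm j.val K (p ^ e) H β v) ^ (p ^ e) := by
      simp only [Sum.elim_inr, gm, upG, Fin.val_castSucc]
      have e6 : K + 1 - v.1.val = (K - v.1.val) + 1 := by
        have := v.1.isLt
        omega
      rw [e6, pow_succ, pow_mul]
    rw [e1]
    exact hU.mul (Cg.refl W g (W.pow_mem (gm_mem j.val K (p ^ e) H β hβ hk v) _))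

end Step

section L2

theorem levels_aux {p n : ℕ} [Fact p.Prime] {R₀ : Type} [CommRing R₀] [IsDomain R₀]
    [Algebra (ZMod p) R₀] (f h : Fin n → R₀)
    (hf : AlgebraicIndependent (ZMod p) f) (hh : AlgebraicIndependent (ZMod p) h)
    (halg : ∀ r : R₀, IsAlgebraic (Algebra.adjoin (ZMod p) (Set.range h)) r)
    (j : Fin n) (D : MvPolynomial (Fin n) (ZMod p)) (hD : D ≠ 0) (a₀ : ℕ)
    (ha₀ : D.totalDegree ≤ a₀) (K : ℕ) :
    ∃ (B : Lev p n j.val K) (a : ℕ), B ≠ 0 ∧ B.totalDegree ≤ a ∧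
      ∀ (E : Type) [Field E] [Algebra (ZMod p) E] (ψ : R₀ →ₐ[ZMod p] E) (e : ℕ)
        (β : ℕ → E) (W : Subring E) (g : E),
        g ∈ W → (∀ w ∈ W, 1 + g * w ≠ 0 ∧ (1 + g * w)⁻¹ ∈ W) →
        (∀ i : Fin n, i.val < j.val → ψ (f i) = ψ (h i) ^ (p ^ e)) →
        ψ (f j) = ψ (h j) ^ (p ^ e) + g →
        (∀ l ≤ K, ∀ i : Fin n, i.val ≤ j.val →
          ψ (h i) ≠ β l ∧ (ψ (h i) - β l)⁻¹ ∈ W) →
        (∀ l, β l ∈ W) → (∀ k : Fin n, j.val < k.val → ψ (h k) ∈ W) →
        (∏ i : Fin n with i.val ≤ j.val, (ψ (h i) - β K)⁻¹) ^ a *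
            lev j.val K (p ^ e) (fun i => ψ (h i)) β B ∈ W ∧
        ∃ w ∈ W, ∃ w' ∈ W,
          (∏ i : Fin n with i.val ≤ j.val, (ψ (h i) - β K)⁻¹) ^ a *
            lev j.val K (p ^ e) (fun i => ψ (h i)) β B =
          w * ((∏ i : Fin n with i.val ≤ j.val, (ψ (h i) - β 0)⁻¹) ^ a₀ *
            MvPolynomial.aeval (fun i => ψ (h i)) D) ^ ((p ^ e) ^ K) + g * w' := by
  induction K with
  | zero =>
    refine ⟨MvPolynomial.rename Sum.inl D, a₀, ?_, ?_, ?_⟩
    · intro h0
      exact hD (MvPolynomial.rename_injective _ Sum.inl_injective (by rw [h0, map_zero]))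
    · exact le_trans (MvPolynomial.totalDegree_rename_le _ _) ha₀
    · intro E _ _ ψ e β W g hg hunit hlt heq hH hβ hk
      obtain ⟨hu, hux⟩ := u_mul_mem j.val 0 (p ^ e) (fun i => ψ (h i)) β (β 0) (hβ 0) hβ
        (hH 0 le_rfl) hk
      have hmem := hom_mem hu hux (MvPolynomial.rename Sum.inl D) a₀
        (le_trans (MvPolynomial.totalDegree_rename_le _ _) ha₀)
      refine ⟨by rw [lev_eq]; exact hmem, 1, W.one_mem, 0, W.zero_mem, ?_⟩
      rw [lev_eq, MvPolynomial.aeval_rename, Sum.elim_comp_inl]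
      simp
  | succ K ih =>
    obtain ⟨B, a, hB, hBa, IH⟩ := ih
    obtain ⟨M, b, hb0, hrel⟩ := level_step f h hf hh halg j.val K a B hB
    refine ⟨b 0, (Finset.range (M + 1)).sup (fun m => (b m).totalDegree), hb0, ?_, ?_⟩
    · exact Finset.le_sup (f := fun m => (b m).totalDegree)
        (Finset.mem_range.2 (Nat.succ_pos M))
    · intro E _ _ ψ e β W g hg hunit hlt heq hH hβ hk
      obtain ⟨IH1, w, hw, w', hw', IH2⟩ := IH E ψ e β W g hg hunit hlt heq
        (fun l hl => hH l (Nat.le_succ_of_le hl)) hβ hk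
      obtain ⟨hFne, hstep⟩ := step_up hg hunit j K e (fun i => ψ (f i)) (fun i => ψ (h i)) β
        hlt heq (hH K (Nat.le_succ K)) hβ hk
      obtain ⟨-, hη, w₂, hw₂, hcong⟩ := hstep B a hBa
      obtain ⟨hu, hux⟩ := u_mul_mem j.val (K + 1) (p ^ e) (fun i => ψ (h i)) β (β (K + 1))
        (hβ _) hβ (hH (K + 1) le_rfl) hk
      set a' := (Finset.range (M + 1)).sup (fun m => (b m).totalDegree) with ha'
      set u := ∏ i : Fin n with i.val ≤ j.val, (ψ (h i) - β (K + 1))⁻¹ with hudef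
      have hc : ∀ m ∈ Finset.range (M + 1), u ^ a' *
          lev j.val (K + 1) (p ^ e) (fun i => ψ (h i)) β (b m) ∈ W := by
        intro m hm
        rw [lev_eq]
        exact hom_mem hu hux (b m) a' (Finset.le_sup (f := fun m => (b m).totalDegree) hm)
      have hrel' := hrel E ψ (gm j.val (K + 1) (p ^ e) (fun i => ψ (h i)) β)
      have hgl : gm j.val (K + 1) (p ^ e) (fun i => ψ (h i)) β (Fin.last K, none) =
          β K ^ (p ^ e) := by
        have e5 : K + 1 - (Fin.last K).val = 1 := by simp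
        simp only [gm, Option.elim_none]
        rw [e5, pow_one, Fin.val_last]
      rw [hgl] at hrel'
      set Δ := ∏ i : Fin n with i.val ≤ j.val, (ψ (f i) - β K ^ (p ^ e)) with hΔ
      have hΔ0 : Δ ≠ 0 := Finset.prod_ne_zero_iff.2
        (fun i hi => hFne i (Finset.mem_filter.1 hi).2)
      set F := MvPolynomial.aeval (Sum.elim
            (fun i : Fin n => if hi : i.val ≤ j.val then ψ (f i)
              else gm j.val (K + 1) (p ^ e) (fun i => ψ (h i)) β
                (Fin.last K, some ⟨i, not_le.1 hi⟩))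
            (fun v : Gam n j.val K => gm j.val (K + 1) (p ^ e) (fun i => ψ (h i)) β (upG v))) B
        with hF
      set η := Δ⁻¹ ^ a * F with hηdef
      set c : ℕ → E := fun m => u ^ a' *
          lev j.val (K + 1) (p ^ e) (fun i => ψ (h i)) β (b m) with hcdef
      -- the relation for η
      have hrel2 : ∑ m ∈ Finset.range (M + 1), c m * η ^ m = 0 := by
        have e1 : ∀ m ∈ Finset.range (M + 1), c m * η ^ m = (u ^ a' * ((Δ ^ a) ^ M)⁻¹) *
            (MvPolynomial.aeval (Sum.elim (fun i => ψ (h i))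
              (gm j.val (K + 1) (p ^ e) (fun i => ψ (h i)) β)) (b m) * F ^ m *
              (Δ ^ a) ^ (M - m)) := by
          intro m hm
          have hmM : m ≤ M := Nat.lt_succ_iff.1 (Finset.mem_range.1 hm)
          have hD1 : (Δ ^ a) ≠ 0 := pow_ne_zero _ hΔ0
          have e2 : (Δ ^ a) ^ M = (Δ ^ a) ^ (M - m) * (Δ ^ a) ^ m := by
            rw [← pow_add, Nat.sub_add_cancel hmM]
          simp only [hcdef, hηdef, lev_eq]
          rw [e2, inv_pow, mul_pow, inv_pow]
          field_simp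
        rw [Finset.sum_congr rfl e1, ← Finset.mul_sum, hrel', mul_zero]
      rw [Finset.sum_range_succ', pow_zero, mul_one] at hrel2
      have hsum : ∃ s ∈ W, c 0 = η * s := by
        refine ⟨- ∑ m ∈ Finset.range M, c (m + 1) * η ^ m, ?_, ?_⟩
        · refine W.neg_mem (W.sum_mem (fun m hm => W.mul_mem (hc (m + 1) ?_) (W.pow_mem hη _)))
          have := Finset.mem_range.1 hm
          exact Finset.mem_range.2 (by omega)
        · have e3 : ∑ m ∈ Finset.range M, c (m + 1) * η ^ (m + 1) =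
              η * ∑ m ∈ Finset.range M, c (m + 1) * η ^ m := by
            rw [Finset.mul_sum]
            exact Finset.sum_congr rfl (fun m _ => by ring)
          rw [e3] at hrel2
          linear_combination hrel2
      obtain ⟨s, hs, hcs⟩ := hsum
      refine ⟨hc 0 (Finset.mem_range.2 (Nat.succ_pos M)), ?_⟩
      have hQ : 0 < p ^ e := pow_pos (Fact.out : p.Prime).pos e
      have hy : ((∏ i : Fin n with i.val ≤ j.val, (ψ (h i) - β K)⁻¹) ^ a *
          lev j.val K (p ^ e) (fun i => ψ (h i)) β B) ^ (p ^ e) =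
          w ^ (p ^ e) * ((∏ i : Fin n with i.val ≤ j.val, (ψ (h i) - β 0)⁻¹) ^ a₀ *
            MvPolynomial.aeval (fun i => ψ (h i)) D) ^ ((p ^ e) ^ (K + 1)) +
            g * (g ^ (p ^ e - 1) * w' ^ (p ^ e)) := by
        have : CharP E p := charP_of_injective_algebraMap (algebraMap (ZMod p) E).injective p
        rw [IH2, add_pow_char_pow, mul_pow w, ← pow_mul, ← pow_succ, mul_pow g w']
        have e4 : g ^ (p ^ e) = g * g ^ (p ^ e - 1) := by
          rw [← pow_succ', Nat.sub_add_cancel hQ]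
        rw [e4]
        ring
      refine ⟨s * w ^ (p ^ e), W.mul_mem hs (W.pow_mem hw _),
        s * (g ^ (p ^ e - 1) * w' ^ (p ^ e)) - s * w₂,
        W.sub_mem (W.mul_mem hs (W.mul_mem (W.pow_mem hg _) (W.pow_mem hw' _)))
          (W.mul_mem hs hw₂), ?_⟩
      change c 0 = _
      rw [hcs]
      rw [hy] at hcong
      linear_combination (-s) * hcong

theorem levels {p n : ℕ} [Fact p.Prime] {R₀ : Type} [CommRing R₀] [IsDomain R₀]
    [Algebra (ZMod p) R₀] (f h : Fin n → R₀)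
    (hf : AlgebraicIndependent (ZMod p) f) (hh : AlgebraicIndependent (ZMod p) h)
    (halg : ∀ r : R₀, IsAlgebraic (Algebra.adjoin (ZMod p) (Set.range h)) r)
    (j : Fin n) (D : MvPolynomial (Fin n) (ZMod p)) (hD : D ≠ 0) (a₀ : ℕ)
    (ha₀ : D.totalDegree ≤ a₀) (K : ℕ) :
    ∃ (B : Lev p n j.val K) (a : ℕ), B ≠ 0 ∧
      ∀ (E : Type) [Field E] [Algebra (ZMod p) E] (ψ : R₀ →ₐ[ZMod p] E) (e : ℕ)
        (β : ℕ → E) (W : Subring E) (g : E),
        g ∈ W → (∀ w ∈ W, 1 + g * w ≠ 0 ∧ (1 + g * w)⁻¹ ∈ W) →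
        (∀ i : Fin n, i.val < j.val → ψ (f i) = ψ (h i) ^ (p ^ e)) →
        ψ (f j) = ψ (h j) ^ (p ^ e) + g →
        (∀ l ≤ K, ∀ i : Fin n, i.val ≤ j.val →
          ψ (h i) ≠ β l ∧ (ψ (h i) - β l)⁻¹ ∈ W) →
        (∀ l, β l ∈ W) → (∀ k : Fin n, j.val < k.val → ψ (h k) ∈ W) →
        (∏ i : Fin n with i.val ≤ j.val, (ψ (h i) - β K)⁻¹) ^ a *
            lev j.val K (p ^ e) (fun i => ψ (h i)) β B ∈ W ∧
        ∃ w ∈ W, ∃ w' ∈ W,
          (∏ i : Fin n with i.val ≤ j.val, (ψ (h i) - β K)⁻¹) ^ a *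
            lev j.val K (p ^ e) (fun i => ψ (h i)) β B =
          w * ((∏ i : Fin n with i.val ≤ j.val, (ψ (h i) - β 0)⁻¹) ^ a₀ *
            MvPolynomial.aeval (fun i => ψ (h i)) D) ^ ((p ^ e) ^ K) + g * w' := by
  obtain ⟨B, a, hB, -, H⟩ := levels_aux f h hf hh halg j D hD a₀ ha₀ K
  exact ⟨B, a, hB, H⟩

end L2

end Pool.Agent.LFZ
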