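import Pool.Agent.LFZ.Defs

/-!
# MP_08a057_al, block T: transcendence bases and intermediate fields
-/

set_option autoImplicit false

namespace Pool.Agent.LFZ

open Polynomial IntermediateField

section T

/-- transferring finite dimension and the rank along an equality of subsets of `E`. -/
theorem finrank_congr_coe {k F E : Type} [Field k] [Field E] [Algebra k E] [Field F] [Algebra F E]
    (A : IntermediateField k E) (B : IntermediateField F E)
    (h : (A : Set E) = (B : Set E)) :
    (FiniteDimensional A E → FiniteDimensional B E) ∧
      Module.finrank A E = Module.finrank B E := by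
  let e : A ≃+* B :=
    { toFun := fun a => ⟨a.1, by
        have : a.1 ∈ (A : Set E) := a.2
        rw [h] at this
        exact this⟩
      invFun := fun b => ⟨b.1, by
        have : b.1 ∈ (B : Set E) := b.2
        rw [← h] at this
        exact this⟩
      left_inv := fun a => rfl
      right_inv := fun b => rfl
      map_mul' := fun a b => rfl
      map_add' := fun a b => rfl }
  constructor
  · intro hfin
    exact Module.Finite.of_equiv_equiv e (RingEquiv.refl E) rfl
  · exact Algebra.finrank_eq_of_equiv_equiv e (RingEquiv.refl E) rfl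

variable {k E : Type} [Field k] [Field E] [Algebra k E] {n : ℕ}

/-- adjoining `x l` to the field generated by the other elements. -/
theorem coe_fieldOf_diff (x : Fin n → E) (s : Set (Fin n)) (l : Fin n) (hl : l ∈ s) :
    ((fieldOf k x s : IntermediateField k E) : Set E) =
      ((IntermediateField.adjoin (fieldOf k x (s \ {l})) {x l} :
        IntermediateField (fieldOf k x (s \ {l})) E) : Set E) := by
  have h1 := IntermediateField.adjoin_adjoin_left k (x '' (s \ {l})) {x l}
  have h2 : x '' (s \ {l}) ∪ {x l} = x '' s := by
    rw [← Set.image_singleton, ← Set.image_union]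
    congr 1
    ext i
    constructor
    · rintro (hi | hi)
      · exact hi.1
      · rw [Set.mem_singleton_iff] at hi
        exact hi ▸ hl
    · intro hi
      by_cases h : i = l
      · exact Or.inr h
      · exact Or.inl ⟨hi, h⟩
  rw [h2] at h1
  have h3 := congrArg (fun A : IntermediateField k E => (A : Set E)) h1
  exact h3.symm

theorem fieldOf_facts (x : Fin n → E) (s : Set (Fin n))
    (hind : AlgebraicIndependent k (fun i : s => x i))
    (hfin : FiniteDimensional (fieldOf k x s) E) (l : Fin n) (hl : l ∈ s) :
    IsFF (fieldOf k x (s \ {l})) E ∧ Transcendental (fieldOf k x (s \ {l})) (x l) ∧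
      dg (fieldOf k x (s \ {l})) E (x l) = Module.finrank (fieldOf k x s) E := by
  have htr : Transcendental (fieldOf k x (s \ {l})) (x l) := by
    rw [IntermediateField.transcendental_adjoin_iff]
    have h1 := hind.transcendental_adjoin (s := {i : s | i.1 ≠ l}) (i := ⟨l, hl⟩) (by simp)
    have h2 : (fun i : s => x i) '' {i : s | i.1 ≠ l} = x '' (s \ {l}) := by
      ext y
      constructor
      · rintro ⟨i, hi, rfl⟩
        exact ⟨i.1, ⟨i.2, hi⟩, rfl⟩
      · rintro ⟨i, ⟨hi, hi'⟩, rfl⟩
        exact ⟨⟨i, hi⟩, hi', rfl⟩
    rw [h2] at h1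
    exact h1
  obtain ⟨ha, hb⟩ := finrank_congr_coe (E := E) _ _ (coe_fieldOf_diff (k := k) x s l hl)
  refine ⟨⟨x l, htr, ha hfin⟩, htr, ?_⟩
  rw [dg, if_pos htr]
  exact hb.symm

end T

end Pool.Agent.LFZ
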