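import Pool.Agent.LFZ.Deg3
import Pool.Agent.LFZ.TB

/-!
# Block N : nonvanishing, by successive substitution with the root bound
-/

set_option autoImplicit false
set_option linter.unusedSectionVars false

namespace Pool.Agent.LFZ

open Polynomial IntermediateField

namespace NV

section parts

variable {n : ℕ} {Γ F E : Type} [Fintype Γ] [DecidableEq Γ] [Field F] [Field E] [Algebra F E]

/-- The exponents outside of `S` are prescribed. -/
def Cond (S : Finset Γ) (ν : Γ → ℕ) (b : Fin n ⊕ Γ →₀ ℕ) : Prop :=
  ∀ t, t ∉ S → b (Sum.inr t) = ν t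

/-- Part of `B` with prescribed exponents outside of `S`. -/
noncomputable def part (B : MvPolynomial (Fin n ⊕ Γ) F) (S : Finset Γ) (ν : Γ → ℕ) :
    MvPolynomial (Fin n ⊕ Γ) F :=
  open Classical in
  ∑ b ∈ B.support with Cond S ν b, MvPolynomial.monomial b (B.coeff b)

/-- The values substituted so far. -/
def val (x : Fin n → E) (a : Γ → E) (S : Finset Γ) : Fin n ⊕ Γ → E :=
  Sum.elim x (fun t => if t ∈ S then a t else 1)

/-- The coefficient after substitution of the variables in `S`. -/
noncomputable def eS (B : MvPolynomial (Fin n ⊕ Γ) F) (x : Fin n → E) (a : Γ → E) (S : Finset Γ)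
    (ν : Γ → ℕ) : E := MvPolynomial.aeval (val x a S) (part B S ν)

/-- The value of a monomial. -/
noncomputable def term (B : MvPolynomial (Fin n ⊕ Γ) F) (x : Fin n → E) (a : Γ → E) (S : Finset Γ)
    (b : Fin n ⊕ Γ →₀ ℕ) : E :=
  algebraMap F E (B.coeff b) * ((∏ i, x i ^ b (Sum.inl i)) * ∏ t ∈ S, a t ^ b (Sum.inr t))

omit [DecidableEq Γ] in
lemma aeval_monomial_eq (y : Fin n ⊕ Γ → E) (b : Fin n ⊕ Γ →₀ ℕ) (c : F) :
    MvPolynomial.aeval y (MvPolynomial.monomial b c) =
      algebraMap F E c * ((∏ i, y (Sum.inl i) ^ b (Sum.inl i)) *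
        ∏ t, y (Sum.inr t) ^ b (Sum.inr t)) := by
  rw [MvPolynomial.aeval_monomial, Finsupp.prod_fintype _ _ (fun i => pow_zero _),
    Fintype.prod_sum_type]

lemma eS_eq (B : MvPolynomial (Fin n ⊕ Γ) F) (x : Fin n → E) (a : Γ → E) (S : Finset Γ)
    (ν : Γ → ℕ) : eS B x a S ν =
      open Classical in ∑ b ∈ B.support with Cond S ν b, term B x a S b := by
  classical
  rw [eS, part, map_sum]
  refine Finset.sum_congr rfl fun b _ => ?_
  rw [aeval_monomial_eq, term]
  congr 2
  rw [← Finset.prod_subset (Finset.subset_univ S)]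
  · refine Finset.prod_congr rfl fun t ht => ?_
    simp [val, ht]
  · intro t _ ht
    simp [val, ht]

lemma term_insert (B : MvPolynomial (Fin n ⊕ Γ) F) (x : Fin n → E) (a : Γ → E) {S : Finset Γ}
    {s : Γ} (hs : s ∉ S) (b : Fin n ⊕ Γ →₀ ℕ) :
    term B x a (insert s S) b = term B x a S b * a s ^ b (Sum.inr s) := by
  rw [term, term, Finset.prod_insert hs]
  ring

/-- One substitution. -/
lemma eS_insert (B : MvPolynomial (Fin n ⊕ Γ) F) (x : Fin n → E) (a : Γ → E) {S : Finset Γ}
    {s : Γ} (hs : s ∉ S) (ν : Γ → ℕ) : eS B x a (insert s S) ν =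
      ∑ m ∈ B.support.image (fun b => b (Sum.inr s)),
        eS B x a S (Function.update ν s m) * a s ^ m := by
  classical
  rw [eS_eq, ← Finset.sum_fiberwise_of_maps_to
    (g := fun b : Fin n ⊕ Γ →₀ ℕ => b (Sum.inr s))
    (t := B.support.image (fun b => b (Sum.inr s)))
    (fun b hb => Finset.mem_image_of_mem _ (Finset.mem_filter.1 hb).1)]
  refine Finset.sum_congr rfl fun m _ => ?_
  rw [eS_eq, Finset.sum_mul, Finset.filter_filter]
  have hfil : B.support.filter (fun b => Cond (insert s S) ν b ∧ b (Sum.inr s) = m) =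
      B.support.filter (fun b => Cond S (Function.update ν s m) b) := by
    refine Finset.filter_congr fun b _ => ?_
    constructor
    · rintro ⟨h1, h2⟩ t ht
      by_cases hts : t = s
      · subst hts
        rw [Function.update_self, h2]
      · rw [Function.update_of_ne hts]
        exact h1 t (by simp [hts, ht])
    · intro h
      refine ⟨fun t ht => ?_, ?_⟩
      · rw [Finset.mem_insert, not_or] at ht
        have := h t ht.2
        rwa [Function.update_of_ne ht.1] at this
      · have := h s hs
        rwa [Function.update_self] at this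
  rw [hfil]
  refine Finset.sum_congr rfl fun b hb => ?_
  rw [term_insert B x a hs]
  have h := (Finset.mem_filter.1 hb).2 s hs
  rw [Function.update_self] at h
  rw [h]

lemma support_part (B : MvPolynomial (Fin n ⊕ Γ) F) (S : Finset Γ) (ν : Γ → ℕ) :
    (part B S ν).support ⊆ B.support := by
  classical
  intro b hb
  rw [MvPolynomial.mem_support_iff] at hb ⊢
  intro h
  apply hb
  rw [part, MvPolynomial.coeff_sum]
  refine Finset.sum_eq_zero fun c _ => ?_
  rw [MvPolynomial.coeff_monomial]
  split_ifs with h1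
  · rw [h1, h]
  · rfl

lemma mvC_part (B : MvPolynomial (Fin n ⊕ Γ) F) (S : Finset Γ) (ν : Γ → ℕ) :
    mvC (part B S ν) ≤ mvC B :=
  Finset.sum_le_sum_of_subset (support_part B S ν)

lemma eS_congr (B : MvPolynomial (Fin n ⊕ Γ) F) (x : Fin n → E) {a a' : Γ → E} {S : Finset Γ}
    (h : ∀ t ∈ S, a t = a' t) (ν : Γ → ℕ) : eS B x a S ν = eS B x a' S ν := by
  classical
  rw [eS_eq, eS_eq]
  refine Finset.sum_congr rfl fun b _ => ?_
  rw [term, term]
  congr 2
  exact Finset.prod_congr rfl fun t ht => by rw [h t ht]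

/-- At the end. -/
lemma eS_univ (B : MvPolynomial (Fin n ⊕ Γ) F) (x : Fin n → E) (a : Γ → E) (ν : Γ → ℕ) :
    eS B x a Finset.univ ν = MvPolynomial.aeval (Sum.elim x a) B := by
  classical
  have h1 : part B Finset.univ ν = B := by
    rw [part, Finset.filter_true_of_mem]
    · exact MvPolynomial.support_sum_monomial_coeff B
    · intro b _ t ht
      exact absurd (Finset.mem_univ t) ht
  have h2 : val x a Finset.univ = Sum.elim x a := by
    rw [val]
    congr 1
    funext t
    simp
  rw [eS, h1, h2]

/-- At the beginning. -/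
lemma exists_start (B : MvPolynomial (Fin n ⊕ Γ) F) (hB : B ≠ 0) :
    ∃ (ν : Γ → ℕ) (Bs : MvPolynomial (Fin n) F), Bs ≠ 0 ∧
      ∀ (E : Type) [Field E] [Algebra F E] (x : Fin n → E) (a : Γ → E),
        eS B x a ∅ ν = MvPolynomial.aeval x Bs := by
  classical
  obtain ⟨b0, hb0⟩ := MvPolynomial.ne_zero_iff.1 hB
  refine ⟨fun t => b0 (Sum.inr t), ∑ b ∈ B.support with Cond ∅ (fun t => b0 (Sum.inr t)) b,
    MvPolynomial.monomial (b.comapDomain Sum.inl Sum.inl_injective.injOn) (B.coeff b), ?_, ?_⟩
  · rw [MvPolynomial.ne_zero_iff]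
    refine ⟨b0.comapDomain Sum.inl Sum.inl_injective.injOn, ?_⟩
    rw [MvPolynomial.coeff_sum, Finset.sum_eq_single b0]
    · rwa [MvPolynomial.coeff_monomial, if_pos rfl]
    · intro b hb hne
      rw [MvPolynomial.coeff_monomial, if_neg]
      intro h
      apply hne
      ext v
      rcases v with i | t
      · have := DFunLike.congr_fun h i
        rwa [Finsupp.comapDomain_apply, Finsupp.comapDomain_apply] at this
      · exact (Finset.mem_filter.1 hb).2 t (Finset.notMem_empty t)
    · intro h
      exfalso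
      apply h
      rw [Finset.mem_filter, MvPolynomial.mem_support_iff]
      exact ⟨hb0, fun t _ => rfl⟩
  · intro E _ _ x a
    rw [eS_eq, map_sum]
    refine Finset.sum_congr rfl fun b _ => ?_
    rw [term, Finset.prod_empty, mul_one, MvPolynomial.aeval_monomial,
      Finsupp.prod_fintype _ _ (fun i => pow_zero _)]
    rfl

/-- Finding a good constant. -/
lemma exists_const {k : Type} [Field k] [Infinite k] [Algebra k E] (T : Set k) (hT : T.Finite)
    (M : Finset ℕ) (e : ℕ → E) (he : ∃ m ∈ M, e m ≠ 0) {r : ℕ} (hr : r ≠ 0) :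
    ∃ β : k, β ∉ T ∧ ∑ m ∈ M, e m * ((algebraMap k E β) ^ r) ^ m ≠ 0 := by
  classical
  obtain ⟨m0, hm0, hem0⟩ := he
  set P : Polynomial E := ∑ m ∈ M, Polynomial.C (e m) * (Polynomial.X ^ r) ^ m with hP
  have hP0 : P ≠ 0 := by
    intro h
    have h1 : P.coeff (r * m0) = e m0 := by
      rw [hP, Polynomial.finsetSum_coeff, Finset.sum_eq_single m0]
      · rw [← pow_mul, Polynomial.coeff_C_mul, Polynomial.coeff_X_pow, if_pos rfl, mul_one]
      · intro m _ hm
        rw [← pow_mul, Polynomial.coeff_C_mul, Polynomial.coeff_X_pow, if_neg, mul_zero]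
        intro h2
        exact hm (Nat.eq_of_mul_eq_mul_left (Nat.pos_of_ne_zero hr) h2).symm
      · intro h2
        exact absurd hm0 h2
    rw [h, Polynomial.coeff_zero] at h1
    exact hem0 h1.symm
  have hfin : (T ∪ {β : k | P.IsRoot (algebraMap k E β)}).Finite := by
    refine hT.union ?_
    exact (Polynomial.finite_setOfPred_isRoot hP0).preimage (algebraMap k E).injective.injOn
  obtain ⟨β, hβ⟩ := hfin.exists_notMem
  rw [Set.mem_union, not_or] at hβ
  refine ⟨β, hβ.1, ?_⟩
  intro h
  apply hβ.2
  show P.eval _ = 0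
  rw [hP, Polynomial.eval_finsetSum, ← h]
  refine Finset.sum_congr rfl fun m _ => ?_
  simp

/-- A change of the values of a variable that was not yet substituted. -/
lemma exists_update_ne {B : MvPolynomial (Fin n ⊕ Γ) F} {x : Fin n → E} {a : Γ → E}
    {S : Finset Γ} {s : Γ} {ν : Γ → ℕ} (h : eS B x a S ν ≠ 0) (hs : s ∉ S) :
    ∃ m ∈ B.support.image (fun b => b (Sum.inr s)), eS B x a S (Function.update ν s m) ≠ 0 := by
  classical
  refine ⟨ν s, ?_, by rwa [Function.update_eq_self]⟩
  rw [eS_eq] at h
  obtain ⟨b, hb, _⟩ := Finset.exists_ne_zero_of_sum_ne_zero h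
  obtain ⟨hb1, hb2⟩ := Finset.mem_filter.1 hb
  rw [Finset.mem_image]
  exact ⟨b, hb1, hb2 s hs⟩

end parts

/-- Sums of degrees. -/
lemma sum_deg_le {n C₁ Q N : ℕ} (hQ : 2 * n * C₁ ≤ Q) (hQ0 : 0 < Q) (j : Fin n) (l : Fin n)
    (d : Fin n → ℕ) (hl : d l = N)
    (h0 : ∀ i : Fin n, j.val ≤ i.val → i ≠ l → d i = 0)
    (h1 : ∀ i : Fin n, i.val < j.val → Q * d i ≤ C₁ * ∑ i', d i') : ∑ i, d i ≤ 2 * N := by
  have h2 : Q * ∑ i, d i ≤ Q * N + n * (C₁ * ∑ i', d i') := by
    have h3 : ∀ i, Q * d i ≤ (if i = l then Q * N else 0) + C₁ * ∑ i', d i' := by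
      intro i
      by_cases hi : i = l
      · rw [if_pos hi, hi, hl]
        exact Nat.le_add_right _ _
      · rw [if_neg hi, zero_add]
        by_cases hij : j.val ≤ i.val
        · rw [h0 i hij hi, mul_zero]
          exact Nat.zero_le _
        · exact h1 i (not_le.1 hij)
    rw [Finset.mul_sum]
    refine (Finset.sum_le_sum fun i _ => h3 i).trans ?_
    rw [Finset.sum_add_distrib, Finset.sum_ite_eq' Finset.univ l, if_pos (Finset.mem_univ l),
      Finset.sum_const, Finset.card_univ, Fintype.card_fin, smul_eq_mul]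
  set D := ∑ i, d i with hD
  have h4 : 2 * (n * (C₁ * D)) ≤ Q * D := by
    have := Nat.mul_le_mul_right D hQ
    calc 2 * (n * (C₁ * D)) = 2 * n * C₁ * D := by ring
      _ ≤ Q * D := this
  have h5 : Q * D ≤ Q * (2 * N) := by
    have : 2 * (Q * D) ≤ 2 * (Q * N) + Q * D := by omega
    have h6 : Q * (2 * N) = 2 * (Q * N) := by ring
    omega
  exact Nat.le_of_mul_le_mul_left h5 hQ0

end NV

open NV in
theorem nonvanish {p n : ℕ} [Fact p.Prime] (C₁ : ℕ) (j : Fin n) (K : ℕ)
    (B : Lev p n j.val K) (hB : B ≠ 0) :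
    ∃ (Bs : MvPolynomial (Fin n) (ZMod p)) (C : ℕ), Bs ≠ 0 ∧
      ∀ (k E : Type) [Field k] [Infinite k] [Field E] [Algebra k E] [Algebra (ZMod p) k]
        [Algebra (ZMod p) E] [IsScalarTower (ZMod p) k E] (x : Fin n → E) (e : ℕ)
        (T : Set k), C ≤ p ^ e → T.Finite → MvPolynomial.aeval x Bs ≠ 0 →
        AlgebraicIndependent k (fun i : {i : Fin n | j.val ≤ i.val} => x i) →
        FiniteDimensional (fieldOf k x {i : Fin n | j.val ≤ i.val}) E →
        (∀ l : Fin n, j.val ≤ l.val → ∀ i : Fin n, i.val < j.val →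
          p ^ e * dg (fieldOf k x ({i : Fin n | j.val ≤ i.val} \ {l})) E (x i) ≤
            C₁ * ∑ i', dg (fieldOf k x ({i : Fin n | j.val ≤ i.val} \ {l})) E (x i')) →
        ∃ β : ℕ → k, (∀ l, β l ∉ T) ∧
          lev j.val K (p ^ e) x (fun l => algebraMap k E (β l)) B ≠ 0 := by
  classical
  obtain ⟨ν0, Bs, hBs, hstart⟩ := exists_start B hB
  refine ⟨Bs, 2 * n * C₁ + B.support.card * (mvC B * (2 + K)) + 1, hBs, ?_⟩
  intro k E _ _ _ _ _ _ _ x e T hC hT hBsx hind hfin hdeg
  set Q := p ^ e with hQ
  have hQ0 : 0 < Q := by omega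
  -- the values
  let a : (ℕ → k) → Gam n j.val K → E := fun β v =>
    (Option.elim v.2 (algebraMap k E (β v.1)) (fun k' => x k'.1)) ^ (Q ^ (K - v.1.val))
  have main : ∀ S : Finset (Gam n j.val K), ∃ β : ℕ → k, (∀ l, β l ∉ T) ∧
      ∃ ν, eS B x (a β) S ν ≠ 0 := by
    intro S
    induction S using Finset.induction_on_max_value (fun v : Gam n j.val K => K - v.1.val) with
    | empty =>
      obtain ⟨β0, hβ0⟩ := hT.exists_notMem
      refine ⟨fun _ => β0, fun _ => hβ0, ν0, ?_⟩
      rw [hstart]
      exact hBsx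
    | insert s S hs hmax ih =>
      obtain ⟨β, hβ, ν, hν⟩ := ih
      obtain ⟨m, hm, hne⟩ := exists_update_ne hν hs
      rcases s with ⟨v, _ | l⟩
      · -- a constant
        obtain ⟨b, hbT, hb⟩ := exists_const T hT
          (B.support.image (fun b => b (Sum.inr (v, none))))
          (fun m => eS B x (a β) S (Function.update ν (v, none) m)) ⟨m, hm, hne⟩
          (r := Q ^ (K - v.val)) (pow_ne_zero _ hQ0.ne')
        refine ⟨Function.update β v.val b, ?_, ν, ?_⟩
        · intro l
          by_cases hl : l = v.val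
          · rw [hl, Function.update_self]; exact hbT
          · rw [Function.update_of_ne hl]; exact hβ l
        · rw [eS_insert B x _ hs]
          have h1 : a (Function.update β v.val b) (v, none) =
              algebraMap k E b ^ (Q ^ (K - v.val)) := by
            show (algebraMap k E (Function.update β v.val b v.val)) ^ (Q ^ (K - v.val)) = _
            rw [Function.update_self]
          have h2 : ∀ t ∈ S, a (Function.update β v.val b) t = a β t := by
            rintro ⟨v', o⟩ ht
            rcases o with _ | l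
            · show (algebraMap k E (Function.update β v.val b v'.val)) ^ (Q ^ (K - v'.val)) =
                (algebraMap k E (β v'.val)) ^ (Q ^ (K - v'.val))
              rw [Function.update_of_ne]
              intro h
              apply hs
              rwa [← Fin.ext h]
            · rfl
          rw [h1]
          simp only [eS_congr B x h2]
          exact hb
      · -- one of the coordinates
        refine ⟨β, hβ, ν, ?_⟩
        intro h0
        rw [eS_insert B x _ hs] at h0
        have hjl : j.val ≤ l.1.val := l.2.le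
        obtain ⟨hFF, htr, hN⟩ := fieldOf_facts x {i : Fin n | j.val ≤ i.val} hind hfin l.1 hjl
        set κ := fieldOf k x ({i : Fin n | j.val ≤ i.val} \ {l.1}) with hκ
        have : Infinite κ := Infinite.of_injective (algebraMap k κ) (algebraMap k κ).injective
        set N := Module.finrank (fieldOf k x {i : Fin n | j.val ≤ i.val}) E with hNdef
        have hNpos : 0 < N := hN ▸ dg_pos hFF htr
        have hmem : ∀ y : E, y ∈ κ → dg κ E y = 0 := fun y hy =>
          dg_eq_zero_of_isAlgebraic (isAlgebraic_algebraMap (⟨y, hy⟩ : κ))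
        have hxi : ∀ i : Fin n, j.val ≤ i.val → i ≠ l.1 → x i ∈ κ := fun i hi hne =>
          IntermediateField.subset_adjoin k _ ⟨i, ⟨hi, hne⟩, rfl⟩
        have hDx : ∑ i, dg κ E (x i) ≤ 2 * N := by
          refine sum_deg_le (C₁ := C₁) (Q := Q) (by omega) hQ0 j l.1 _ hN
            (fun i hi hne => hmem _ (hxi i hi hne)) (hdeg l.1 hjl)
        have hvK : v.val < K := v.2
        have hγ : ∀ t : Gam n j.val K, dg κ E (val x (a β) S (Sum.inr t)) ≤
            if t.2 = some l then Q ^ (K - v.val - 1) * N else 0 := by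
          rintro ⟨v', o⟩
          by_cases htS : (v', o) ∈ S
          · have h1 : val x (a β) S (Sum.inr (v', o)) = a β (v', o) := by simp [NV.val, htS]
            rw [h1]
            rcases o with _ | l'
            · have h2 : a β (v', none) ∈ κ := by
                show (algebraMap k E (β v'.val)) ^ (Q ^ (K - v'.val)) ∈ κ
                exact pow_mem (κ.algebraMap_mem _) _
              rw [hmem _ h2]
              exact Nat.zero_le _
            · by_cases hll : l' = l
              · subst hll
                rw [if_pos rfl]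
                have h2 : a β (v', some l') = x l'.1 ^ (Q ^ (K - v'.val)) := rfl
                rw [h2, dg_pow hFF _ (pow_ne_zero _ hQ0.ne'), hN]
                have h3 : K - v'.val ≤ K - v.val := hmax _ htS
                have h4 : v' ≠ v := by
                  rintro rfl
                  exact hs htS
                have h5 : v'.val ≠ v.val := fun h => h4 (Fin.ext h)
                have h6 := v'.2
                exact Nat.mul_le_mul_right _ (Nat.pow_le_pow_right hQ0 (by omega))
              · have h2 : a β (v', some l') ∈ κ := by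
                  show (x l'.1) ^ (Q ^ (K - v'.val)) ∈ κ
                  exact pow_mem (hxi _ l'.2.le (fun h => hll (Subtype.ext h))) _
                rw [hmem _ h2]
                exact Nat.zero_le _
          · have h1 : val x (a β) S (Sum.inr (v', o)) = 1 := by simp [NV.val, htS]
            rw [h1, hmem 1 (one_mem κ)]
            exact Nat.zero_le _
        have hsum : ∑ i, dg κ E (val x (a β) S i) ≤ (2 + K) * (Q ^ (K - v.val - 1) * N) := by
          rw [Fintype.sum_sum_type]
          have h1 : ∑ t : Gam n j.val K, dg κ E (val x (a β) S (Sum.inr t)) ≤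
              K * (Q ^ (K - v.val - 1) * N) := by
            refine (Finset.sum_le_sum fun t _ => hγ t).trans ?_
            rw [Fintype.sum_prod_type]
            simp
          have h2 : ∑ i, dg κ E (val x (a β) S (Sum.inl i)) ≤ 2 * (Q ^ (K - v.val - 1) * N) := by
            refine hDx.trans ?_
            have h3 : 1 ≤ Q ^ (K - v.val - 1) := Nat.one_le_pow _ _ hQ0
            calc 2 * N = 2 * (1 * N) := by ring
              _ ≤ 2 * (Q ^ (K - v.val - 1) * N) := by gcongr
          calc _ ≤ 2 * (Q ^ (K - v.val - 1) * N) + K * (Q ^ (K - v.val - 1) * N) :=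
                Nat.add_le_add h2 h1
            _ = _ := by ring
        have hcoef : ∀ ν', dg κ E (eS B x (a β) S ν') ≤
            mvC B * ((2 + K) * (Q ^ (K - v.val - 1) * N)) := fun ν' =>
          (dg_aeval_le hFF _ _).trans (Nat.mul_le_mul (mvC_part B S ν') hsum)
        have hroot := dg_root_le hFF (a β (v, some l)) _ _ ⟨m, hm, hne⟩ h0
        have h1 : a β (v, some l) = x l.1 ^ (Q ^ (K - v.val)) := rfl
        rw [h1, dg_pow hFF _ (pow_ne_zero _ hQ0.ne'), hN] at hroot
        have h2 : Q ^ (K - v.val) * N ≤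
            B.support.card * (mvC B * ((2 + K) * (Q ^ (K - v.val - 1) * N))) := by
          refine hroot.trans ((Finset.sum_le_card_nsmul _ _ _ fun m _ => hcoef _).trans ?_)
          rw [smul_eq_mul]
          exact Nat.mul_le_mul_right _ Finset.card_image_le
        have h3 : Q ^ (K - v.val) = Q * Q ^ (K - v.val - 1) := by
          rw [← pow_succ']
          congr 1
          omega
        have h4 : 0 < Q ^ (K - v.val - 1) * N := Nat.mul_pos (Nat.pow_pos hQ0) hNpos
        rw [h3] at h2
        have h5 : Q * (Q ^ (K - v.val - 1) * N) ≤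
            (B.support.card * (mvC B * (2 + K))) * (Q ^ (K - v.val - 1) * N) := by
          calc Q * (Q ^ (K - v.val - 1) * N) = Q * Q ^ (K - v.val - 1) * N := by ring
            _ ≤ _ := h2
            _ = _ := by ring
        have h6 := Nat.le_of_mul_le_mul_right h5 h4
        omega
  obtain ⟨β, hβ, ν, hν⟩ := main Finset.univ
  refine ⟨β, hβ, ?_⟩
  rw [eS_univ] at hν
  exact hν

end Pool.Agent.LFZ
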