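import Pool.Agent.LFZ.Deg3

/-!
BLOCK R: relations with uniform constants.
-/

set_option autoImplicit false

namespace Pool.Agent.LFZ

open Polynomial IntermediateField

namespace RelAux

theorem exists_rel {p n : ℕ} [Fact p.Prime] {R₀ : Type} [CommRing R₀]
    [Algebra (ZMod p) R₀] (h : Fin n → R₀) (r : R₀)
    (halg : IsAlgebraic (Algebra.adjoin (ZMod p) (Set.range h)) r) :
    ∃ (M : ℕ) (c : ℕ → MvPolynomial (Fin n) (ZMod p)), c M ≠ 0 ∧
      ∑ m ∈ Finset.range (M + 1), MvPolynomial.aeval h (c m) * r ^ m = 0 := by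
  obtain ⟨P, hP, hr⟩ := halg
  have hc : ∀ a : Algebra.adjoin (ZMod p) (Set.range h),
      ∃ c : MvPolynomial (Fin n) (ZMod p), MvPolynomial.aeval h c = (a : R₀) := by
    rintro ⟨a, ha⟩
    have h1 := ha
    rw [Algebra.adjoin_range_eq_range_aeval] at h1
    exact h1
  choose c hc using hc
  refine ⟨P.natDegree, fun m => c (P.coeff m), ?_, ?_⟩
  · intro h0
    have h1 := hc (P.coeff P.natDegree)
    have h0' : c (P.coeff P.natDegree) = 0 := h0
    rw [h0', map_zero] at h1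
    apply hP
    rw [← Polynomial.leadingCoeff_eq_zero]
    exact Subtype.ext h1.symm
  · rw [Polynomial.aeval_eq_sum_range] at hr
    rw [← hr]
    refine Finset.sum_congr rfl fun m _ => ?_
    rw [hc]
    rfl

theorem aeval_map {p n : ℕ} [Fact p.Prime] {R₀ : Type} [CommRing R₀]
    [Algebra (ZMod p) R₀] (h : Fin n → R₀) {E : Type} [Field E] [Algebra (ZMod p) E]
    (ψ : R₀ →ₐ[ZMod p] E) (c : MvPolynomial (Fin n) (ZMod p)) :
    ψ (MvPolynomial.aeval h c) = MvPolynomial.aeval (fun i => ψ (h i)) c := by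
  rw [← AlgHom.comp_apply, MvPolynomial.comp_aeval]

theorem rel_map {p n : ℕ} [Fact p.Prime] {R₀ : Type} [CommRing R₀]
    [Algebra (ZMod p) R₀] (h : Fin n → R₀) {E : Type} [Field E] [Algebra (ZMod p) E]
    (ψ : R₀ →ₐ[ZMod p] E) (M : ℕ) (c : ℕ → MvPolynomial (Fin n) (ZMod p)) (r : R₀)
    (hr : ∑ m ∈ Finset.range (M + 1), MvPolynomial.aeval h (c m) * r ^ m = 0) :
    ∑ m ∈ Finset.range (M + 1), MvPolynomial.aeval (fun i => ψ (h i)) (c m) * ψ r ^ m = 0 := by
  have h1 := congrArg ψ hr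
  rw [map_sum, map_zero] at h1
  rw [← h1]
  refine Finset.sum_congr rfl fun m _ => ?_
  rw [map_mul, map_pow, aeval_map]

theorem algebraMap_mem {p : ℕ} [Fact p.Prime] {E : Type} [Field E] [Algebra (ZMod p) E]
    (S : Subring E) (a : ZMod p) : algebraMap (ZMod p) E a ∈ S := by
  obtain ⟨z, rfl⟩ := ZMod.intCast_surjective a
  rw [map_intCast]
  exact intCast_mem S z

theorem aeval_mem {p n : ℕ} [Fact p.Prime] {E : Type} [Field E] [Algebra (ZMod p) E]
    (S : Subring E) (x : Fin n → E) (hx : ∀ i, x i ∈ S) (c : MvPolynomial (Fin n) (ZMod p)) :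
    MvPolynomial.aeval x c ∈ S := by
  induction c using MvPolynomial.induction_on with
  | C a => rw [MvPolynomial.aeval_C]; exact algebraMap_mem S a
  | add P Q hP hQ => rw [map_add]; exact add_mem hP hQ
  | mul_X P i hP => rw [map_mul, MvPolynomial.aeval_X]; exact mul_mem hP (hx i)

theorem isIntegral_of_rel {E : Type} [Field E] (S : Subring E) (M : ℕ) (a : ℕ → E)
    (ha : ∀ m, a m ∈ S) (h0 : a M ≠ 0) (hM : (a M)⁻¹ ∈ S) (x : E)
    (hx : ∑ m ∈ Finset.range (M + 1), a m * x ^ m = 0) : IsIntegral S x := by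
  let P : Polynomial S := ∑ m ∈ Finset.range M,
    Polynomial.C (⟨(a M)⁻¹ * a m, mul_mem hM (ha m)⟩ : S) * Polynomial.X ^ m
  have hdeg : P.degree < M := by
    refine lt_of_le_of_lt (Polynomial.degree_sum_le _ _) ?_
    refine (Finset.sup_lt_iff (WithBot.bot_lt_coe M)).2 ?_
    intro m hm
    refine lt_of_le_of_lt (Polynomial.degree_C_mul_X_pow_le _ _) ?_
    exact WithBot.coe_lt_coe.2 (Finset.mem_range.1 hm)
  refine ⟨Polynomial.X ^ M + P, Polynomial.monic_X_pow_add hdeg, ?_⟩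
  rw [Polynomial.eval₂_add, Polynomial.eval₂_X_pow, Polynomial.eval₂_finsetSum]
  have h1 : ∀ m ∈ Finset.range M, Polynomial.eval₂ (algebraMap S E) x
      (Polynomial.C (⟨(a M)⁻¹ * a m, mul_mem hM (ha m)⟩ : S) * Polynomial.X ^ m) =
      (a M)⁻¹ * (a m * x ^ m) := by
    intro m _
    rw [Polynomial.eval₂_mul, Polynomial.eval₂_C, Polynomial.eval₂_X_pow]
    show ((a M)⁻¹ * a m) * x ^ m = _
    ring
  rw [Finset.sum_congr rfl h1, ← Finset.mul_sum]
  rw [Finset.sum_range_succ] at hx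
  have h2 : ∑ m ∈ Finset.range M, a m * x ^ m = - (a M * x ^ M) := by linear_combination hx
  rw [h2]
  field_simp
  ring

end RelAux

open RelAux

theorem exists_D0 {p n : ℕ} [Fact p.Prime] {R₀ : Type} [CommRing R₀] [IsDomain R₀]
    [Algebra (ZMod p) R₀] [Algebra.FiniteType (ZMod p) R₀] (h : Fin n → R₀)
    (hh : AlgebraicIndependent (ZMod p) h)
    (halg : ∀ r : R₀, IsAlgebraic (Algebra.adjoin (ZMod p) (Set.range h)) r) :
    ∃ D₀ : MvPolynomial (Fin n) (ZMod p), D₀ ≠ 0 ∧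
      ∀ (E : Type) [Field E] [Algebra (ZMod p) E] (ψ : R₀ →ₐ[ZMod p] E) (S : Subring E),
        (∀ i, ψ (h i) ∈ S) → MvPolynomial.aeval (fun i => ψ (h i)) D₀ ≠ 0 →
        (MvPolynomial.aeval (fun i => ψ (h i)) D₀)⁻¹ ∈ S → ∀ r, IsIntegral S (ψ r) := by
  classical
  obtain ⟨s, hs⟩ := (inferInstance : Algebra.FiniteType (ZMod p) R₀).out
  choose M c hc hrel using fun r : R₀ => exists_rel h r (halg r)
  refine ⟨∏ r ∈ s, c r (M r), Finset.prod_ne_zero_iff.2 fun r _ => hc r, ?_⟩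
  intro E _ _ ψ S hS hD hDinv
  have hgen : ∀ r ∈ s, IsIntegral S (ψ r) := by
    intro r hr
    rw [map_prod] at hD hDinv
    have hne := Finset.prod_ne_zero_iff.1 hD r hr
    refine isIntegral_of_rel S (M r) (fun m => MvPolynomial.aeval (fun i => ψ (h i)) (c r m))
      (fun m => aeval_mem S _ hS _) hne ?_ (ψ r) (rel_map h ψ (M r) (c r) r (hrel r))
    have h1 : (MvPolynomial.aeval (fun i => ψ (h i)) (c r (M r)))⁻¹ =
        (∏ x ∈ s.erase r, MvPolynomial.aeval (fun i => ψ (h i)) (c x (M x))) *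
          (∏ x ∈ s, MvPolynomial.aeval (fun i => ψ (h i)) (c x (M x)))⁻¹ := by
      rw [← Finset.mul_prod_erase s _ hr] at hD ⊢
      have h2 := right_ne_zero_of_mul hD
      field_simp
    rw [h1]
    exact mul_mem (prod_mem fun x _ => aeval_mem S _ hS _) hDinv
  intro r
  have hr : r ∈ Algebra.adjoin (ZMod p) (s : Set R₀) := by rw [hs]; trivial
  induction hr using Algebra.adjoin_induction with
  | mem x hx => exact hgen x hx
  | algebraMap a =>
    rw [AlgHom.commutes]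
    exact isIntegral_algebraMap (R := S) (x := ⟨_, algebraMap_mem S a⟩)
  | add x y _ _ hx hy => rw [map_add]; exact hx.add hy
  | mul x y _ _ hx hy => rw [map_mul]; exact hx.mul hy

theorem exists_C1 {p n : ℕ} [Fact p.Prime] {R₀ : Type} [CommRing R₀] [IsDomain R₀]
    [Algebra (ZMod p) R₀] (h : Fin n → R₀) (hh : AlgebraicIndependent (ZMod p) h)
    (halg : ∀ r : R₀, IsAlgebraic (Algebra.adjoin (ZMod p) (Set.range h)) r) (r : R₀) :
    ∃ (D₁ : MvPolynomial (Fin n) (ZMod p)) (C : ℕ), D₁ ≠ 0 ∧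
      ∀ (κ E : Type) [Field κ] [Infinite κ] [Field E] [Algebra κ E] [Algebra (ZMod p) κ]
        [Algebra (ZMod p) E] [IsScalarTower (ZMod p) κ E] (ψ : R₀ →ₐ[ZMod p] E),
        IsFF κ E → MvPolynomial.aeval (fun i => ψ (h i)) D₁ ≠ 0 →
        dg κ E (ψ r) ≤ C * ∑ i, dg κ E (ψ (h i)) := by
  obtain ⟨M, c, hc, hrel⟩ := exists_rel h r (halg r)
  refine ⟨c M, ∑ m ∈ Finset.range (M + 1), mvC (c m), hc, ?_⟩
  intro κ E _ _ _ _ _ _ _ ψ hE hD
  refine (dg_root_le hE (ψ r) (Finset.range (M + 1))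
    (fun m => MvPolynomial.aeval (fun i => ψ (h i)) (c m))
    ⟨M, Finset.self_mem_range_succ M, hD⟩ (rel_map h ψ M c r hrel)).trans ?_
  rw [Finset.sum_mul]
  exact Finset.sum_le_sum fun m _ => dg_aeval_le hE (c m) fun i => ψ (h i)

end Pool.Agent.LFZ
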