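import Pool.Agent.LFZ.Deg1

/-!
# MP_08a057_al, block S1: passing to a residue field
-/

set_option autoImplicit false

namespace Pool.Agent.LFZ

open Polynomial IntermediateField

/-- a residue field of `A` at a maximal ideal which contains `g` -/
theorem residue_exists {κ E : Type} [Field κ] [Field E] [Algebra κ E] (hE : IsFF κ E)
    (A : Subalgebra κ E) (g : A) (hg0 : g ≠ 0) (hgu : ¬ IsUnit g) :
    ∃ (E' : Type) (_ : Field E') (_ : Algebra κ E') (π : A →ₐ[κ] E'), π g = 0 ∧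
      Module.Finite κ E' ∧ Module.finrank κ E' ≤ dg κ E (g : E) := by
  obtain ⟨m, hm, hgm⟩ := exists_max_ideal_of_mem_nonunits (a := g) hgu
  obtain ⟨h1, h2⟩ := dg_quot hE A g hg0
  have hle : Ideal.span {g} ≤ m := by
    rw [Ideal.span_singleton_le_iff_mem]; exact hgm
  have hsurj : Function.Surjective (Ideal.Quotient.factorₐ κ hle).toLinearMap := by
    intro x
    obtain ⟨a, rfl⟩ := Ideal.Quotient.mk_surjective x
    exact ⟨Ideal.Quotient.mk _ a, rfl⟩
  refine ⟨A ⧸ m, Ideal.Quotient.field m, inferInstance, Ideal.Quotient.mkₐ κ m,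
    Ideal.Quotient.eq_zero_iff_mem.2 hgm, Module.Finite.of_surjective _ hsurj, le_trans ?_ h2⟩
  exact LinearMap.finrank_le_finrank_of_surjective hsurj

theorem finrank_over {k κ E' : Type} [Field k] [Field κ] [Field E'] [Algebra k E']
    [Algebra κ E'] (F : IntermediateField k E') (hF : ∀ x : κ, algebraMap κ E' x ∈ F)
    (hfin : Module.Finite κ E') :
    FiniteDimensional F E' ∧ Module.finrank F E' ≤ Module.finrank κ E' := by
  let φ : κ →+* F := (algebraMap κ E').codRestrict F.toSubring hF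
  let _ : Algebra κ F := φ.toAlgebra
  have _ : IsScalarTower κ F E' := IsScalarTower.of_algebraMap_eq (fun x => rfl)
  have h1 : FiniteDimensional F E' := Module.Finite.of_restrictScalars_finite κ F E'
  have h2 : FiniteDimensional κ F :=
    FiniteDimensional.of_injective (IsScalarTower.toAlgHom κ F E').toLinearMap
      (IsScalarTower.toAlgHom κ F E').injective
  refine ⟨h1, ?_⟩
  rw [← Module.finrank_mul_finrank κ F E']
  have h3 : 0 < Module.finrank κ F := Module.finrank_pos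
  exact Nat.le_mul_of_pos_left _ h3

/-- the image of the field generated by the `x i` in a field extension -/
theorem image_mem {k E E' : Type} [Field k] [Field E] [Algebra k E] [Field E'] [Algebra k E']
    {n : ℕ} (x : Fin n → E) (x' : Fin n → E') (s : Set (Fin n))
    (φ : fieldOf k x s →ₐ[k] E')
    (hφ : ∀ i (hi : i ∈ s), φ ⟨x i, subset_adjoin k _ ⟨i, hi, rfl⟩⟩ = x' i)
    (z : fieldOf k x s) : φ z ∈ fieldOf k x' s := by
  have h : fieldOf k x s ≤
      IntermediateField.lift (F := fieldOf k x s) ((fieldOf k x' s).comap φ) := by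
    rw [adjoin_le_iff]
    rintro _ ⟨i, hi, rfl⟩
    have hm : x i ∈ fieldOf k x s := subset_adjoin k _ ⟨i, hi, rfl⟩
    have h1 : (⟨x i, hm⟩ : fieldOf k x s) ∈ (fieldOf k x' s).comap φ := by
      show φ _ ∈ fieldOf k x' s
      rw [hφ i hi]
      exact subset_adjoin k _ ⟨i, hi, rfl⟩
    exact (IntermediateField.mem_lift (⟨x i, hm⟩ : fieldOf k x s)).2 h1
  have := h z.2
  rw [IntermediateField.mem_lift z] at this
  exact this

theorem step_quot_aux {p n : ℕ} [Fact p.Prime] {k : Type} [Field k] [Algebra (ZMod p) k]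
    {R₀ : Type} [CommRing R₀]
    [Algebra (ZMod p) R₀] (f h : Fin n → R₀) (j : Fin n) (Q : ℕ)
    (D : MvPolynomial (Fin n) (ZMod p))
    (E : Type) [Field E] [Algebra k E]
    [Algebra (ZMod p) E] [IsScalarTower (ZMod p) k E]
    (ψ : R₀ →ₐ[ZMod p] E)
    (hf : ∀ i : Fin n, i.val < j.val → ψ (f i) = ψ (h i) ^ Q)
    (s : Set (Fin n))
    (hind : AlgebraicIndependent k (fun i : s => ψ (h i)))
    (hE : IsFF (fieldOf k (fun i => ψ (h i)) s) E)
    (A : Subalgebra (fieldOf k (fun i => ψ (h i)) s) E)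
    (hA : ∀ r, ψ r ∈ A) (hD0 : MvPolynomial.aeval (fun i => ψ (h i)) D ≠ 0)
    (hD : (MvPolynomial.aeval (fun i => ψ (h i)) D)⁻¹ ∈ A)
    (hg0 : ψ (f j) - ψ (h j) ^ Q ≠ 0) (hg : (ψ (f j) - ψ (h j) ^ Q)⁻¹ ∉ A) :
    ∃ (E' : Type) (_ : Field E') (_ : Algebra k E')
    (_ : Algebra (ZMod p) E') (_ : IsScalarTower (ZMod p) k E')
    (ψ' : R₀ →ₐ[ZMod p] E'),
    (∀ i : Fin n, i.val < j.val + 1 → ψ' (f i) = ψ' (h i) ^ Q) ∧
    MvPolynomial.aeval (fun i => ψ' (h i)) D ≠ 0 ∧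
    AlgebraicIndependent k (fun i : s => ψ' (h i)) ∧
    FiniteDimensional (fieldOf k (fun i => ψ' (h i)) s) E' ∧
    Module.finrank (fieldOf k (fun i => ψ' (h i)) s) E' ≤
      dg (fieldOf k (fun i => ψ (h i)) s) E (ψ (f j) - ψ (h j) ^ Q) := by
  let κ : IntermediateField k E := fieldOf k (fun i => ψ (h i)) s
  have hgA : ψ (f j) - ψ (h j) ^ Q ∈ A := sub_mem (hA _) (pow_mem (hA _) Q)
  let g : A := ⟨ψ (f j) - ψ (h j) ^ Q, hgA⟩
  have hg0' : g ≠ 0 := fun h0 => hg0 (congrArg Subtype.val h0)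
  have hgu : ¬ IsUnit g := by
    intro hu
    obtain ⟨w, hw⟩ := hu.exists_right_inv
    apply hg
    have h1 : (ψ (f j) - ψ (h j) ^ Q) * (w : E) = 1 := congrArg Subtype.val hw
    have h2 : (ψ (f j) - ψ (h j) ^ Q)⁻¹ = (w : E) := (eq_inv_of_mul_eq_one_right h1).symm
    rw [h2]
    exact w.2
  obtain ⟨E', iF, iκ, π, hπg, hfin, hrank⟩ := residue_exists hE A g hg0' hgu
  let ik : Algebra k E' := ((algebraMap κ E').comp (algebraMap k κ)).toAlgebra
  let iA : Algebra (ZMod p) E' := ((algebraMap k E').comp (algebraMap (ZMod p) k)).toAlgebra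
  have iT : IsScalarTower (ZMod p) k E' := IsScalarTower.of_algebraMap_eq (fun _ => rfl)
  -- the homomorphism to the residue field
  let ψA : R₀ →+* A := (ψ : R₀ →+* E).codRestrict A.toSubring hA
  let ψr : R₀ →+* E' := (π : A →+* E').comp ψA
  let ψ' : R₀ →ₐ[ZMod p] E' :=
    { ψr with
      commutes' := fun r =>
        RingHom.congr_fun (Subsingleton.elim (ψr.comp (algebraMap (ZMod p) R₀))
          (algebraMap (ZMod p) E')) r }
  have hψ' : ∀ r, ψ' r = π ⟨ψ r, hA r⟩ := fun r => rfl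
  let φ : κ →ₐ[k] E' :=
    { algebraMap κ E' with
      commutes' := fun r => rfl }
  have hφx : ∀ (r : R₀) (hr : ψ r ∈ κ), φ ⟨ψ r, hr⟩ = ψ' r := by
    intro r hr
    rw [hψ']
    exact (π.commutes ⟨ψ r, hr⟩).symm
  refine ⟨E', iF, ik, iA, iT, ψ', ?_, ?_, ?_, ?_⟩
  · intro i hi
    rcases Nat.lt_succ_iff_lt_or_eq.1 hi with hi | hi
    · rw [hψ', hψ', ← map_pow]
      congr 1
      exact Subtype.ext (hf i hi)
    · have hij : i = j := Fin.ext hi
      subst hij
      have h2 : g = ⟨ψ (f i), hA _⟩ - ⟨ψ (h i), hA _⟩ ^ Q := rfl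
      rw [h2, map_sub, sub_eq_zero, map_pow] at hπg
      exact hπg
  · have e1 : MvPolynomial.aeval (fun i => ψ' (h i)) D = ψ' (MvPolynomial.aeval h D) :=
      (MvPolynomial.comp_aeval_apply h ψ' D).symm
    have e2 : MvPolynomial.aeval (fun i => ψ (h i)) D = ψ (MvPolynomial.aeval h D) :=
      (MvPolynomial.comp_aeval_apply h ψ D).symm
    rw [e2] at hD0 hD
    rw [e1, hψ']
    have hu : IsUnit (⟨ψ (MvPolynomial.aeval h D), hA _⟩ : A) :=
      IsUnit.of_mul_eq_one ⟨_, hD⟩ (Subtype.ext (mul_inv_cancel₀ hD0))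
    exact (hu.map π).ne_zero
  · -- algebraic independence
    have hmem : ∀ i : s, ψ (h i) ∈ κ := fun i => subset_adjoin k _ ⟨i, i.2, rfl⟩
    have h1 : AlgebraicIndependent k (fun i : s => (⟨ψ (h i), hmem i⟩ : κ)) := by
      rw [← κ.val.algebraicIndependent_iff κ.val.injective]
      exact hind
    rw [← φ.algebraicIndependent_iff φ.injective] at h1
    have h2 : (φ ∘ fun i : s => (⟨ψ (h i), hmem i⟩ : κ)) = fun i : s => ψ' (h i) := by
      funext i
      exact hφx _ _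
    rwa [h2] at h1
  · have h3 := finrank_over (κ := κ) (E' := E') (fieldOf k (fun i => ψ' (h i)) s)
      (fun x => image_mem (fun i => ψ (h i)) (fun i => ψ' (h i)) s φ (fun i hi => hφx _ _) x) hfin
    exact ⟨h3.1, h3.2.trans hrank⟩

/-- BLOCK S1: passing to a residue field. -/
theorem step_quot {p n : ℕ} [Fact p.Prime] {R₀ : Type} [CommRing R₀]
    [Algebra (ZMod p) R₀] (f h : Fin n → R₀) (j : Fin n) (Q : ℕ)
    (D : MvPolynomial (Fin n) (ZMod p))
    (E : Type) [Field E] [Algebra (AlgebraicClosure (ZMod p)) E]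
    [Algebra (ZMod p) E] [IsScalarTower (ZMod p) (AlgebraicClosure (ZMod p)) E]
    (ψ : R₀ →ₐ[ZMod p] E)
    (hf : ∀ i : Fin n, i.val < j.val → ψ (f i) = ψ (h i) ^ Q)
    (hind : AlgebraicIndependent (AlgebraicClosure (ZMod p))
      (fun i : {i : Fin n | j.val ≤ i.val} => ψ (h i)))
    (hE : IsFF (fieldOf (AlgebraicClosure (ZMod p)) (fun i => ψ (h i))
      {i : Fin n | j.val + 1 ≤ i.val}) E)
    (A : Subalgebra (fieldOf (AlgebraicClosure (ZMod p)) (fun i => ψ (h i))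
      {i : Fin n | j.val + 1 ≤ i.val}) E)
    (hA : ∀ r, ψ r ∈ A) (hD0 : MvPolynomial.aeval (fun i => ψ (h i)) D ≠ 0)
    (hD : (MvPolynomial.aeval (fun i => ψ (h i)) D)⁻¹ ∈ A)
    (hg0 : ψ (f j) - ψ (h j) ^ Q ≠ 0) (hg : (ψ (f j) - ψ (h j) ^ Q)⁻¹ ∉ A) :
    Stage f h (j.val + 1) Q (dg (fieldOf (AlgebraicClosure (ZMod p)) (fun i => ψ (h i))
      {i : Fin n | j.val + 1 ≤ i.val}) E (ψ (f j) - ψ (h j) ^ Q)) D := by
  have hind' : AlgebraicIndependent (AlgebraicClosure (ZMod p))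
      (fun i : {i : Fin n | j.val + 1 ≤ i.val} => ψ (h i)) :=
    hind.comp (fun i : {i : Fin n | j.val + 1 ≤ i.val} =>
      (⟨i.1, le_trans (Nat.le_succ _) i.2⟩ : {i : Fin n | j.val ≤ i.val}))
      (fun a b hab => Subtype.ext (congrArg (fun z => z.1) hab))
  obtain ⟨E', i1, i2, i3, i4, ψ', h1, h2, h3, h4, h5⟩ := step_quot_aux f h j Q D E ψ hf
    {i : Fin n | j.val + 1 ≤ i.val} hind' hE A hA hD0 hD hg0 hg
  exact ⟨E', i1, i2, i3, i4, ψ', h1, h2, h3, h4, h5⟩

end Pool.Agent.LFZ
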