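import Pool.Agent.LFZ.CoreNil2
import Pool.Agent.LFZ.Deg3
import Pool.Agent.LFZ.Levels
import Pool.Agent.LFZ.Nonvan
import Pool.Agent.LFZ.Rel
import Pool.Agent.LFZ.StepQuot

/-!
# MP_08a057_al : from stage `j` to stage `j + 1` (the heart of the weak Hrushovski theorem)
-/

set_option autoImplicit false

namespace Pool.Agent.LFZ

open Polynomial IntermediateField

theorem dg_pow_le' {κ E : Type} [Field κ] [Field E] [Algebra κ E] [Infinite κ] (hE : IsFF κ E)
    (x : E) (m : ℕ) : dg κ E (x ^ m) ≤ m * dg κ E x := by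
  rcases Nat.eq_zero_or_pos m with rfl | hm
  · rw [pow_zero, Nat.zero_mul]
    exact (dg_eq_zero_of_isAlgebraic isAlgebraic_one).le
  · exact (dg_pow hE x hm.ne').le

/-- the final contradiction in the step -/
theorem core_contra {p n : ℕ} [Fact p.Prime] {κ E : Type} [Field κ] [Infinite κ] [Field E]
    [Algebra κ E] [Algebra (ZMod p) κ] [Algebra (ZMod p) E] [IsScalarTower (ZMod p) κ E]
    (hE : IsFF κ E) (x : Fin n → E) (j : Fin n) (N C₁ Q a K : ℕ) (g : E)
    (B : Lev p n j.val K) (β : ℕ → E) (hN : 0 < N) (hβ : ∀ l, IsAlgebraic κ (β l))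
    (hx : ∀ k : Fin n, j.val < k.val → IsAlgebraic κ (x k))
    (hH : ∑ i, dg κ E (x i) ≤ 2 * N)
    (hg : Q * N ≤ 2 * C₁ * N + dg κ E g)
    (W : Subalgebra κ E) (hW : IsW κ g W)
    (hβx : ∀ i : Fin n, i.val ≤ j.val → x i ≠ β K)
    (hβK : ∀ i : Fin n, i.val ≤ j.val → dg κ E (x i - β K)⁻¹ ≤ dg κ E (x i))
    (hB : lev j.val K Q x β B ≠ 0)
    (hmem : (∏ i : Fin n with i.val ≤ j.val, (x i - β K)⁻¹) ^ a * lev j.val K Q x β B ∈ W)
    (hgW : ∃ w ∈ W, (∏ i : Fin n with i.val ≤ j.val, (x i - β K)⁻¹) ^ a *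
      lev j.val K Q x β B = g * w) :
    Q ≤ 2 * C₁ + 2 * (a + mvC B) := by
  set u : E := ∏ i : Fin n with i.val ≤ j.val, (x i - β K)⁻¹ with hu
  have hu0 : u ≠ 0 := by
    rw [hu, Finset.prod_ne_zero_iff]
    intro i hi
    exact inv_ne_zero (sub_ne_zero.2 (hβx i (Finset.mem_filter.1 hi).2))
  have hy0 : u ^ a * lev j.val K Q x β B ≠ 0 := mul_ne_zero (pow_ne_zero _ hu0) hB
  have h1 : dg κ E g ≤ dg κ E (u ^ a * lev j.val K Q x β B) := by
    have := hW.dg_le hE ({()} : Finset Unit) (fun _ => u ^ a * lev j.val K Q x β B)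
      (by intro _ _; exact ⟨hmem, hy0⟩) (by simpa using hgW)
    simpa using this
  have h2 : dg κ E u ≤ ∑ i, dg κ E (x i) := by
    calc dg κ E u ≤ ∑ i : Fin n with i.val ≤ j.val, dg κ E (x i - β K)⁻¹ :=
          dg_prod_le hE _ _
      _ ≤ ∑ i : Fin n with i.val ≤ j.val, dg κ E (x i) :=
          Finset.sum_le_sum fun i hi => hβK i (Finset.mem_filter.1 hi).2
      _ ≤ ∑ i, dg κ E (x i) :=
          Finset.sum_le_sum_of_subset (Finset.filter_subset _ _)
  have h3 : dg κ E (lev j.val K Q x β B) ≤ mvC B * ∑ i, dg κ E (x i) := by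
    have h4 := dg_aeval_le (k₀ := ZMod p) hE B (Sum.elim x
      (fun v : Gam n j.val K => (Option.elim v.2 (β v.1) (fun k => x k.1)) ^ (Q ^ (K - v.1.val))))
    refine h4.trans (Nat.mul_le_mul_left _ ?_)
    rw [Fintype.sum_sum_type]
    simp only [Sum.elim_inl, Sum.elim_inr]
    rw [Finset.sum_eq_zero (s := (Finset.univ : Finset (Gam n j.val K))), add_zero]
    intro v _
    apply dg_eq_zero_of_isAlgebraic
    apply IsAlgebraic.pow
    rcases v.2 with _ | k
    · exact hβ _
    · exact hx k.1 k.2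
  have h5 : dg κ E g ≤ (a + mvC B) * (2 * N) := by
    calc dg κ E g ≤ dg κ E (u ^ a) + dg κ E (lev j.val K Q x β B) :=
          h1.trans (dg_mul_le hE _ _)
      _ ≤ a * ∑ i, dg κ E (x i) + mvC B * ∑ i, dg κ E (x i) :=
          Nat.add_le_add ((dg_pow_le' hE _ _).trans (Nat.mul_le_mul_left _ h2)) h3
      _ = (a + mvC B) * ∑ i, dg κ E (x i) := by ring
      _ ≤ _ := Nat.mul_le_mul_left _ hH
  have h6 : Q * N ≤ (2 * C₁ + 2 * (a + mvC B)) * N := by
    calc Q * N ≤ 2 * C₁ * N + dg κ E g := hg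
      _ ≤ 2 * C₁ * N + (a + mvC B) * (2 * N) := Nat.add_le_add_left h5 _
      _ = _ := by ring
  exact Nat.le_of_mul_le_mul_right h6 hN


/-- from stage `j` to stage `j+1`. -/
theorem step_core {p n : ℕ} [Fact p.Prime] {R₀ : Type} [CommRing R₀] [IsDomain R₀]
    [Algebra (ZMod p) R₀] [Algebra.FiniteType (ZMod p) R₀] (f h : Fin n → R₀)
    (hf : AlgebraicIndependent (ZMod p) f) (hh : AlgebraicIndependent (ZMod p) h)
    (halg : ∀ r : R₀, IsAlgebraic (Algebra.adjoin (ZMod p) (Set.range h)) r)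
    (j : Fin n) (C' : ℕ) (D : MvPolynomial (Fin n) (ZMod p)) (hD : D ≠ 0) :
    ∃ (D' : MvPolynomial (Fin n) (ZMod p)) (C : ℕ), D' ≠ 0 ∧ ∀ e : ℕ, C ≤ p ^ e →
      Stage f h j.val (p ^ e) (C' * (p ^ e) ^ j.val) D' →
      Stage f h (j.val + 1) (p ^ e) (2 * C' * (p ^ e) ^ (j.val + 1)) D := by
  classical
  obtain ⟨D₀, hD₀, hint0⟩ := exists_D0 h hh halg
  choose D1 c1 hD1 hc1 using fun i => exists_C1 h hh halg (f i)
  set C₁ : ℕ := ∑ i, c1 i with hC₁
  set DD : MvPolynomial (Fin n) (ZMod p) := D * D₀ with hDD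
  have hDD0 : DD ≠ 0 := mul_ne_zero hD hD₀
  set K : ℕ := j.val + 2 with hK
  obtain ⟨B, a, hB, hlev⟩ := levels f h hf hh halg j DD hDD0 (DD.totalDegree + 1)
    (Nat.le_succ _) K
  obtain ⟨Bs, CN, hBs, hnon⟩ := nonvanish C₁ j K B hB
  set C : ℕ := CN + (2 * n * C₁ + (2 * C₁ + 2 * (a + mvC B)) + 1 + 2 * C') with hC
  refine ⟨DD * (∏ i, D1 i) * Bs, C, mul_ne_zero (mul_ne_zero hDD0
    (Finset.prod_ne_zero_iff.2 fun i _ => hD1 i)) hBs, fun e he hS => ?_⟩
  obtain ⟨E, i1, i2, i3, i4, ψ, hfi, hD', hind, hfin, hN⟩ := hS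
  set Q : ℕ := p ^ e with hQ
  set k := AlgebraicClosure (ZMod p) with hk
  set x : Fin n → E := fun i => ψ (h i) with hx
  have hD'1 : MvPolynomial.aeval x DD ≠ 0 ∧ (∀ i, MvPolynomial.aeval x (D1 i) ≠ 0) ∧
      MvPolynomial.aeval x Bs ≠ 0 := by
    rw [map_mul, map_mul, map_prod] at hD'
    refine ⟨left_ne_zero_of_mul (left_ne_zero_of_mul hD'), fun i => ?_,
      right_ne_zero_of_mul hD'⟩
    exact Finset.prod_ne_zero_iff.1 (right_ne_zero_of_mul (left_ne_zero_of_mul hD')) i
      (Finset.mem_univ _)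
  obtain ⟨hDDx, hD1x, hBsx⟩ := hD'1
  have hDx : MvPolynomial.aeval x D ≠ 0 := by
    rw [hDD, map_mul] at hDDx
    exact left_ne_zero_of_mul hDDx
  have hD₀x : MvPolynomial.aeval x D₀ ≠ 0 := by
    rw [hDD, map_mul] at hDDx
    exact right_ne_zero_of_mul hDDx
  -- bounds in all directions
  have hdeg : ∀ (κ : Type) [Field κ] [Infinite κ] [Algebra κ E] [Algebra (ZMod p) κ]
      [IsScalarTower (ZMod p) κ E], IsFF κ E → ∀ i, dg κ E (ψ (f i)) ≤
        C₁ * ∑ i', dg κ E (x i') := by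
    intro κ _ _ _ _ _ hE i
    refine (hc1 i κ E ψ hE (hD1x i)).trans (Nat.mul_le_mul_right _ ?_)
    exact Finset.single_le_sum (f := c1) (fun _ _ => Nat.zero_le _) (Finset.mem_univ i)
  have hQpos : 0 < Q := pow_pos (Fact.out : p.Prime).pos _
  have hdeg2 : ∀ (κ : Type) [Field κ] [Infinite κ] [Algebra κ E] [Algebra (ZMod p) κ]
      [IsScalarTower (ZMod p) κ E], IsFF κ E → ∀ i : Fin n, i.val < j.val →
        Q * dg κ E (x i) ≤ C₁ * ∑ i', dg κ E (x i') := by
    intro κ _ _ _ _ _ hE i hi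
    rw [← dg_pow hE (x i) hQpos.ne', hx]
    have := hfi i hi
    simp only at this ⊢
    rw [← this]
    exact hdeg κ hE i
  haveI hinf : Infinite k := inferInstance
  have hfacts := fun l (hl : l ∈ {i : Fin n | j.val ≤ i.val}) =>
    fieldOf_facts (k := k) x {i : Fin n | j.val ≤ i.val} hind hfin l hl
  have hset : ({i : Fin n | j.val ≤ i.val} \ {j} : Set (Fin n)) =
      {i : Fin n | j.val + 1 ≤ i.val} := by
    ext i
    simp only [Set.mem_diff, Set.mem_setOf_eq, Set.mem_singleton_iff]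
    rw [Fin.ext_iff]
    omega
  have hfj := hfacts j (by simp)
  rw [hset] at hfj
  obtain ⟨hE, htr, hdgj⟩ := hfj
  set N : ℕ := Module.finrank (fieldOf k x {i : Fin n | j.val ≤ i.val}) E with hNdef
  have hNpos : 0 < N := by
    rw [← hdgj]; exact dg_pos hE htr
  set κ := fieldOf k x {i : Fin n | j.val + 1 ≤ i.val} with hκ
  haveI : Infinite κ := Infinite.of_injective (algebraMap k κ) (algebraMap k κ).injective
  have hxκ : ∀ i : Fin n, j.val < i.val → x i ∈ κ := by
    intro i hi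
    exact IntermediateField.subset_adjoin _ _ ⟨i, hi, rfl⟩
  have hxalg : ∀ i : Fin n, j.val < i.val → IsAlgebraic κ (x i) := fun i hi =>
    isAlgebraic_algebraMap (⟨x i, hxκ i hi⟩ : κ)
  have hkalg : ∀ c : k, IsAlgebraic κ (algebraMap k E c) := fun c =>
    isAlgebraic_algebraMap (⟨algebraMap k E c, κ.algebraMap_mem c⟩ : κ)
  -- the sum of degrees
  have hHN : ∑ i, dg κ E (x i) ≤ 2 * N := by
    set H : ℕ := ∑ i, dg κ E (x i) with hH
    have h1 : Q * H ≤ Q * N + n * (C₁ * H) := by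
      have h2 : ∀ i : Fin n, Q * dg κ E (x i) ≤ (if i = j then Q * N else 0) + C₁ * H := by
        intro i
        rcases lt_trichotomy i.val j.val with hlt | heq | hgt
        · exact (hdeg2 κ hE i hlt).trans (Nat.le_add_left _ _)
        · have : i = j := Fin.ext heq
          subst this
          rw [hdgj, if_pos rfl]
          exact Nat.le_add_right _ _
        · rw [dg_eq_zero_of_isAlgebraic (hxalg i hgt), Nat.mul_zero]
          exact Nat.zero_le _
      calc Q * H = ∑ i, Q * dg κ E (x i) := by rw [hH, Finset.mul_sum]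
        _ ≤ ∑ i : Fin n, ((if i = j then Q * N else 0) + C₁ * H) :=
            Finset.sum_le_sum fun i _ => h2 i
        _ = Q * N + n * (C₁ * H) := by
            rw [Finset.sum_add_distrib, Finset.sum_ite_eq' Finset.univ j]
            simp
    have h3 : 2 * (n * (C₁ * H)) ≤ Q * H := by
      have : 2 * n * C₁ ≤ Q := by omega
      calc 2 * (n * (C₁ * H)) = (2 * n * C₁) * H := by ring
        _ ≤ Q * H := Nat.mul_le_mul_right _ this
    have h4 : Q * H ≤ Q * (2 * N) := by
      have : 2 * (Q * H) ≤ 2 * (Q * N) + Q * H := by omega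
      calc Q * H ≤ 2 * (Q * N) := by omega
        _ = Q * (2 * N) := by ring
    exact Nat.le_of_mul_le_mul_left h4 hQpos
  -- the element g
  set g : E := ψ (f j) - ψ (h j) ^ Q with hg
  have hdfj : dg κ E (ψ (f j)) ≤ 2 * C₁ * N := by
    calc dg κ E (ψ (f j)) ≤ C₁ * ∑ i, dg κ E (x i) := hdeg κ hE j
      _ ≤ C₁ * (2 * N) := Nat.mul_le_mul_left _ hHN
      _ = _ := by ring
  have hdxQ : dg κ E (ψ (h j) ^ Q) = Q * N := by
    rw [dg_pow hE _ hQpos.ne']
    exact congrArg (fun t => Q * t) hdgj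
  have hg1 : Q * N ≤ 2 * C₁ * N + dg κ E g := by
    have h1 : ψ (h j) ^ Q = ψ (f j) + (-g) := by rw [hg]; ring
    rw [← hdxQ, h1]
    refine (dg_add_le hE _ _).trans ?_
    rw [dg_neg]
    exact Nat.add_le_add_right hdfj _
  have hg2 : dg κ E g ≤ 2 * Q * N := by
    have h1 : g = ψ (f j) + -(ψ (h j) ^ Q) := by rw [hg]; ring
    rw [h1]
    refine (dg_add_le hE _ _).trans ?_
    rw [dg_neg, hdxQ]
    have : 2 * C₁ ≤ Q := by omega
    have := Nat.mul_le_mul_right N this
    calc dg κ E (ψ (f j)) + Q * N ≤ 2 * C₁ * N + Q * N := Nat.add_le_add_right hdfj _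
      _ ≤ Q * N + Q * N := Nat.add_le_add_right this _
      _ = _ := by ring
  have hgpos : 0 < dg κ E g := by
    have h1 : (2 * C₁ + 1) * N ≤ Q * N := Nat.mul_le_mul_right _ (by omega)
    have h2 : (2 * C₁ + 1) * N = 2 * C₁ * N + N := by ring
    omega
  have hgtr : Transcendental κ g := by
    intro hc
    rw [dg_eq_zero_of_isAlgebraic hc] at hgpos
    exact lt_irrefl _ hgpos
  have hg0 : g ≠ 0 := fun h0 => hgtr (h0 ▸ isAlgebraic_zero)
  -- the ring A
  set d : E := MvPolynomial.aeval x DD with hd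
  set A : Subalgebra κ E := Algebra.adjoin κ (Set.range ψ ∪ {d⁻¹}) with hA
  have hψA : ∀ r, ψ r ∈ A := fun r => Algebra.subset_adjoin (Or.inl ⟨r, rfl⟩)
  have hdA : d⁻¹ ∈ A := Algebra.subset_adjoin (Or.inr rfl)
  have hstep : g⁻¹ ∉ A := by
    intro hgA
    -- choose the constants
    set T : Set k := ⋃ i : Fin n, {b : k | x i = algebraMap κ E (algebraMap k κ b) ∨
      ¬ IntAt κ g (x i - algebraMap κ E (algebraMap k κ b))⁻¹} with hT
    have hTfin : T.Finite := by
      refine Set.finite_iUnion fun i => ?_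
      exact (finite_not_intAt hE hgtr (x i)).preimage (algebraMap k κ).injective.injOn
    obtain ⟨β, hβT, hβB⟩ := hnon k E x e T (by omega) hTfin hBsx hind hfin
      (fun l hl i hi => by
        obtain ⟨hEl, -, -⟩ := hfacts l hl
        haveI : Infinite (fieldOf k x ({i : Fin n | j.val ≤ i.val} \ {l})) :=
          Infinite.of_injective (algebraMap k _) (algebraMap k _).injective
        exact hdeg2 _ hEl i hi)
    set β' : ℕ → E := fun l => algebraMap k E (β l) with hβ'
    have hβ1 : ∀ (l : ℕ) (i : Fin n), x i ≠ β' l ∧ IntAt κ g (x i - β' l)⁻¹ := by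
      intro l i
      have := hβT l
      rw [hT, Set.mem_iUnion] at this
      push Not at this
      have := this i
      simp only [Set.mem_setOf_eq, not_or, not_not] at this
      exact this
    obtain ⟨W, hW, hWT⟩ := exists_isW hE hgtr
      ((Set.univ : Set (Fin (K + 1) × Fin n)).image (fun q => (x q.2 - β' q.1.val)⁻¹))
      (Set.finite_univ.image _) (by
        rintro y ⟨q, -, rfl⟩
        exact (hβ1 q.1.val q.2).2)
    have hWβ : ∀ l ≤ K, ∀ i : Fin n, (x i - β' l)⁻¹ ∈ W := by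
      intro l hl i
      exact hWT _ ⟨(⟨l, by omega⟩, i), trivial, rfl⟩
    have hgW : g ∈ W := hW.choose
    have hβW : ∀ l, β' l ∈ W := by
      intro l
      have : β' l = algebraMap κ E (algebraMap k κ (β l)) := rfl
      rw [this]
      exact W.algebraMap_mem _
    have hxW : ∀ i : Fin n, j.val < i.val → x i ∈ W := by
      intro i hi
      exact W.algebraMap_mem (⟨x i, hxκ i hi⟩ : κ)
    -- nilpotency
    obtain ⟨hy0W, hnil⟩ := core_nil (κ := κ) x j (β' 0) g hg0 DD hDDx W hgW (hβW 0)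
      (fun i _ => ⟨(hβ1 0 i).1, hWβ 0 (Nat.zero_le _) i⟩) hxW (by
        intro S hSκ hSx hSd
        have hDxS : MvPolynomial.aeval x D ∈ S := by
          have h0 : ∀ c : ZMod p, algebraMap (ZMod p) E c ∈ S := fun c => by
            rw [IsScalarTower.algebraMap_apply (ZMod p) κ E]; exact hSκ _
          have := pow_mul_aeval_mem S h0 (1 : E) S.one_mem x
            (fun i => by rw [one_mul]; exact hSx i) D _ le_rfl
          simpa using this
        have hD₀S : (MvPolynomial.aeval x D₀)⁻¹ ∈ S := by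
          have h1 : (MvPolynomial.aeval x D₀)⁻¹ = MvPolynomial.aeval x D *
              (MvPolynomial.aeval x DD)⁻¹ := by
            rw [hDD, map_mul, mul_inv, ← mul_assoc, mul_inv_cancel₀ hDx, one_mul]
          rw [h1]
          exact S.mul_mem hDxS hSd
        have hψS := hint0 E ψ S hSx hD₀x hD₀S
        -- all elements of A are integral over S
        have hAS : ∀ y ∈ A, IsIntegral S y := by
          intro y hy
          induction hy using Algebra.adjoin_induction with
          | mem y hy =>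
            rcases hy with ⟨r, rfl⟩ | hy
            · exact hψS r
            · rw [Set.mem_singleton_iff.1 hy]
              exact isIntegral_algebraMap (x := (⟨d⁻¹, hSd⟩ : S))
          | algebraMap c => exact isIntegral_algebraMap (x := (⟨algebraMap κ E c, hSκ c⟩ : S))
          | add y z _ _ hy hz => exact hy.add hz
          | mul y z _ _ hy hz => exact hy.mul hz
        exact hAS _ hgA)
    have hQK : dg κ E g ≤ Q ^ K := by
      calc dg κ E g ≤ 2 * Q * N := hg2
        _ ≤ 2 * Q * (C' * Q ^ j.val) := Nat.mul_le_mul_left _ hN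
        _ = (2 * C') * (Q * Q ^ j.val) := by ring
        _ ≤ Q * (Q * Q ^ j.val) := Nat.mul_le_mul_right _ (by omega)
        _ = Q ^ K := by rw [hK]; ring
    obtain ⟨w0, hw0, hw0'⟩ := hW.pow_mem hy0W hnil hQK
    obtain ⟨hyK, w, hw, w', hw', hyKe⟩ := hlev E ψ e β' W.toSubring g hgW
      (fun v hv => hW.inv_mem hv) hfi (by rw [hg]; ring)
      (fun l hl i hi => ⟨(hβ1 l i).1, hWβ l hl i⟩) hβW hxW
    have hcon := core_contra hE x j N C₁ Q a K g B β' hNpos
      (fun l => hkalg _) hxalg hHN hg1 W hW (fun i _ => (hβ1 K i).1)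
      (fun i _ => by
        rw [dg_inv]
        have : x i - β' K = x i - algebraMap κ E (algebraMap k κ (β K)) := rfl
        rw [this, dg_sub_algebraMap])
      hβB hyK (by
        refine ⟨w * w0 + w', W.add_mem (W.mul_mem hw hw0) hw', ?_⟩
        have h5 := hyKe
        rw [hw0'] at h5
        rw [h5]; ring)
    omega
  -- conclusion
  have hDA : (MvPolynomial.aeval x D)⁻¹ ∈ A := by
    have h1 : (MvPolynomial.aeval x D)⁻¹ = MvPolynomial.aeval x D₀ * d⁻¹ := by
      rw [hd, hDD, map_mul, mul_inv, mul_comm (MvPolynomial.aeval x D)⁻¹, ← mul_assoc,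
        mul_inv_cancel₀ hD₀x, one_mul]
    rw [h1]
    refine A.mul_mem ?_ hdA
    have h2 : MvPolynomial.aeval x D₀ = ψ (MvPolynomial.aeval h D₀) := by
      rw [MvPolynomial.comp_aeval_apply]
    rw [h2]
    exact hψA _
  have hfinal := step_quot f h j Q D E ψ hfi hind hE A hψA hDx hDA hg0 hstep
  refine hfinal.mono ?_
  calc dg κ E g ≤ 2 * Q * N := hg2
    _ ≤ 2 * Q * (C' * Q ^ j.val) := Nat.mul_le_mul_left _ hN
    _ = 2 * C' * Q ^ (j.val + 1) := by ring

end Pool.Agent.LFZ
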