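import Pool.Agent.LFZ.Defs

set_option autoImplicit false

/-!
Lemmas for the step from stage `j` to stage `j + 1`.
-/

namespace Pool.Agent.LFZ
open Polynomial IntermediateField

theorem nilp {κ E : Type} [Field κ] [Field E] [Algebra κ E] (W : Subalgebra κ E) {g y : E}
    (hg : g ∈ W) (hg0 : g ≠ 0) (hy : y ∈ W) (S : Subring E)
    (hS : ∀ z ∈ S, ∃ m : ℕ, y ^ m * z ∈ W)
    (hint : IsIntegral S g⁻¹) : ∃ m : ℕ, ∃ w ∈ W, y ^ m = g * w := by
  obtain ⟨P, hP, hPe⟩ := hint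
  have hall : ∀ d : ℕ, ∃ m : ℕ, ∀ i < d, y ^ m * (P.coeff i : E) ∈ W := by
    intro d
    induction d with
    | zero => exact ⟨0, fun i hi => absurd hi (by omega)⟩
    | succ d ih =>
      obtain ⟨m, hm⟩ := ih
      obtain ⟨m2, hm2⟩ := hS (P.coeff d) (P.coeff d).2
      refine ⟨m + m2, fun i hi => ?_⟩
      rcases Nat.lt_succ_iff_lt_or_eq.1 hi with h | rfl
      · have := W.mul_mem (W.pow_mem hy m2) (hm i h)
        convert this using 1; ring
      · have := W.mul_mem (W.pow_mem hy m) hm2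
        convert this using 1; ring
  obtain ⟨m, hm⟩ := hall P.natDegree
  rw [eval₂_eq_sum_range, Finset.sum_range_succ, Polynomial.Monic.coeff_natDegree hP, map_one,
    one_mul] at hPe
  set d := P.natDegree with hd
  have h1 : (1 : E) + ∑ i ∈ Finset.range d, (P.coeff i : E) * g ^ (d - i) = 0 := by
    have h2 := congrArg (fun z => g ^ d * z) hPe
    simp only [mul_add, mul_zero, Finset.mul_sum] at h2
    rw [← h2, add_comm]
    congr 1
    · refine Finset.sum_congr rfl fun i hi => ?_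
      have hi' : i < d := Finset.mem_range.1 hi
      have : g ^ d = g ^ (d - i) * g ^ i := by rw [← pow_add]; congr 1; omega
      rw [this]
      change _ = g ^ (d - i) * g ^ i * ((P.coeff i : E) * g⁻¹ ^ i)
      have h5 : g ^ i * g⁻¹ ^ i = 1 := by rw [← mul_pow, mul_inv_cancel₀ hg0, one_pow]
      calc (P.coeff i : E) * g ^ (d - i) = (P.coeff i : E) * g ^ (d - i) * (g ^ i * g⁻¹ ^ i) := by
            rw [h5, mul_one]
        _ = _ := by ring
    · rw [← mul_pow, mul_inv_cancel₀ hg0, one_pow]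
  refine ⟨m, - ∑ i ∈ Finset.range d, (y ^ m * (P.coeff i : E)) * g ^ (d - 1 - i), ?_, ?_⟩
  · refine W.neg_mem (W.sum_mem fun i hi => W.mul_mem (hm i (Finset.mem_range.1 hi))
      (W.pow_mem hg _))
  · have h3 : (1 : E) = - ∑ i ∈ Finset.range d, (P.coeff i : E) * g ^ (d - i) :=
      eq_neg_of_add_eq_zero_left h1
    calc y ^ m = y ^ m * 1 := (mul_one _).symm
      _ = y ^ m * (- ∑ i ∈ Finset.range d, (P.coeff i : E) * g ^ (d - i)) := by rw [← h3]
      _ = _ := by
        rw [mul_neg, mul_neg, Finset.mul_sum, Finset.mul_sum]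
        congr 1
        refine Finset.sum_congr rfl fun i hi => ?_
        have hi' : i < d := Finset.mem_range.1 hi
        have : d - i = (d - 1 - i) + 1 := by omega
        rw [this, pow_succ]
        ring

/-- in a finite-dimensional algebra a nilpotent element has nilpotency index at most the
dimension -/
theorem pow_finrank_of_nilpotent {κ A : Type} [Field κ] [CommRing A] [Algebra κ A]
    [Module.Finite κ A] {y : A} (hy : IsNilpotent y) {N : ℕ} (hN : Module.finrank κ A ≤ N) :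
    y ^ N = 0 := by
  have h1 : IsNilpotent (LinearMap.mulLeft κ y) := by
    obtain ⟨m, hm⟩ := hy
    refine ⟨m, ?_⟩
    rw [LinearMap.pow_mulLeft, hm]
    exact LinearMap.mulLeft_zero_eq_zero κ A
  have h2 := LinearMap.aeval_self_charpoly (LinearMap.mulLeft κ y)
  rw [h1.charpoly_eq_X_pow_finrank, map_pow, aeval_X, LinearMap.pow_mulLeft] at h2
  have h3 : y ^ Module.finrank κ A = 0 := by
    have := congrArg (fun L => L 1) h2
    simpa using this
  obtain ⟨c, rfl⟩ := Nat.exists_eq_add_of_le hN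
  rw [pow_add, h3, zero_mul]

theorem IsW.pow_mem {κ E : Type} [Field κ] [Field E] [Algebra κ E] {W : Subalgebra κ E} {g y : E}
    (hW : IsW κ g W) (hy : y ∈ W) (h : ∃ m : ℕ, ∃ w ∈ W, y ^ m = g * w) {N : ℕ}
    (hN : dg κ E g ≤ N) : ∃ w ∈ W, y ^ N = g * w := by
  obtain ⟨hg, hfin, hrank, -⟩ := hW
  obtain ⟨m, w, hw, hm⟩ := h
  set I : Ideal W := Ideal.span {(⟨g, hg⟩ : W)} with hI
  have h1 : IsNilpotent (Ideal.Quotient.mk I (⟨y, hy⟩ : W)) := by
    refine ⟨m, ?_⟩
    rw [← map_pow, Ideal.Quotient.eq_zero_iff_mem, hI, Ideal.mem_span_singleton']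
    refine ⟨⟨w, hw⟩, ?_⟩
    apply Subtype.ext
    simp only [MulMemClass.mk_mul_mk, SubmonoidClass.mk_pow]
    rw [hm, mul_comm]
  have h2 := pow_finrank_of_nilpotent (κ := κ) h1 (N := N) (by rw [hrank]; exact hN)
  rw [← map_pow, Ideal.Quotient.eq_zero_iff_mem, hI, Ideal.mem_span_singleton'] at h2
  obtain ⟨⟨w', hw'⟩, h3⟩ := h2
  refine ⟨w', hw', ?_⟩
  have := congrArg Subtype.val h3
  simp only [MulMemClass.mk_mul_mk, SubmonoidClass.mk_pow] at this
  rw [← this, mul_comm]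

theorem IsW.inv_mem {κ E : Type} [Field κ] [Field E] [Algebra κ E] {W : Subalgebra κ E} {g : E}
    (hW : IsW κ g W) {w : E} (hw : w ∈ W) : 1 + g * w ≠ 0 ∧ (1 + g * w)⁻¹ ∈ W := by
  obtain ⟨hg, -, -, hu⟩ := hW
  obtain ⟨v, hv⟩ := hu ⟨w, hw⟩
  have h1 : ((v : W) : E) = 1 + g * w := by
    rw [hv]; rfl
  have h2 : (1 + g * w) * ((v⁻¹ : Wˣ) : W) = (1 : E) := by
    rw [← h1, ← Subalgebra.coe_mul, v.mul_inv, Subalgebra.coe_one]
  refine ⟨left_ne_zero_of_mul_eq_one h2, ?_⟩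
  rw [inv_eq_of_mul_eq_one_right h2]
  exact ((v⁻¹ : Wˣ) : W).2

theorem Stage.mono {p n : ℕ} [Fact p.Prime] {R₀ : Type} [CommRing R₀] [Algebra (ZMod p) R₀]
    {f h : Fin n → R₀} {j Q N N' : ℕ} {D : MvPolynomial (Fin n) (ZMod p)}
    (hS : Stage f h j Q N D) (hN : N ≤ N') : Stage f h j Q N' D := by
  obtain ⟨E, i1, i2, i3, i4, ψ, h1, h2, h3, h4, h5⟩ := hS
  exact ⟨E, i1, i2, i3, i4, ψ, h1, h2, h3, h4, h5.trans hN⟩

end Pool.Agent.LFZ
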