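import Pool.Agent.LFZ.CoreLem

set_option autoImplicit false

/-!
The element `y₀` is nilpotent modulo `g` if `g` is invertible in `A`.
-/

namespace Pool.Agent.LFZ
open Polynomial IntermediateField

/-- elements `z` with `y ^ m * z ∈ W` for some `m` -/
def satRing {κ E : Type} [Field κ] [Field E] [Algebra κ E] (W : Subalgebra κ E) (y : E)
    (hy : y ∈ W) : Subring E where
  carrier := {z | ∃ m : ℕ, y ^ m * z ∈ W}
  mul_mem' := by
    rintro a b ⟨m, hm⟩ ⟨l, hl⟩
    refine ⟨m + l, ?_⟩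
    have := W.mul_mem hm hl
    convert this using 1; ring
  one_mem' := ⟨0, by simpa using W.one_mem⟩
  add_mem' := by
    rintro a b ⟨m, hm⟩ ⟨l, hl⟩
    refine ⟨m + l, ?_⟩
    have := W.add_mem (W.mul_mem (W.pow_mem hy l) hm) (W.mul_mem (W.pow_mem hy m) hl)
    convert this using 1; ring
  zero_mem' := ⟨0, by simpa using W.zero_mem⟩
  neg_mem' := by
    rintro a ⟨m, hm⟩
    refine ⟨m, ?_⟩
    have := W.neg_mem hm
    convert this using 1; ring

theorem mem_satRing {κ E : Type} [Field κ] [Field E] [Algebra κ E] {W : Subalgebra κ E} {y : E}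
    {hy : y ∈ W} {z : E} : z ∈ satRing W y hy ↔ ∃ m : ℕ, y ^ m * z ∈ W := Iff.rfl

theorem le_satRing {κ E : Type} [Field κ] [Field E] [Algebra κ E] {W : Subalgebra κ E} {y : E}
    {hy : y ∈ W} {z : E} (hz : z ∈ W) : z ∈ satRing W y hy := ⟨0, by simpa using hz⟩

theorem pow_mul_aeval_mem {k₀ E : Type} [Field k₀] [Field E] [Algebra k₀ E] {σ : Type} [Fintype σ]
    (W : Subring E) (hk : ∀ c : k₀, algebraMap k₀ E c ∈ W) (u : E) (hu : u ∈ W) (x : σ → E)
    (hx : ∀ i, u * x i ∈ W) (P : MvPolynomial σ k₀) (a : ℕ) (ha : P.totalDegree ≤ a) :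
    u ^ a * MvPolynomial.aeval x P ∈ W := by
  classical
  rw [MvPolynomial.aeval_def, MvPolynomial.eval₂_eq', Finset.mul_sum]
  refine W.sum_mem fun m hm => ?_
  have h1 : ∑ i, m i ≤ a := by
    refine le_trans ?_ ha
    have := MvPolynomial.le_totalDegree hm
    rwa [Finsupp.sum_fintype _ _ (fun _ => rfl)] at this
  have h2 : u ^ a * (algebraMap k₀ E (MvPolynomial.coeff m P) * ∏ i, x i ^ m i) =
      algebraMap k₀ E (MvPolynomial.coeff m P) * (u ^ (a - ∑ i, m i) * ∏ i, (u * x i) ^ m i) := by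
    have h3 : ∏ i, (u * x i) ^ m i = u ^ (∑ i, m i) * ∏ i, x i ^ m i := by
      rw [← Finset.prod_pow_eq_pow_sum, ← Finset.prod_mul_distrib]
      exact Finset.prod_congr rfl fun i _ => mul_pow _ _ _
    rw [h3]
    have h4 : u ^ a = u ^ (a - ∑ i, m i) * u ^ (∑ i, m i) := by
      rw [← pow_add]; congr 1; omega
    rw [h4]; ring
  rw [h2]
  exact W.mul_mem (hk _) (W.mul_mem (W.pow_mem hu _)
    (W.prod_mem fun i _ => W.pow_mem (hx i) _))

/-- `u * x i ∈ W` for `u = ∏ (x i - β)⁻¹` -/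
theorem core_u_mul_mem {E : Type} [Field E] {n : ℕ} (W : Subring E) (x : Fin n → E) (j : ℕ) (β : E)
    (hβ : β ∈ W) (hx : ∀ i : Fin n, i.val ≤ j → x i ≠ β ∧ (x i - β)⁻¹ ∈ W)
    (hx' : ∀ k : Fin n, j < k.val → x k ∈ W) (i : Fin n) :
    (∏ i : Fin n with i.val ≤ j, (x i - β)⁻¹) * x i ∈ W := by
  classical
  have hu : (∏ i : Fin n with i.val ≤ j, (x i - β)⁻¹) ∈ W :=
    W.prod_mem fun i hi => (hx i (Finset.mem_filter.1 hi).2).2
  rcases le_or_gt i.val j with hi | hi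
  · have hi' : i ∈ Finset.univ.filter (fun i : Fin n => i.val ≤ j) := by simp [hi]
    have h1 := Finset.mul_prod_erase _ (fun i : Fin n => (x i - β)⁻¹) hi'
    have h0 : x i - β ≠ 0 := sub_ne_zero.2 (hx i hi).1
    have h2 : (∏ i : Fin n with i.val ≤ j, (x i - β)⁻¹) * x i =
        β * (∏ i : Fin n with i.val ≤ j, (x i - β)⁻¹) +
        ∏ l ∈ (Finset.univ.filter (fun i : Fin n => i.val ≤ j)).erase i, (x l - β)⁻¹ := by
      rw [← h1]
      field_simp
      ring
    rw [h2]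
    refine W.add_mem (W.mul_mem hβ hu) (W.prod_mem fun l hl => ?_)
    exact (hx l (Finset.mem_filter.1 (Finset.mem_of_mem_erase hl)).2).2
  · exact W.mul_mem hu (hx' i hi)

end Pool.Agent.LFZ
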