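import Pool.Agent.LFZ.CoreNil

set_option autoImplicit false

namespace Pool.Agent.LFZ
open Polynomial IntermediateField

/-- If `g⁻¹` lies in a ring all of whose elements are integral over every ring containing
`κ`, the `x i` and the inverse of `DD(x)`, then `u^(deg DD + 1) DD(x)` is nilpotent modulo `g`. -/
theorem core_nil {p n : ℕ} [Fact p.Prime] {κ E : Type} [Field κ] [Field E]
    [Algebra κ E] [Algebra (ZMod p) κ] [Algebra (ZMod p) E] [IsScalarTower (ZMod p) κ E]
    (x : Fin n → E) (j : Fin n) (β : E) (g : E) (hg0 : g ≠ 0)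
    (DD : MvPolynomial (Fin n) (ZMod p)) (hDD : MvPolynomial.aeval x DD ≠ 0)
    (W : Subalgebra κ E) (hgW : g ∈ W) (hβ : β ∈ W)
    (hx : ∀ i : Fin n, i.val ≤ j.val → x i ≠ β ∧ (x i - β)⁻¹ ∈ W)
    (hx' : ∀ k : Fin n, j.val < k.val → x k ∈ W)
    (hint : ∀ S : Subring E, (∀ c : κ, algebraMap κ E c ∈ S) → (∀ i, x i ∈ S) →
      (MvPolynomial.aeval x DD)⁻¹ ∈ S → IsIntegral S g⁻¹) :
    (∏ i : Fin n with i.val ≤ j.val, (x i - β)⁻¹) ^ (DD.totalDegree + 1) *
        MvPolynomial.aeval x DD ∈ W ∧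
    ∃ m : ℕ, ∃ w ∈ W, ((∏ i : Fin n with i.val ≤ j.val, (x i - β)⁻¹) ^ (DD.totalDegree + 1) *
        MvPolynomial.aeval x DD) ^ m = g * w := by
  set u : E := ∏ i : Fin n with i.val ≤ j.val, (x i - β)⁻¹ with hu
  set d : E := MvPolynomial.aeval x DD with hd
  have hκW : ∀ c : ZMod p, algebraMap (ZMod p) E c ∈ W.toSubring := by
    intro c
    rw [IsScalarTower.algebraMap_apply (ZMod p) κ E]
    exact W.algebraMap_mem _
  have hβ' : β ∈ W.toSubring := hβ
  have huW : u ∈ W.toSubring :=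
    W.toSubring.prod_mem fun i hi => (hx i (Finset.mem_filter.1 hi).2).2
  have hux : ∀ i, u * x i ∈ W.toSubring := core_u_mul_mem W.toSubring x j.val β hβ' hx hx'
  have hd1 : u ^ DD.totalDegree * d ∈ W.toSubring :=
    pow_mul_aeval_mem W.toSubring hκW u huW x hux DD _ le_rfl
  have hd2 : u ^ (DD.totalDegree + 1) * d ∈ W.toSubring :=
    pow_mul_aeval_mem W.toSubring hκW u huW x hux DD _ (Nat.le_succ _)
  have hd2' : u ^ (DD.totalDegree + 1) * d ∈ W := hd2
  refine ⟨hd2, nilp W hgW hg0 hd2' (satRing W _ hd2') (fun z hz => hz) ?_⟩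
  apply hint
  · intro c
    exact le_satRing (W.algebraMap_mem c)
  · intro i
    refine ⟨1, ?_⟩
    rw [pow_one]
    have : u ^ (DD.totalDegree + 1) * d * x i = (u ^ DD.totalDegree * d) * (u * x i) := by ring
    rw [this]
    exact W.toSubring.mul_mem hd1 (hux i)
  · refine ⟨1, ?_⟩
    rw [pow_one]
    have : u ^ (DD.totalDegree + 1) * d * d⁻¹ = u ^ (DD.totalDegree + 1) := by
      rw [mul_assoc, mul_inv_cancel₀ hDD, mul_one]
    rw [this]
    exact W.toSubring.pow_mem huW _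

end Pool.Agent.LFZ
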