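import Mathlib

/-!
# MP_08a057_al : definitions for: finitely presented (locally free)-by-Z groups are residually finite
-/

set_option autoImplicit false

namespace Pool.Agent.LFZ

open Polynomial IntermediateField

/-! ## Part A : degrees in function fields of one variable -/

section Deg

variable (κ E : Type) [Field κ] [Field E] [Algebra κ E]

/-- `E` is a function field of one variable over `κ`. -/
def IsFF : Prop := ∃ z : E, Transcendental κ z ∧ FiniteDimensional κ⟮z⟯ E

open Classical in
/-- The degree of `x` : `[E : κ(x)]` if `x` is transcendental over `κ`, and `0` otherwise. -/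
noncomputable def dg (x : E) : ℕ := if Transcendental κ x then Module.finrank κ⟮x⟯ E else 0

variable {E}

/-- `x` is integral over the local ring `κ[u]_(u)` : there is a polynomial relation for `x` with
coefficients in `κ[u]` whose leading coefficient does not vanish at `u = 0`. -/
def IntAt (u x : E) : Prop :=
  ∃ P : Polynomial (Polynomial κ), P.leadingCoeff.eval 0 ≠ 0 ∧
    Polynomial.eval₂ ((Polynomial.aeval u : κ[X] →ₐ[κ] E) : κ[X] →+* E) x P = 0

/-- `W` is a ring of the following kind: it contains `u`, `W / uW` has dimension `dg u` over `κ`,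
and `u` is in the Jacobson radical. -/
def IsW (u : E) (W : Subalgebra κ E) : Prop :=
  ∃ hu : u ∈ W, Module.Finite κ (W ⧸ Ideal.span {(⟨u, hu⟩ : W)}) ∧
    Module.finrank κ (W ⧸ Ideal.span {(⟨u, hu⟩ : W)}) = dg κ E u ∧
    ∀ w : W, IsUnit (1 + ⟨u, hu⟩ * w)

end Deg

/-- A crude bound for the degree of values of a polynomial: the sum of the degrees of all its
monomials. -/
noncomputable def mvC {σ k : Type} [CommSemiring k] (P : MvPolynomial σ k) : ℕ :=
  ∑ m ∈ P.support, m.degree

/-! ## Part B : weak Hrushovski -/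

/-- The names of the constants at level `K` when coordinate `j` is treated: `(l, some k)` (with
`j < k`) stands for (a Frobenius power of) `h_k`, introduced at level `l`, and `(l, none)` for (a
Frobenius power of) the auxiliary constant `β_l`. -/
abbrev Gam (n j K : ℕ) : Type := Fin K × Option {k : Fin n // j < k.val}

/-- Polynomials of level `K`. -/
abbrev Lev (p n j K : ℕ) : Type := MvPolynomial (Fin n ⊕ Gam n j K) (ZMod p)

/-- Evaluation of polynomials of level `K` in a field `E` at a point `h`, constants `h_k^(Q^(K-l))`,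
`β_l^(Q^(K-l))`. -/
noncomputable def lev {p n : ℕ} {E : Type} [Field E] [Algebra (ZMod p) E] (j K Q : ℕ)
    (h : Fin n → E) (β : ℕ → E) : Lev p n j K →ₐ[ZMod p] E :=
  MvPolynomial.aeval (Sum.elim h
    (fun v => (Option.elim v.2 (β v.1) (fun k => h k.1)) ^ (Q ^ (K - v.1.val))))

/-- the constants of level `K` inside those of level `K + 1` -/
def upG {n j K : ℕ} (v : Gam n j K) : Gam n j (K + 1) := (v.1.castSucc, v.2)

/-- the field generated over `k` by the `x i`, `i ∈ s` -/
abbrev fieldOf (k : Type) {E : Type} [Field k] [Field E] [Algebra k E] {n : ℕ} (x : Fin n → E)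
    (s : Set (Fin n)) : IntermediateField k E := IntermediateField.adjoin k (x '' s)

/-- data at stage `j` -/
def Stage {p n : ℕ} [Fact p.Prime] {R₀ : Type} [CommRing R₀] [Algebra (ZMod p) R₀]
    (f h : Fin n → R₀) (j Q N : ℕ) (D : MvPolynomial (Fin n) (ZMod p)) : Prop :=
  ∃ (E : Type) (_ : Field E) (_ : Algebra (AlgebraicClosure (ZMod p)) E)
    (_ : Algebra (ZMod p) E) (_ : IsScalarTower (ZMod p) (AlgebraicClosure (ZMod p)) E)
    (ψ : R₀ →ₐ[ZMod p] E),
    (∀ i : Fin n, i.val < j → ψ (f i) = ψ (h i) ^ Q) ∧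
    MvPolynomial.aeval (fun i => ψ (h i)) D ≠ 0 ∧
    AlgebraicIndependent (AlgebraicClosure (ZMod p))
      (fun i : {i : Fin n | j ≤ i.val} => ψ (h i)) ∧
    FiniteDimensional
      (fieldOf (AlgebraicClosure (ZMod p)) (fun i => ψ (h i)) {i : Fin n | j ≤ i.val}) E ∧
    Module.finrank
      (fieldOf (AlgebraicClosure (ZMod p)) (fun i => ψ (h i)) {i : Fin n | j ≤ i.val}) E ≤ N

/-! ## Part C : groups -/

/-- every finitely generated subgroup of `N` is free -/
def LocallyFree {G : Type} [Group G] (N : Subgroup G) : Prop :=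
  ∀ H : Subgroup G, H ≤ N → H.FG → IsFreeGroup H

/-- residual finiteness -/
def RF (G : Type) [Group G] : Prop :=
  ∀ g : G, g ≠ 1 → ∃ N : Subgroup G, N.Normal ∧ N.index ≠ 0 ∧ g ∉ N

/-- The ideal of relations between the matrix entries of the `x j` valid in all representations
of `H` in `GL₂` over commutative `𝔽_p`-algebras. -/
def relI (p : ℕ) {H J : Type} [Group H] (x : J → H) :
    Ideal (MvPolynomial (J × Fin 2 × Fin 2) (ZMod p)) where
  carrier := {P | ∀ (A : Type) [CommRing A] [Algebra (ZMod p) A] (ρ : H →* GL (Fin 2) A),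
    MvPolynomial.aeval
      (fun v : J × Fin 2 × Fin 2 => (ρ (x v.1) : Matrix (Fin 2) (Fin 2) A) v.2.1 v.2.2) P = 0}
  add_mem' ha hb := by
    intro A _ _ ρ
    rw [map_add, ha A ρ, hb A ρ, add_zero]
  zero_mem' := by
    intro A _ _ ρ
    rw [map_zero]
  smul_mem' c x hx := by
    intro A _ _ ρ
    rw [smul_eq_mul, map_mul, hx A ρ, mul_zero]

section Window

variable {G : Type} [Group G] {n : ℕ}

/-- the subgroup generated by the conjugates `t^l s_i t^-l`, `a ≤ l ≤ b` -/
def Pw (t : G) (s : Fin n → G) (a b : ℤ) : Subgroup G :=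
  Subgroup.closure {y | ∃ l : ℤ, a ≤ l ∧ l ≤ b ∧ ∃ i, y = t ^ l * s i * t ^ (-l)}

theorem mem_Pw (t : G) (s : Fin n → G) {a b l : ℤ} (ha : a ≤ l) (hb : l ≤ b) (i : Fin n) :
    t ^ l * s i * t ^ (-l) ∈ Pw t s a b :=
  Subgroup.subset_closure ⟨l, ha, hb, i, rfl⟩

end Window

end Pool.Agent.LFZ
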