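import Pool.Agent.LFZ.Defs

/-!
# MP_08a057_al, block A1: degrees of elements in function fields of one variable
-/

set_option autoImplicit false

namespace Pool.Agent.LFZ

open Polynomial IntermediateField

open scoped IntermediateField.algebraAdjoinAdjoin

section A1

variable {κ E : Type} [Field κ] [Field E] [Algebra κ E]

theorem IsFF.finite (hE : IsFF κ E) {x : E} (hx : Transcendental κ x) :
    FiniteDimensional κ⟮x⟯ E := by
  obtain ⟨z, hz, hfin⟩ := hE
  -- `E` is algebraic over `κ[z]`
  have alg1 : Algebra.IsAlgebraic κ⟮z⟯ E := inferInstance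
  have alg2 : Algebra.IsAlgebraic (Algebra.adjoin κ {z}) E :=
    (IsFractionRing.comap_isAlgebraic_iff (K := κ⟮z⟯)).2 alg1
  have htr : Algebra.trdeg κ E ≤ Cardinal.mk Unit := by
    have := Algebra.IsAlgebraic.trdeg_le_cardinalMk κ ({z} : Set E)
    simpa using this
  have hxi : AlgebraicIndependent κ (fun _ : Unit => x) :=
    algebraicIndependent_unique_type_iff.2 hx
  have hb : IsTranscendenceBasis κ (fun _ : Unit => x) :=
    hxi.isTranscendenceBasis_of_trdeg_le_of_finite htr
  have alg3 : Algebra.IsAlgebraic κ⟮x⟯ E := by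
    have := hb.isAlgebraic_field
    rwa [Set.range_const] at this
  have ess1 : Algebra.EssFiniteType κ κ⟮z⟯ :=
    essFiniteType_iff.2 (fg_adjoin_of_finite (Set.finite_singleton z))
  have ess2 : Algebra.EssFiniteType κ E := Algebra.EssFiniteType.comp κ κ⟮z⟯ E
  have ess3 : Algebra.EssFiniteType κ⟮x⟯ E := Algebra.EssFiniteType.of_comp κ κ⟮x⟯ E
  exact Algebra.finite_of_essFiniteType_of_isAlgebraic

theorem dg_eq_zero_of_isAlgebraic {x : E} (hx : IsAlgebraic κ x) : dg κ E x = 0 :=
  if_neg (fun h => h hx)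

theorem dg_of_transcendental {x : E} (hx : Transcendental κ x) :
    dg κ E x = Module.finrank κ⟮x⟯ E := if_pos hx

theorem dg_pos (hE : IsFF κ E) {x : E} (hx : Transcendental κ x) : 0 < dg κ E x := by
  have := hE.finite hx
  rw [dg_of_transcendental hx]
  exact Module.finrank_pos

theorem dg_congr {x y : E} (h : κ⟮x⟯ = κ⟮y⟯) (h' : IsAlgebraic κ x ↔ IsAlgebraic κ y) :
    dg κ E x = dg κ E y := by
  by_cases hx : IsAlgebraic κ x
  · rw [dg_eq_zero_of_isAlgebraic hx, dg_eq_zero_of_isAlgebraic (h'.1 hx)]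
  · rw [dg_of_transcendental hx, dg_of_transcendental (fun hy => hx (h'.2 hy)), h]

theorem dg_congr_of_mem {x y : E} (h1 : x ∈ κ⟮y⟯) (h2 : y ∈ κ⟮x⟯)
    (h' : IsAlgebraic κ x ↔ IsAlgebraic κ y) : dg κ E x = dg κ E y :=
  dg_congr (le_antisymm (adjoin_simple_le_iff.2 h1) (adjoin_simple_le_iff.2 h2)) h'

theorem dg_inv (x : E) : dg κ E x⁻¹ = dg κ E x := by
  refine dg_congr_of_mem (inv_mem (mem_adjoin_simple_self κ x)) ?_ ?_
  · have := inv_mem (mem_adjoin_simple_self κ x⁻¹)
    rwa [inv_inv] at this
  · exact IsAlgebraic.inv_iff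

theorem dg_neg (x : E) : dg κ E (-x) = dg κ E x := by
  refine dg_congr_of_mem (neg_mem (mem_adjoin_simple_self κ x)) ?_ ?_
  · have := neg_mem (mem_adjoin_simple_self κ (-x))
    rwa [neg_neg] at this
  · constructor
    · intro h
      have := h.neg
      rwa [neg_neg] at this
    · exact fun h => h.neg

theorem dg_sub_algebraMap (x : E) (β : κ) : dg κ E (x - algebraMap κ E β) = dg κ E x := by
  refine dg_congr_of_mem (sub_mem (mem_adjoin_simple_self κ x) (IntermediateField.algebraMap_mem _ β)) ?_ ?_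
  · have := add_mem (mem_adjoin_simple_self κ (x - algebraMap κ E β))
      (IntermediateField.algebraMap_mem κ⟮x - algebraMap κ E β⟯ β)
    rwa [sub_add_cancel] at this
  · constructor
    · intro h
      have := h.add (isAlgebraic_algebraMap (A := E) β)
      rwa [sub_add_cancel] at this
    · exact fun h => h.sub (isAlgebraic_algebraMap (A := E) β)

/-- the embedding of `κ(X)` given by a transcendental element -/
noncomputable def emb {x : E} (hx : Transcendental κ x) : RatFunc κ →ₐ[κ] E :=
  RatFunc.liftAlgHom (aeval x) (by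
    intro p hp
    rw [Submonoid.mem_comap, mem_nonZeroDivisors_iff_ne_zero]
    intro h
    exact nonZeroDivisors.ne_zero hp (transcendental_iff.1 hx p h))

theorem emb_X {x : E} (hx : Transcendental κ x) : emb hx RatFunc.X = x := by
  rw [emb, RatFunc.liftAlgHom_apply, RatFunc.num_X, RatFunc.denom_X]
  simp

theorem dg_pow (_hE : IsFF κ E) (x : E) {m : ℕ} (hm : m ≠ 0) :
    dg κ E (x ^ m) = m * dg κ E x := by
  by_cases hx : IsAlgebraic κ x
  · rw [dg_eq_zero_of_isAlgebraic hx, dg_eq_zero_of_isAlgebraic (hx.pow m), mul_zero]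
  · have hx' : Transcendental κ x := hx
    have hxm : Transcendental κ (x ^ m) := fun h => hx (h.of_pow (Nat.pos_of_ne_zero hm))
    rw [dg_of_transcendental hx', dg_of_transcendental hxm]
    have hle : κ⟮x ^ m⟯ ≤ κ⟮x⟯ := adjoin_simple_le_iff.2 (pow_mem (mem_adjoin_simple_self κ x) m)
    rw [← relfinrank_mul_finrank_top hle]
    congr 1
    have e1 : κ⟮x⟯ = (κ⟮(RatFunc.X : RatFunc κ)⟯).map (emb hx') := by
      rw [adjoin_map, Set.image_singleton, emb_X]
    have e2 : κ⟮x ^ m⟯ = (κ⟮(RatFunc.X : RatFunc κ) ^ m⟯).map (emb hx') := by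
      rw [adjoin_map, Set.image_singleton, map_pow, emb_X]
    rw [e1, e2, relfinrank_map_map, RatFunc.adjoin_X, relfinrank_top_right,
      RatFunc.finrank_eq_max_natDegree]
    have e3 : (RatFunc.X : RatFunc κ) ^ m = algebraMap κ[X] (RatFunc κ) (X ^ m) := by
      rw [map_pow, RatFunc.algebraMap_X]
    rw [e3, RatFunc.num_algebraMap, RatFunc.denom_algebraMap, natDegree_X_pow, natDegree_one,
      max_eq_left (Nat.zero_le _)]

section Quot

variable {W : Subalgebra κ E} {y : W}

theorem quot_mk_aeval (p : κ[X]) :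
    Ideal.Quotient.mk (Ideal.span {y}) (aeval y p) =
      algebraMap κ (W ⧸ Ideal.span {y}) (p.coeff 0) := by
  have h := divX_mul_X_add p
  have h2 : aeval y p = aeval y (divX p) * y + algebraMap κ W (p.coeff 0) := by
    conv_lhs => rw [← h]
    rw [map_add, map_mul, aeval_X, aeval_C]
  rw [h2, map_add, map_mul, Ideal.Quotient.eq_zero_iff_mem.2 (Ideal.mem_span_singleton_self y),
    mul_zero, zero_add]
  rfl

theorem key_dvd {ι : Type} [Fintype ι] (hy : y ≠ 0) (a : ι → W)
    (ha : LinearIndependent κ (fun i => Ideal.Quotient.mk (Ideal.span {y}) (a i))) (n : ℕ) :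
    ∀ p : ι → κ[X], ∑ i, aeval y (p i) * a i = 0 → ∀ i, X ^ n ∣ p i := by
  induction n with
  | zero => intro p _ i; rw [pow_zero]; exact one_dvd _
  | succ n ih =>
    intro p hp i
    have h0 : ∀ i, (p i).coeff 0 = 0 := by
      rw [Fintype.linearIndependent_iff] at ha
      apply ha
      have := congrArg (Ideal.Quotient.mk (Ideal.span {y})) hp
      rw [map_sum, map_zero] at this
      rw [← this]
      refine Finset.sum_congr rfl fun i _ => ?_
      rw [map_mul, quot_mk_aeval]
      exact Algebra.smul_def (R := κ) (A := W ⧸ Ideal.span {y}) _ _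
    have h1 : ∀ i, p i = divX (p i) * X := by
      intro i
      have := divX_mul_X_add (p i)
      rw [h0, map_zero, add_zero] at this
      exact this.symm
    have h2 : ∑ i, aeval y (divX (p i)) * a i = 0 := by
      have h3 : y * ∑ i, aeval y (divX (p i)) * a i = 0 := by
        rw [← hp, Finset.mul_sum]
        refine Finset.sum_congr rfl fun i _ => ?_
        conv_rhs => rw [h1 i]
        rw [map_mul, aeval_X]
        ring
      exact (mul_eq_zero.1 h3).resolve_left hy
    rw [h1 i, pow_succ]
    exact mul_dvd_mul_right (ih _ h2 i) X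

theorem linInd_of_quot {ι : Type} [Fintype ι] (hy : y ≠ 0) (a : ι → W)
    (ha : LinearIndependent κ (fun i => Ideal.Quotient.mk (Ideal.span {y}) (a i))) :
    LinearIndependent κ⟮(y : E)⟯ (fun i => (a i : E)) := by
  rw [← LinearIndependent.iff_fractionRing (R := Algebra.adjoin κ {(y : E)})
    (K := κ⟮(y : E)⟯), Fintype.linearIndependent_iff]
  intro g hg i
  have hex : ∀ i, ∃ p : κ[X], aeval (y : E) p = g i := by
    intro i
    have h : (g i : E) ∈ (aeval (y : E) : κ[X] →ₐ[κ] E).range := by
      rw [← Algebra.adjoin_singleton_eq_range_aeval]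
      exact (g i).2
    exact h
  choose p hp using hex
  have hsum : ∑ i, aeval y (p i) * a i = 0 := by
    apply Subtype.ext
    rw [AddSubmonoidClass.coe_finsetSum, ZeroMemClass.coe_zero, ← hg]
    refine Finset.sum_congr rfl fun i _ => ?_
    rw [Algebra.smul_def, MulMemClass.coe_mul]
    congr 1
    rw [show algebraMap (Algebra.adjoin κ {(y : E)}) E (g i) = (g i : E) from rfl, ← hp]
    exact (aeval_algHom_apply W.val y (p i)).symm
  have h0 : p i = 0 := by
    have := key_dvd hy a ha ((p i).natDegree + 1) p hsum i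
    by_contra hne
    have h2 := natDegree_le_of_dvd this hne
    rw [natDegree_X_pow] at h2
    omega
  apply Subtype.ext
  rw [← hp, h0, map_zero, ZeroMemClass.coe_zero]

end Quot

/-- (alpha') for every ring `κ ⊆ W ⊆ E` and `0 ≠ y ∈ W`, `dim_κ W / yW ≤ dg y`. -/
theorem dg_quot (hE : IsFF κ E) (W : Subalgebra κ E) (y : W) (hy : y ≠ 0) :
    Module.Finite κ (W ⧸ Ideal.span {y}) ∧
      Module.finrank κ (W ⧸ Ideal.span {y}) ≤ dg κ E (y : E) := by
  by_cases hya : IsAlgebraic κ (y : E)
  · have hinv : (y : E)⁻¹ ∈ W := Subalgebra.inv_mem_of_algebraic W hya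
    have hy' : (y : E) ≠ 0 := fun h => hy (Subtype.ext h)
    have htop : Ideal.span {y} = ⊤ := by
      rw [Ideal.span_singleton_eq_top]
      refine IsUnit.of_mul_eq_one ⟨(y : E)⁻¹, hinv⟩ (Subtype.ext ?_)
      exact mul_inv_cancel₀ hy'
    have hsub : Subsingleton (W ⧸ Ideal.span {y}) := Ideal.Quotient.subsingleton_iff.2 htop
    refine ⟨inferInstance, ?_⟩
    rw [Module.finrank_zero_of_subsingleton]
    exact Nat.zero_le _
  · have hyt : Transcendental κ (y : E) := hya
    have hfin := hE.finite hyt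
    rw [dg_of_transcendental hyt]
    have hrank : Module.rank κ (W ⧸ Ideal.span {y}) ≤ Module.finrank κ⟮(y : E)⟯ E := by
      apply rank_le
      intro s hs
      obtain ⟨a, ha⟩ : ∃ a : s → W, ∀ i, Ideal.Quotient.mk (Ideal.span {y}) (a i) = i := by
        choose a ha using fun i : s => Ideal.Quotient.mk_surjective (i : W ⧸ Ideal.span {y})
        exact ⟨a, ha⟩
      have h1 : LinearIndependent κ (fun i => Ideal.Quotient.mk (Ideal.span {y}) (a i)) := by
        have : (fun i => Ideal.Quotient.mk (Ideal.span {y}) (a i)) =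
          fun i : s => (i : W ⧸ Ideal.span {y}) := funext ha
        rw [this]
        exact hs
      have h2 := (linInd_of_quot hy a h1).fintype_card_le_finrank
      rwa [Fintype.card_coe] at h2
    have hfree : Module.Free κ (W ⧸ Ideal.span {y}) := Module.Free.of_divisionRing κ _
    have hF : Module.Finite κ (W ⧸ Ideal.span {y}) :=
      Module.rank_lt_aleph0_iff.1 (hrank.trans_lt (Cardinal.natCast_lt_aleph0))
    exact ⟨hF, Module.finrank_le_of_rank_le hrank⟩

end A1

end Pool.Agent.LFZ
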