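import Pool.Agent.LFZ.WindowAux

/-!
# MP_08a057_al : block G7, finite index subgroups of finitely presented groups are finitely presented
-/

set_option autoImplicit false

namespace Pool.Agent.LFZ

theorem exists_finite_transversal {F : Type} [Group F] (F0 : Subgroup F) [F0.FiniteIndex] :
    ∃ T : Set F, T.Finite ∧ ∀ x : F, ∃ y ∈ F0, ∃ c ∈ T, x = y * c := by
  refine ⟨Set.range (fun q : F ⧸ F0 => (q.out)⁻¹), Set.finite_range _, fun x => ?_⟩
  refine ⟨x * ((x⁻¹ : F) : F ⧸ F0).out, ?_, _, ⟨((x⁻¹ : F) : F ⧸ F0), rfl⟩, by simp⟩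
  obtain ⟨h, hh⟩ := QuotientGroup.mk_out_eq_mul F0 x⁻¹
  rw [hh, mul_inv_cancel_left]
  exact h.2

/-- The relators of the finite index subgroup `F0` : conjugates of the old relators by
representatives of the right cosets. -/
theorem normalClosure_in_subgroup {F : Type} [Group F] (F0 : Subgroup F) [F0.FiniteIndex]
    (R : Set F) (hR : R.Finite) (hle : Subgroup.normalClosure R ≤ F0) :
    ∃ R0 : Set F0, R0.Finite ∧
      (Subgroup.normalClosure R).subgroupOf F0 = Subgroup.normalClosure R0 := by
  obtain ⟨T, hT, hFT⟩ := exists_finite_transversal F0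
  let R0 : Set F0 := {z | ∃ c ∈ T, ∃ r ∈ R, (z : F) = c * r * c⁻¹}
  refine ⟨R0, ?_, ?_⟩
  · have h1 : (Subtype.val '' R0).Finite := by
      refine ((hT.prod hR).image (fun v : F × F => v.1 * v.2 * v.1⁻¹)).subset ?_
      rintro _ ⟨z, ⟨c, hc, r, hr, hz⟩, rfl⟩
      exact ⟨(c, r), ⟨hc, hr⟩, hz.symm⟩
    exact Set.Finite.of_finite_image h1 Subtype.val_injective.injOn
  · apply le_antisymm
    · have key : ∀ x ∈ Subgroup.normalClosure R, ∃ hx : x ∈ F0,
          (⟨x, hx⟩ : F0) ∈ Subgroup.normalClosure R0 := by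
        intro x hx
        induction hx using Subgroup.closure_induction with
        | mem x hx =>
          obtain ⟨r, hr, hconj⟩ := Group.mem_conjugatesOfSet_iff.1 hx
          obtain ⟨d, rfl⟩ := isConj_iff.1 hconj
          obtain ⟨y, hy, c, hc, rfl⟩ := hFT d
          have hc' : c * r * c⁻¹ ∈ F0 :=
            hle ((Subgroup.normalClosure_normal (s := R)).conj_mem r
              (Subgroup.subset_normalClosure hr) c)
          have hm : (⟨c * r * c⁻¹, hc'⟩ : F0) ∈ Subgroup.normalClosure R0 :=
            Subgroup.subset_normalClosure ⟨c, hc, r, hr, rfl⟩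
          have h2 := (Subgroup.normalClosure_normal (s := R0)).conj_mem _ hm ⟨y, hy⟩
          have h3 : y * c * r * (y * c)⁻¹ ∈ F0 := by
            have : y * c * r * (y * c)⁻¹ = y * (c * r * c⁻¹) * y⁻¹ := by group
            rw [this]
            exact F0.mul_mem (F0.mul_mem hy hc') (F0.inv_mem hy)
          refine ⟨h3, ?_⟩
          convert h2 using 1
          ext
          show y * c * r * (y * c)⁻¹ = y * (c * r * c⁻¹) * y⁻¹
          group
        | one => exact ⟨F0.one_mem, (Subgroup.normalClosure R0).one_mem⟩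
        | mul x y _ _ hx hy =>
          obtain ⟨hx0, hx1⟩ := hx
          obtain ⟨hy0, hy1⟩ := hy
          exact ⟨F0.mul_mem hx0 hy0, (Subgroup.normalClosure R0).mul_mem hx1 hy1⟩
        | inv x _ hx =>
          obtain ⟨hx0, hx1⟩ := hx
          exact ⟨F0.inv_mem hx0, (Subgroup.normalClosure R0).inv_mem hx1⟩
      intro z hz
      obtain ⟨_, h⟩ := key z (Subgroup.mem_subgroupOf.1 hz)
      exact h
    · apply Subgroup.normalClosure_le_normal
      rintro z ⟨c, _, r, hr, hz⟩
      show z ∈ (Subgroup.normalClosure R).subgroupOf F0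
      rw [Subgroup.mem_subgroupOf, hz]
      exact (Subgroup.normalClosure_normal (s := R)).conj_mem r
        (Subgroup.subset_normalClosure hr) c

/-- BLOCK G7: finite index subgroups of finitely presented groups are finitely presented. -/
theorem fp_of_finiteIndex {G : Type} [Group G] {n : ℕ} (π : FreeGroup (Fin n) →* G)
    (hπ : Function.Surjective π) (R : Set (FreeGroup (Fin n))) (hR : R.Finite)
    (hker : π.ker = Subgroup.normalClosure R) (H : Subgroup G) [H.FiniteIndex] :
    ∃ (m : ℕ) (π' : FreeGroup (Fin m) →* H) (R' : Set (FreeGroup (Fin m))),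
      Function.Surjective π' ∧ R'.Finite ∧ π'.ker = Subgroup.normalClosure R' := by
  let F0 : Subgroup (FreeGroup (Fin n)) := H.comap π
  have hfi : F0.FiniteIndex :=
    ⟨by
      show (H.comap π).index ≠ 0
      rw [Subgroup.index_comap_of_surjective H hπ]
      exact Subgroup.FiniteIndex.index_ne_zero⟩
  have hle : Subgroup.normalClosure R ≤ F0 := by
    rw [← hker]
    intro x hx
    show π x ∈ H
    rw [MonoidHom.mem_ker.1 hx]
    exact H.one_mem
  obtain ⟨R0, hR0, hRe⟩ := normalClosure_in_subgroup F0 R hR hle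
  have hfg : Group.FG F0 := Subgroup.fg_of_index_ne_zero (H := F0)
  obtain ⟨m, ⟨e⟩⟩ := exists_freeGroup_equiv (H := F0) inferInstance hfg
  let π0 : F0 →* H := π.subgroupComap H
  have hπ0 : Function.Surjective π0 := MonoidHom.subgroupComap_surjective_of_surjective π H hπ
  have hk0 : π0.ker = Subgroup.normalClosure R0 := by
    rw [← hRe]
    ext z
    rw [MonoidHom.mem_ker, Subgroup.mem_subgroupOf, ← hker, MonoidHom.mem_ker]
    constructor
    · intro h
      have := congrArg Subtype.val h
      exact this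
    · intro h
      exact Subtype.ext h
  refine ⟨m, π0.comp e.toMonoidHom, e.symm '' R0, hπ0.comp e.surjective, hR0.image _, ?_⟩
  have h1 : (π0.comp e.toMonoidHom).ker = (π0.ker).comap e.toMonoidHom := by
    rw [MonoidHom.comap_ker]
  rw [h1, hk0]
  have h2 : (Subgroup.normalClosure R0).map e.symm.toMonoidHom =
      Subgroup.normalClosure (e.symm.toMonoidHom '' R0) :=
    Subgroup.map_normalClosure R0 e.symm.toMonoidHom e.symm.surjective
  have h3 : (Subgroup.normalClosure R0).comap e.toMonoidHom =
      (Subgroup.normalClosure R0).map e.symm.toMonoidHom := by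
    ext x
    rw [Subgroup.mem_comap, Subgroup.mem_map]
    constructor
    · intro hx
      exact ⟨e x, hx, by simp⟩
    · rintro ⟨y, hy, rfl⟩
      simpa using hy
  rw [h3, h2]
  rfl

end Pool.Agent.LFZ
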