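import Pool.Agent.LFZ.Defs

/-!
BLOCK G5: from a Frobenius-twisted representation of a window to a finite quotient.
-/

set_option autoImplicit false

namespace Pool.Agent.LFZ

namespace FinQuot

variable {G : Type} [Group G] {n : ℕ}

theorem Pw_mono (t : G) (s : Fin n → G) {a b a' b' : ℤ} (ha : a' ≤ a) (hb : b ≤ b') :
    Pw t s a b ≤ Pw t s a' b' :=
  Subgroup.closure_mono (by
    rintro y ⟨l, h1, h2, i, rfl⟩
    exact ⟨l, by omega, by omega, i, rfl⟩)

/-- The value of `χ ∘ π`. -/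
def ex (π : FreeGroup (Fin n) →* G) (χ : G →* Multiplicative ℤ) (w : FreeGroup (Fin n)) : ℤ :=
  (χ (π w)).toAdd

theorem ex_one (π : FreeGroup (Fin n) →* G) (χ : G →* Multiplicative ℤ) : ex π χ 1 = 0 := by
  simp [ex]

theorem ex_mul (π : FreeGroup (Fin n) →* G) (χ : G →* Multiplicative ℤ)
    (w v : FreeGroup (Fin n)) : ex π χ (w * v) = ex π χ w + ex π χ v := by
  simp [ex]

theorem ex_inv (π : FreeGroup (Fin n) →* G) (χ : G →* Multiplicative ℤ)
    (w : FreeGroup (Fin n)) : ex π χ w⁻¹ = - ex π χ w := by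
  simp [ex]

/-- The cocycle shifted by `M`. -/
def cc {P : Type} [Group P] (π : FreeGroup (Fin n) →* G) (χ : G →* Multiplicative ℤ) (φ : P)
    (T : FreeGroup (Fin n) →* P) (M : ℤ) (w : FreeGroup (Fin n)) : P :=
  φ ^ M * (T w * φ ^ (-ex π χ w)) * φ ^ (-M)

theorem cc_mul {P : Type} [Group P] (π : FreeGroup (Fin n) →* G) (χ : G →* Multiplicative ℤ)
    (φ : P) (T : FreeGroup (Fin n) →* P) (M : ℤ) (w v : FreeGroup (Fin n)) :
    cc π χ φ T M (w * v) = cc π χ φ T M w * cc π χ φ T (M + ex π χ w) v := by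
  unfold cc
  rw [ex_mul, map_mul]
  have h1 : φ ^ (M + ex π χ w) = φ ^ ex π χ w * φ ^ M := by rw [← zpow_add, add_comm]
  have h2 : φ ^ (-(M + ex π χ w)) = φ ^ (-ex π χ w) * φ ^ (-M) := by
    rw [← zpow_add]; congr 1; ring
  have h3 : φ ^ (-(ex π χ w + ex π χ v)) = φ ^ (-ex π χ v) * φ ^ (-ex π χ w) := by
    rw [← zpow_add]; congr 1; ring
  rw [h1, h2, h3]
  simp only [zpow_neg]
  group

theorem cc_inv {P : Type} [Group P] (π : FreeGroup (Fin n) →* G) (χ : G →* Multiplicative ℤ)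
    (φ : P) (T : FreeGroup (Fin n) →* P) (M : ℤ) (w : FreeGroup (Fin n)) :
    cc π χ φ T M w⁻¹ = (cc π χ φ T (M - ex π χ w) w)⁻¹ := by
  have h1 := cc_mul π χ φ T (M - ex π χ w) w w⁻¹
  rw [mul_inv_cancel] at h1
  have h2 : M - ex π χ w + ex π χ w = M := by ring
  rw [h2] at h1
  have h3 : cc π χ φ T (M - ex π χ w) 1 = 1 := by
    unfold cc
    rw [ex_one, map_one, neg_zero, zpow_zero, mul_one, mul_one, ← zpow_add, add_neg_cancel,
      zpow_zero]
  rw [h3] at h1
  exact (inv_eq_of_mul_eq_one_right h1.symm).symm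

theorem key (π : FreeGroup (Fin n) →* G) (χ : G →* Multiplicative ℤ) (t : G) (s : Fin n → G)
    (hs : ∀ i, s i = π (FreeGroup.of i) * t ^ (-ex π χ (FreeGroup.of i)))
    (w : FreeGroup (Fin n)) :
    ∃ b : ℕ, ∀ (m : ℕ) (M : ℤ), (b : ℤ) ≤ M → M + b ≤ m →
      ∃ hmem : cc π χ t π M w ∈ Pw t s 0 m,
        ∀ (P : Type) [Group P] (φ : P) (T : FreeGroup (Fin n) →* P)
          (μ : Pw t s 0 (m + 1) →* P),
          (∀ (i : Fin n) (l : ℤ) (h0 : 0 ≤ l) (h1 : l ≤ m),
            μ ⟨t ^ l * s i * t ^ (-l), mem_Pw t s h0 (by omega) i⟩ =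
              cc π χ φ T l (FreeGroup.of i)) →
          μ ⟨cc π χ t π M w, Pw_mono t s le_rfl (by omega) hmem⟩ = cc π χ φ T M w := by
  induction w using FreeGroup.induction_on with
  | C1 =>
    refine ⟨0, fun m M _ _ => ?_⟩
    have h3 : ∀ (P : Type) [Group P] (φ : P) (T : FreeGroup (Fin n) →* P),
        cc π χ φ T M 1 = 1 := by
      intro P _ φ T
      unfold cc
      rw [ex_one, map_one]
      simp
    refine ⟨by rw [h3]; exact one_mem _, fun P _ φ T μ _ => ?_⟩
    rw [h3 P φ T, ← map_one μ]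
    congr 1
    exact Subtype.ext (h3 G t π)
  | of i =>
    refine ⟨0, fun m M h0 h1 => ?_⟩
    have h2 : cc π χ t π M (FreeGroup.of i) = t ^ M * s i * t ^ (-M) := by
      unfold cc
      rw [hs]
    have h3 : (0 : ℤ) ≤ M := by simpa using h0
    have h4 : M ≤ m := by simpa using h1
    refine ⟨by rw [h2]; exact mem_Pw t s h3 h4 i, fun P _ φ T μ hμ => ?_⟩
    rw [← hμ i M h3 h4]
    congr 1
    exact Subtype.ext h2
  | inv_of i ih =>
    obtain ⟨b, hb⟩ := ih
    refine ⟨b + (ex π χ (FreeGroup.of i)).natAbs, fun m M h0 h1 => ?_⟩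
    push_cast at h0 h1
    have hab : |ex π χ (FreeGroup.of i)| = (ex π χ (FreeGroup.of i)).natAbs :=
      Int.abs_eq_natAbs _
    obtain ⟨hm1, hf1⟩ := hb m (M - ex π χ (FreeGroup.of i)) (by omega) (by omega)
    have h2 := cc_inv π χ t π M (FreeGroup.of i)
    refine ⟨by rw [h2]; exact inv_mem hm1, fun P _ φ T μ hμ => ?_⟩
    rw [cc_inv π χ φ T M (FreeGroup.of i), ← hf1 P φ T μ hμ, ← map_inv]
    congr 1
    exact Subtype.ext h2
  | mul w v ihw ihv =>
    obtain ⟨b, hb⟩ := ihw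
    obtain ⟨b', hb'⟩ := ihv
    refine ⟨b + b' + (ex π χ w).natAbs, fun m M h0 h1 => ?_⟩
    push_cast at h0 h1
    have hab : |ex π χ w| = (ex π χ w).natAbs := Int.abs_eq_natAbs _
    obtain ⟨hm1, hf1⟩ := hb m M (by omega) (by omega)
    obtain ⟨hm2, hf2⟩ := hb' m (M + ex π χ w) (by omega) (by omega)
    have h2 := cc_mul π χ t π M w v
    refine ⟨by rw [h2]; exact mul_mem hm1 hm2, fun P _ φ T μ hμ => ?_⟩
    rw [cc_mul π χ φ T M w v, ← hf1 P φ T μ hμ, ← hf2 P φ T μ hμ, ← map_mul]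
    congr 1
    exact Subtype.ext h2

/-! ### the action on `k²` -/

section act

variable {k : Type} [Field k]

/-- The permutation of `k²` given by an invertible matrix. -/
def mat : GL (Fin 2) k →* Equiv.Perm (Fin 2 → k) where
  toFun A :=
    { toFun := fun v => (A : Matrix (Fin 2) (Fin 2) k).mulVec v
      invFun := fun v => ((A⁻¹ : GL (Fin 2) k) : Matrix (Fin 2) (Fin 2) k).mulVec v
      left_inv := fun v => by
        show Matrix.mulVec _ (Matrix.mulVec _ v) = v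
        rw [Matrix.mulVec_mulVec, ← Units.val_mul, inv_mul_cancel]
        simp
      right_inv := fun v => by
        show Matrix.mulVec _ (Matrix.mulVec _ v) = v
        rw [Matrix.mulVec_mulVec, ← Units.val_mul, mul_inv_cancel]
        simp }
  map_one' := by
    ext v : 1
    show ((1 : GL (Fin 2) k) : Matrix (Fin 2) (Fin 2) k).mulVec v = v
    rw [Units.val_one, Matrix.one_mulVec]
  map_mul' A B := by
    ext v : 1
    show ((A * B : GL (Fin 2) k) : Matrix (Fin 2) (Fin 2) k).mulVec v =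
      (A : Matrix (Fin 2) (Fin 2) k).mulVec ((B : Matrix (Fin 2) (Fin 2) k).mulVec v)
    rw [Matrix.mulVec_mulVec, Units.val_mul]

theorem mat_apply (A : GL (Fin 2) k) (v : Fin 2 → k) :
    mat A v = (A : Matrix (Fin 2) (Fin 2) k).mulVec v := rfl

theorem eq_one_of_fix (A : GL (Fin 2) k) (h : ∀ a : Fin 2, mat A (Pi.single a 1) = Pi.single a 1) :
    A = 1 := by
  apply Units.ext
  ext a b
  have h1 := congrFun (h b) a
  rw [mat_apply, Matrix.mulVec_single_one] at h1
  rw [Units.val_one, Matrix.one_apply]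
  have h2 : (A : Matrix (Fin 2) (Fin 2) k) a b = (Pi.single b (1 : k) : Fin 2 → k) a := h1
  rw [h2, Pi.single_apply]

/-- The permutation of `k²` given by a field automorphism. -/
def frob (F : k ≃+* k) : Equiv.Perm (Fin 2 → k) where
  toFun v := fun a => F (v a)
  invFun v := fun a => F.symm (v a)
  left_inv v := by funext a; simp
  right_inv v := by funext a; simp

theorem frob_mat (F : k ≃+* k) (A B : GL (Fin 2) k)
    (h : ∀ a b, (B : Matrix (Fin 2) (Fin 2) k) a b = F ((A : Matrix (Fin 2) (Fin 2) k) a b)) :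
    mat B = frob F * mat A * (frob F)⁻¹ := by
  rw [eq_mul_inv_iff_mul_eq]
  ext v a
  show ((B : Matrix (Fin 2) (Fin 2) k).mulVec fun a => F (v a)) a =
    F ((A : Matrix (Fin 2) (Fin 2) k).mulVec v a)
  simp [Matrix.mulVec, dotProduct, h]

theorem frob_single (F : k ≃+* k) (a : Fin 2) :
    frob F (Pi.single a 1) = Pi.single a 1 := by
  funext b
  show F ((Pi.single a (1 : k) : Fin 2 → k) b) = _
  rw [Pi.single_apply]
  split_ifs <;> simp

end act

/-- A finite invariant set gives a finite quotient. -/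
theorem exists_normal {V : Type} (T : G →* Equiv.Perm V) (Y : Set V) (hY : Y.Finite)
    (hT : ∀ g v, v ∈ Y → T g v ∈ Y) (g : G) (v : V) (hv : v ∈ Y) (hg : T g v ≠ v) :
    ∃ N : Subgroup G, N.Normal ∧ N.index ≠ 0 ∧ g ∉ N := by
  have hiff : ∀ (g : G) (v : V), T g v ∈ Y ↔ v ∈ Y := by
    intro g v
    refine ⟨fun h => ?_, hT g v⟩
    have h1 := hT g⁻¹ _ h
    rw [← Equiv.Perm.mul_apply, ← map_mul, inv_mul_cancel, map_one] at h1
    exact h1
  haveI : Finite Y := hY
  let f : G →* Equiv.Perm Y :=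
    { toFun := fun g => (T g).subtypePerm (hiff g)
      map_one' := by
        ext v
        simp
      map_mul' := fun a b => by
        ext v
        show T (a * b) (v : V) = T a (T b (v : V))
        rw [map_mul, Equiv.Perm.mul_apply] }
  refine ⟨f.ker, inferInstance, ?_, ?_⟩
  · rw [Subgroup.index_ker]
    exact Nat.card_pos.ne'
  · intro h
    apply hg
    have h1 : f g = 1 := h
    have h2 := congrArg (fun σ : Equiv.Perm Y => ((σ ⟨v, hv⟩ : Y) : V)) h1
    exact h2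

/-- Finite invariant set for the elements of a subgroup generated by permutations preserving it. -/
theorem lift_mem {V : Type} (Y : Set V) (hY : Y.Finite) (T : FreeGroup (Fin n) →* Equiv.Perm V)
    (hT : ∀ i, ∀ v ∈ Y, T (FreeGroup.of i) v ∈ Y) (w : FreeGroup (Fin n)) :
    ∀ v ∈ Y, T w v ∈ Y := by
  induction w using FreeGroup.induction_on with
  | C1 => intro v hv; simpa using hv
  | of i => exact hT i
  | inv_of i _ =>
    intro v hv
    have h1 : Set.MapsTo (T (FreeGroup.of i)) Y Y := hT i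
    have h2 : Set.SurjOn (T (FreeGroup.of i)) Y Y :=
      ((hY.injOn_iff_bijOn_of_mapsTo h1).1 (T (FreeGroup.of i)).injective.injOn).surjOn
    obtain ⟨u, hu, huv⟩ := h2 hv
    rw [← huv, ← Equiv.Perm.mul_apply, ← map_mul, inv_mul_cancel, map_one]
    exact hu
  | mul w v hw hv =>
    intro u hu
    rw [map_mul, Equiv.Perm.mul_apply]
    exact hw _ (hv _ hu)

theorem zpow_mem' {V : Type} (Y : Set V) (hY : Y.Finite) (σ : Equiv.Perm V)
    (hσ : ∀ v ∈ Y, σ v ∈ Y) (e : ℤ) : ∀ v ∈ Y, (σ ^ e) v ∈ Y := by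
  have h := lift_mem (n := 1) Y hY (FreeGroup.lift fun _ => σ) (by intro i; simpa using hσ)
    (FreeGroup.of 0 ^ e)
  intro v hv
  have h1 := h v hv
  rw [map_zpow, FreeGroup.lift_apply_of] at h1
  exact h1

end FinQuot

open FinQuot

variable {G : Type} [Group G] {n : ℕ}

/-- BLOCK G5 (file FinQuot.lean; independent): from a representation of a window with
`ρ(t y t⁻¹) = Frob ρ(y)` to a finite quotient. -/
theorem fin_quot (π : FreeGroup (Fin n) →* G) (hπ : Function.Surjective π)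
    (R : Set (FreeGroup (Fin n))) (hR : R.Finite) (hker : π.ker = Subgroup.normalClosure R)
    (χ : G →* Multiplicative ℤ) (t : G) (ht : χ t = Multiplicative.ofAdd 1)
    (g : G) (hg : χ g = 1) :
    ∃ (m M : ℕ), t ^ M * g * (t ^ M)⁻¹ ∈
        Pw t (fun i => π (FreeGroup.of i) * t ^ (-(χ (π (FreeGroup.of i))).toAdd)) 0 m ∧
      ∀ (p : ℕ) [Fact p.Prime] (e : ℕ)
        (ρ : Pw t (fun i => π (FreeGroup.of i) * t ^ (-(χ (π (FreeGroup.of i))).toAdd)) 0 (m + 1)
          →* GL (Fin 2) (AlgebraicClosure (ZMod p))),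
        (∀ hg' : t ^ M * g * (t ^ M)⁻¹ ∈ Pw t
          (fun i => π (FreeGroup.of i) * t ^ (-(χ (π (FreeGroup.of i))).toAdd)) 0 (m + 1),
          ρ ⟨t ^ M * g * (t ^ M)⁻¹, hg'⟩ ≠ 1) →
        (∀ (y : G) (h0 : y ∈ Pw t
            (fun i => π (FreeGroup.of i) * t ^ (-(χ (π (FreeGroup.of i))).toAdd)) 0 (m + 1))
          (h1 : t * y * t⁻¹ ∈ Pw t
            (fun i => π (FreeGroup.of i) * t ^ (-(χ (π (FreeGroup.of i))).toAdd)) 0 (m + 1)),
          y ∈ Pw t (fun i => π (FreeGroup.of i) * t ^ (-(χ (π (FreeGroup.of i))).toAdd)) 0 m →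
          ∀ a b : Fin 2,
          (ρ ⟨t * y * t⁻¹, h1⟩ : Matrix (Fin 2) (Fin 2) (AlgebraicClosure (ZMod p))) a b =
          ((ρ ⟨y, h0⟩ : Matrix (Fin 2) (Fin 2) (AlgebraicClosure (ZMod p))) a b) ^ (p ^ e)) →
        ∃ N : Subgroup G, N.Normal ∧ N.index ≠ 0 ∧ g ∉ N := by
  classical
  set s : Fin n → G := fun i => π (FreeGroup.of i) * t ^ (-(χ (π (FreeGroup.of i))).toAdd) with hs
  have hs' : ∀ i, s i = π (FreeGroup.of i) * t ^ (-ex π χ (FreeGroup.of i)) := fun i => rfl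
  choose b hb using key π χ t s hs'
  obtain ⟨wg, hwg⟩ := hπ g
  set B : ℕ := max (hR.toFinset.sup b) (b wg) with hB
  have hBg : b wg ≤ B := le_max_right _ _
  have hBR : ∀ r ∈ R, b r ≤ B := fun r hr =>
    (Finset.le_sup (f := b) (hR.mem_toFinset.2 hr)).trans (le_max_left _ _)
  have hexg : ex π χ wg = 0 := by
    unfold ex
    rw [hwg, hg]
    rfl
  have hccg : cc π χ t π (B : ℤ) wg = t ^ B * g * (t ^ B)⁻¹ := by
    unfold cc
    rw [hexg, hwg, neg_zero, zpow_zero, mul_one, zpow_neg, zpow_natCast]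
  refine ⟨2 * B, B, ?_, ?_⟩
  · obtain ⟨hm, _⟩ := hb wg (2 * B) B (by exact_mod_cast hBg) (by push_cast; omega)
    rw [hccg] at hm
    exact hm
  intro p hp e ρ hne hfr
  haveI : ExpChar (AlgebraicClosure (ZMod p)) p := ExpChar.prime hp.out
  let F : AlgebraicClosure (ZMod p) ≃+* AlgebraicClosure (ZMod p) :=
    iterateFrobeniusEquiv (AlgebraicClosure (ZMod p)) p e
  have hF : ∀ x, F x = x ^ (p ^ e) := fun x => iterateFrobeniusEquiv_apply _ _ _ _
  set φ := frob F with hφ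
  have hs0 : ∀ i, s i ∈ Pw t s 0 ((2 * B : ℕ) + 1) := by
    intro i
    have := mem_Pw t s (a := 0) (b := (2 * B : ℕ) + 1) (l := 0) le_rfl (by positivity) i
    simpa using this
  let T : FreeGroup (Fin n) →* Equiv.Perm (Fin 2 → AlgebraicClosure (ZMod p)) :=
    FreeGroup.lift fun i => mat (ρ ⟨s i, hs0 i⟩) * φ ^ ex π χ (FreeGroup.of i)
  have hT : ∀ i, T (FreeGroup.of i) = mat (ρ ⟨s i, hs0 i⟩) * φ ^ ex π χ (FreeGroup.of i) := by
    intro i
    exact FreeGroup.lift_apply_of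
  -- the values on the generators of the window
  have hgen : ∀ (i : Fin n) (l : ℕ) (hl : l ≤ 2 * B),
      (mat.comp ρ) ⟨t ^ (l : ℤ) * s i * t ^ (-(l : ℤ)), mem_Pw t s (by positivity) (by omega) i⟩ =
        φ ^ (l : ℤ) * mat (ρ ⟨s i, hs0 i⟩) * φ ^ (-(l : ℤ)) := by
    intro i l hl
    induction l with
    | zero =>
      have h1 : (⟨t ^ ((0 : ℕ) : ℤ) * s i * t ^ (-((0 : ℕ) : ℤ)),
          mem_Pw t s (by positivity) (by omega) i⟩ : Pw t s 0 ((2 * B : ℕ) + 1)) =
          ⟨s i, hs0 i⟩ := by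
        apply Subtype.ext
        simp
      rw [h1]
      simp
    | succ l ih =>
      have ih' := ih (by omega)
      have hy0 : t ^ (l : ℤ) * s i * t ^ (-(l : ℤ)) ∈ Pw t s 0 ((2 * B : ℕ) + 1) :=
        mem_Pw t s (by positivity) (by omega) i
      have hy1 : t ^ (l : ℤ) * s i * t ^ (-(l : ℤ)) ∈ Pw t s 0 ((2 * B : ℕ)) :=
        mem_Pw t s (by positivity) (by omega) i
      have he : t ^ ((l + 1 : ℕ) : ℤ) * s i * t ^ (-((l + 1 : ℕ) : ℤ)) =
          t * (t ^ (l : ℤ) * s i * t ^ (-(l : ℤ))) * t⁻¹ := by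
        push_cast
        rw [zpow_add, neg_add, zpow_add]
        group
      have hy2 : t * (t ^ (l : ℤ) * s i * t ^ (-(l : ℤ))) * t⁻¹ ∈ Pw t s 0 ((2 * B : ℕ) + 1) := by
        rw [← he]
        exact mem_Pw t s (by positivity) (by push_cast; omega) i
      have h1 := frob_mat F (ρ ⟨_, hy0⟩) (ρ ⟨_, hy2⟩) (fun a b => by
        rw [hF]; exact hfr _ hy0 hy2 hy1 a b)
      have h2 : (⟨t ^ ((l + 1 : ℕ) : ℤ) * s i * t ^ (-((l + 1 : ℕ) : ℤ)),
          mem_Pw t s (by positivity) (by omega) i⟩ : Pw t s 0 ((2 * B : ℕ) + 1)) =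
          ⟨_, hy2⟩ := Subtype.ext he
      rw [h2, MonoidHom.comp_apply, h1]
      rw [MonoidHom.comp_apply] at ih'
      rw [ih', ← hφ]
      push_cast
      rw [zpow_add, neg_add, zpow_add]
      group
  have hgen' : ∀ (i : Fin n) (l : ℤ) (h0 : 0 ≤ l) (h1 : l ≤ (2 * B : ℕ)),
      (mat.comp ρ) ⟨t ^ l * s i * t ^ (-l), mem_Pw t s h0 (by omega) i⟩ =
        cc π χ φ T l (FreeGroup.of i) := by
    intro i l h0 h1
    obtain ⟨l, rfl⟩ := Int.eq_ofNat_of_zero_le h0
    have h2 := hgen i l (by omega)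
    refine h2.trans ?_
    unfold cc
    rw [hT]
    group
  have hTR : ∀ r ∈ R, T r = 1 := by
    intro r hr
    obtain ⟨hm, hf⟩ := hb r (2 * B) B (by exact_mod_cast hBR r hr)
      (by have := hBR r hr; push_cast; omega)
    have h1 := hf _ φ T (mat.comp ρ) hgen'
    have hπr : π r = 1 := by
      have : r ∈ π.ker := by
        rw [hker]
        exact Subgroup.subset_normalClosure hr
      exact this
    have hex : ex π χ r = 0 := by
      unfold ex
      rw [hπr, map_one]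
      rfl
    have h2 : cc π χ t π (B : ℤ) r = 1 := by
      unfold cc
      rw [hex, hπr, neg_zero, zpow_zero, mul_one, mul_one, ← zpow_add, add_neg_cancel, zpow_zero]
    have h3 : (⟨cc π χ t π (B : ℤ) r, Pw_mono t s le_rfl (by omega) hm⟩ :
        Pw t s 0 ((2 * B : ℕ) + 1)) = 1 := Subtype.ext h2
    rw [h3, map_one] at h1
    unfold cc at h1
    rw [hex, neg_zero, zpow_zero, mul_one, zpow_neg] at h1
    have h4 := eq_mul_inv_iff_mul_eq.1 h1
    rw [one_mul] at h4
    exact (mul_eq_left.1 h4.symm)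
  have hle : π.ker ≤ T.ker := by
    rw [hker]
    exact Subgroup.normalClosure_le_normal hTR
  let Tb : G →* Equiv.Perm (Fin 2 → AlgebraicClosure (ZMod p)) :=
    π.liftOfRightInverse (Function.surjInv hπ) (Function.rightInverse_surjInv hπ) ⟨T, hle⟩
  have hTb : ∀ w, Tb (π w) = T w := fun w =>
    MonoidHom.liftOfRightInverse_comp_apply π _ _ ⟨T, hle⟩ w
  -- the finite invariant set
  let S : Set (AlgebraicClosure (ZMod p)) :=
    Set.range fun v : Fin n × Fin 2 × Fin 2 =>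
      (ρ ⟨s v.1, hs0 v.1⟩ : Matrix (Fin 2) (Fin 2) (AlgebraicClosure (ZMod p))) v.2.1 v.2.2
  have hSfin : S.Finite := Set.finite_range _
  let K0 : IntermediateField (ZMod p) (AlgebraicClosure (ZMod p)) :=
    IntermediateField.adjoin (ZMod p) S
  haveI : Finite S := hSfin
  haveI : FiniteDimensional (ZMod p) K0 :=
    IntermediateField.finiteDimensional_adjoin fun x _ =>
      (Algebra.IsAlgebraic.isAlgebraic x).isIntegral
  haveI hK0 : Finite K0 := Module.finite_of_finite (ZMod p)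
  let Y : Set (Fin 2 → AlgebraicClosure (ZMod p)) := {v | ∀ a, v a ∈ K0}
  have hY : Y.Finite := by
    have h1 : (Set.univ.pi fun _ : Fin 2 => (K0 : Set (AlgebraicClosure (ZMod p)))).Finite :=
      Set.Finite.pi fun _ => hK0
    exact h1.subset fun v hv a _ => hv a
  have hφY : ∀ v ∈ Y, φ v ∈ Y := by
    intro v hv a
    show F (v a) ∈ K0
    rw [hF]
    exact pow_mem (hv a) _
  have hmatY : ∀ i, ∀ v ∈ Y, mat (ρ ⟨s i, hs0 i⟩) v ∈ Y := by
    intro i v hv a
    rw [mat_apply]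
    show ∑ c, (ρ ⟨s i, hs0 i⟩ : Matrix (Fin 2) (Fin 2) (AlgebraicClosure (ZMod p))) a c * v c ∈ K0
    refine sum_mem fun c _ => mul_mem ?_ (hv c)
    exact IntermediateField.subset_adjoin _ _ ⟨(i, a, c), rfl⟩
  have hTY : ∀ w, ∀ v ∈ Y, T w v ∈ Y := by
    apply lift_mem Y hY T
    intro i v hv
    rw [hT, Equiv.Perm.mul_apply]
    exact hmatY i _ (zpow_mem' Y hY φ hφY _ _ hv)
  have hTbY : ∀ (x : G) (v : Fin 2 → AlgebraicClosure (ZMod p)), v ∈ Y → Tb x v ∈ Y := by
    intro x v hv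
    obtain ⟨w, rfl⟩ := hπ x
    rw [hTb]
    exact hTY w v hv
  -- `g` acts nontrivially
  obtain ⟨hm, hf⟩ := hb wg (2 * B) B (by exact_mod_cast hBg) (by push_cast; omega)
  have h1 := hf _ φ T (mat.comp ρ) hgen'
  have hg' : t ^ B * g * (t ^ B)⁻¹ ∈ Pw t s 0 ((2 * B : ℕ) + 1) := by
    rw [← hccg]
    exact Pw_mono t s le_rfl (by omega) hm
  have h2 : (⟨cc π χ t π (B : ℤ) wg, Pw_mono t s le_rfl (by omega) hm⟩ :
      Pw t s 0 ((2 * B : ℕ) + 1)) = ⟨_, hg'⟩ := Subtype.ext hccg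
  rw [h2, MonoidHom.comp_apply] at h1
  have h3 : ∃ a : Fin 2, Tb g (Pi.single a 1) ≠ Pi.single a 1 := by
    by_contra hcon
    push Not at hcon
    apply hne hg'
    apply eq_one_of_fix
    intro a
    rw [h1]
    unfold cc
    rw [hexg, neg_zero, zpow_zero, mul_one, ← hTb, hwg]
    have hfix : ∀ c : ℤ, (φ ^ c) (Pi.single a 1) = Pi.single a 1 := by
      intro c
      exact Equiv.Perm.zpow_apply_eq_self_of_apply_eq_self (frob_single F a) c
    rw [Equiv.Perm.mul_apply, Equiv.Perm.mul_apply, hfix, hcon a, hfix]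
  obtain ⟨a, ha⟩ := h3
  refine exists_normal Tb Y hY hTbY g (Pi.single a 1) ?_ ha
  intro c
  rw [Pi.single_apply]
  split_ifs
  · exact one_mem _
  · exact zero_mem _

end Pool.Agent.LFZ
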