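import Pool.Agent.LFZ.WH

/-!
# Block S5: from transcendence bases to algebraically independent families
-/

set_option autoImplicit false

namespace Pool.Agent.LFZ

open Cardinal

/-- Completing an algebraically independent family to a transcendence basis. -/
theorem exists_extend {p : ℕ} [Fact p.Prime] {R : Type} [CommRing R] [IsDomain R]
    [Algebra (ZMod p) R] [Algebra.FiniteType (ZMod p) R] {ι : Type} [Finite ι] (f : ι → R)
    (hf : AlgebraicIndependent (ZMod p) f) :
    ∃ F : ι ⊕ Fin (Cardinal.toNat (Algebra.trdeg (ZMod p) R) - Nat.card ι) → R,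
      (∀ i, F (Sum.inl i) = f i) ∧ IsTranscendenceBasis (ZMod p) F := by
  have hs : AlgebraicIndepOn (ZMod p) id (Set.range f) := hf.to_subtype_range
  obtain ⟨t, ht, htb⟩ := exists_isTranscendenceBasis_superset hs
  have h1 : #t = Algebra.trdeg (ZMod p) R := htb.cardinalMk_eq_trdeg
  have h2 : Algebra.trdeg (ZMod p) R < ℵ₀ := trdeg_lt_aleph0_of_finiteType
  have hfin : Finite t := by rw [← Cardinal.lt_aleph0_iff_finite, h1]; exact h2
  have h3 : Nat.card t = Cardinal.toNat (Algebra.trdeg (ZMod p) R) := by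
    rw [← h1]; rfl
  let e1 : ι ≃ Set.range f := Equiv.ofInjective f hf.injective
  have hfin' : Finite (t \ Set.range f : Set R) := Finite.Set.subset t Set.sdiff_subset
  have h4 : Nat.card ι + Nat.card (t \ Set.range f : Set R) = Nat.card t := by
    classical
    have e2 : (Set.range f : Set R) ⊕ (t \ Set.range f : Set R) ≃ t :=
      Equiv.Set.sumDiffSubset ht
    rw [← Nat.card_congr e2, Nat.card_sum, Nat.card_congr e1]
  have h5 : Nat.card (t \ Set.range f : Set R) =
      Cardinal.toNat (Algebra.trdeg (ZMod p) R) - Nat.card ι := by omega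
  let e3 : Fin (Cardinal.toNat (Algebra.trdeg (ZMod p) R) - Nat.card ι) ≃
      (t \ Set.range f : Set R) :=
    ((Finite.equivFin (t \ Set.range f : Set R)).trans (finCongr h5)).symm
  classical
  let e4 : ι ⊕ Fin (Cardinal.toNat (Algebra.trdeg (ZMod p) R) - Nat.card ι) ≃ t :=
    (Equiv.sumCongr e1 e3).trans (Equiv.Set.sumDiffSubset ht)
  refine ⟨fun x => (e4 x : R), ?_, ?_⟩
  · intro i
    rfl
  · exact htb.comp_equiv e4

/-- **BLOCK S5** -/
theorem weak_hrushovski {p : ℕ} [Fact p.Prime] {R : Type} [CommRing R] [IsDomain R]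
    [Algebra (ZMod p) R] [Algebra.FiniteType (ZMod p) R] {ι : Type} [Finite ι] (f h : ι → R)
    (hf : AlgebraicIndependent (ZMod p) f) (hh : AlgebraicIndependent (ZMod p) h) :
    ∃ (e : ℕ) (φ : R →ₐ[ZMod p] AlgebraicClosure (ZMod p)),
      ∀ i, φ (f i) = φ (h i) ^ (p ^ e) := by
  obtain ⟨F, hF, hFb⟩ := exists_extend f hf
  obtain ⟨H, hH, hHb⟩ := exists_extend h hh
  obtain ⟨n, ⟨e⟩⟩ := Finite.exists_equiv_fin
    (ι ⊕ Fin (Cardinal.toNat (Algebra.trdeg (ZMod p) R) - Nat.card ι))
  have hF' := hFb.comp_equiv e.symm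
  have hH' := hHb.comp_equiv e.symm
  obtain ⟨m, φ, hφ⟩ := weak_hrushovski_basis (F ∘ e.symm) (H ∘ e.symm) hF'.1 hH'.1
    (fun r => hH'.isAlgebraic.isAlgebraic r)
  refine ⟨m, φ, ?_⟩
  intro i
  have := hφ (e (Sum.inl i))
  simp only [Function.comp, Equiv.symm_apply_apply, hF, hH] at this
  exact this

end Pool.Agent.LFZ
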