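import Pool.Agent.LFZ.FrobRepAux
import Pool.Agent.LFZ.Amalgam
import Pool.Agent.LFZ.Weak

/-! # Block G3 -/

set_option autoImplicit false

namespace Pool.Agent.LFZ

theorem frob_rep {p : ℕ} [Fact p.Prime] {U W : Type} [Group U] [Group W] {rU rW : ℕ}
    (bU : FreeGroup (Fin rU) ≃* U) (bW : FreeGroup (Fin rW) ≃* W) {J : Type} [Finite J]
    (x : J → U) (x0 x1 : J → W) (h0 : relI p x = relI p x0) (h1 : relI p x = relI p x1)
    (g : W) (hg : g ≠ 1) :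
    ∃ (e : ℕ) (ρ : W →* GL (Fin 2) (AlgebraicClosure (ZMod p))), ρ g ≠ 1 ∧
      ∀ j, ∀ a b : Fin 2,
        (ρ (x1 j) : Matrix (Fin 2) (Fin 2) (AlgebraicClosure (ZMod p))) a b =
        ((ρ (x0 j) : Matrix (Fin 2) (Fin 2) (AlgebraicClosure (ZMod p))) a b) ^ (p ^ e) :=
  frob_rep_aux (p := p)
    (by intro U W _ _ rU rW bU bW J _ x x0 x1 h0 h1 g hg
        exact amalgam bU bW x x0 x1 h0 h1 g hg)
    (by intro R _ _ _ _ ι _ f h hf hh
        exact weak_hrushovski f h hf hh) bU bW x x0 x1 h0 h1 g hg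

end Pool.Agent.LFZ
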