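import Pool.Agent.LFZ.Defs

/-! # Block G3: from the amalgam and the weak Hrushovski theorem to Frobenius-twisted
representations. The two inputs are hypotheses here (`AmalgamStmt`, `WeakStmt`). -/

set_option autoImplicit false

namespace Pool.Agent.LFZ

/-- The statement of `amalgam` (block G2). -/
def AmalgamStmt (p : ℕ) [Fact p.Prime] : Prop :=
  ∀ {U W : Type} [Group U] [Group W] {rU rW : ℕ}
    (bU : FreeGroup (Fin rU) ≃* U) (_ : FreeGroup (Fin rW) ≃* W) {J : Type} [Finite J]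
    (x : J → U) (x0 x1 : J → W) (_ : relI p x = relI p x0) (_ : relI p x = relI p x1)
    (g : W) (_ : g ≠ 1),
    ∃ (L : Type) (_ : Field L) (_ : Algebra (ZMod p) L) (ρ : W →* GL (Fin 2) L)
      (ρ0 ρ1 : U →* GL (Fin 2) L), (∀ j, ρ0 (x j) = ρ (x0 j)) ∧ (∀ j, ρ1 (x j) = ρ (x1 j)) ∧
      ρ g ≠ 1 ∧
      AlgebraicIndependent (ZMod p) (fun v : Fin rU × Fin 2 × Fin 2 =>
        (ρ0 (bU (FreeGroup.of v.1)) : Matrix (Fin 2) (Fin 2) L) v.2.1 v.2.2) ∧
      AlgebraicIndependent (ZMod p) (fun v : Fin rU × Fin 2 × Fin 2 =>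
        (ρ1 (bU (FreeGroup.of v.1)) : Matrix (Fin 2) (Fin 2) L) v.2.1 v.2.2)

/-- The statement of `weak_hrushovski` (block S5). -/
def WeakStmt (p : ℕ) [Fact p.Prime] : Prop :=
  ∀ {R : Type} [CommRing R] [IsDomain R]
    [Algebra (ZMod p) R] [Algebra.FiniteType (ZMod p) R] {ι : Type} [Finite ι] (f h : ι → R)
    (_ : AlgebraicIndependent (ZMod p) f) (_ : AlgebraicIndependent (ZMod p) h),
    ∃ (e : ℕ) (φ : R →ₐ[ZMod p] AlgebraicClosure (ZMod p)),
      ∀ i, φ (f i) = φ (h i) ^ (p ^ e)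

open Matrix

theorem gl_map_injective {A B : Type} [CommRing A] [CommRing B] (f : A →+* B)
    (hf : Function.Injective f) :
    Function.Injective (GeneralLinearGroup.map (n := Fin 2) f) := by
  intro M N h
  ext a b
  apply hf
  have := congrArg (fun K : GL (Fin 2) B => (K : Matrix (Fin 2) (Fin 2) B) a b) h
  simpa using this

/-- descending a representation of a free group to a subring -/
theorem exists_descend {k L : Type} [Field k] [Field L] [Algebra k L] {H : Type} [Group H]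
    {r : ℕ} (b : FreeGroup (Fin r) ≃* H) (ρ : H →* GL (Fin 2) L) (R : Subalgebra k L)
    (h1 : ∀ i a c, (ρ (b (FreeGroup.of i)) : Matrix (Fin 2) (Fin 2) L) a c ∈ R)
    (h2 : ∀ i a c, ((ρ (b (FreeGroup.of i)))⁻¹ : GL (Fin 2) L).1 a c ∈ R) :
    ∃ ρ' : H →* GL (Fin 2) R,
      ∀ y, GeneralLinearGroup.map (n := Fin 2) (algebraMap R L) (ρ' y) = ρ y := by
  classical
  let M : Fin r → Matrix (Fin 2) (Fin 2) R := fun i =>
    Matrix.of fun a c => ⟨(ρ (b (FreeGroup.of i)) : Matrix (Fin 2) (Fin 2) L) a c, h1 i a c⟩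
  let N : Fin r → Matrix (Fin 2) (Fin 2) R := fun i =>
    Matrix.of fun a c => ⟨((ρ (b (FreeGroup.of i)))⁻¹ : GL (Fin 2) L).1 a c, h2 i a c⟩
  have hinj : Function.Injective ((algebraMap R L).mapMatrix :
      Matrix (Fin 2) (Fin 2) R →+* Matrix (Fin 2) (Fin 2) L) := by
    intro X Y h
    ext a c
    have := congrFun (congrFun h a) c
    simpa using this
  have hMm : ∀ i, (algebraMap R L).mapMatrix (M i) =
      (ρ (b (FreeGroup.of i)) : Matrix (Fin 2) (Fin 2) L) := by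
    intro i; ext a c; rfl
  have hNm : ∀ i, (algebraMap R L).mapMatrix (N i) =
      ((ρ (b (FreeGroup.of i)))⁻¹ : GL (Fin 2) L).1 := by
    intro i; ext a c; rfl
  have hMN : ∀ i, M i * N i = 1 := by
    intro i
    apply hinj
    rw [map_mul, hMm, hNm, map_one, ← Units.val_mul, mul_inv_cancel, Units.val_one]
  have hNM : ∀ i, N i * M i = 1 := by
    intro i
    apply hinj
    rw [map_mul, hMm, hNm, map_one, ← Units.val_mul, inv_mul_cancel, Units.val_one]
  let g : Fin r → GL (Fin 2) R := fun i => ⟨M i, N i, hMN i, hNM i⟩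
  refine ⟨(FreeGroup.lift g).comp b.symm.toMonoidHom, ?_⟩
  have key : ((GeneralLinearGroup.map (n := Fin 2) (algebraMap R L)).comp
      (FreeGroup.lift g)) = ρ.comp b.toMonoidHom := by
    apply FreeGroup.ext_hom
    intro i
    ext a c
    simp [g, M]
  intro y
  have := DFunLike.congr_fun key (b.symm y)
  simpa using this

theorem frob_rep_aux {p : ℕ} [Fact p.Prime] (hA : AmalgamStmt p) (hW : WeakStmt p)
    {U W : Type} [Group U] [Group W] {rU rW : ℕ}
    (bU : FreeGroup (Fin rU) ≃* U) (bW : FreeGroup (Fin rW) ≃* W) {J : Type} [Finite J]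
    (x : J → U) (x0 x1 : J → W) (h0 : relI p x = relI p x0) (h1 : relI p x = relI p x1)
    (g : W) (hg : g ≠ 1) :
    ∃ (e : ℕ) (ρ : W →* GL (Fin 2) (AlgebraicClosure (ZMod p))), ρ g ≠ 1 ∧
      ∀ j, ∀ a b : Fin 2,
        (ρ (x1 j) : Matrix (Fin 2) (Fin 2) (AlgebraicClosure (ZMod p))) a b =
        ((ρ (x0 j) : Matrix (Fin 2) (Fin 2) (AlgebraicClosure (ZMod p))) a b) ^ (p ^ e) := by
  classical
  obtain ⟨L, _, _, ρ, ρ0, ρ1, e0, e1, hρg, i0, i1⟩ := hA bU bW x x0 x1 h0 h1 g hg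
  -- a nonzero entry of `ρ g - 1`
  obtain ⟨a₀, c₀, hac⟩ : ∃ a c : Fin 2, (ρ g : Matrix (Fin 2) (Fin 2) L) a c ≠
      (1 : Matrix (Fin 2) (Fin 2) L) a c := by
    by_contra hcon
    push Not at hcon
    apply hρg
    ext a c
    simpa using hcon a c
  set δ : L := (ρ g : Matrix (Fin 2) (Fin 2) L) a₀ c₀ - (1 : Matrix (Fin 2) (Fin 2) L) a₀ c₀
    with hδ
  have hδ0 : δ ≠ 0 := sub_ne_zero.2 hac
  let ent : (b : Bool) → GL (Fin 2) L → Fin 2 → Fin 2 → L := fun b M a c =>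
    if b then (M : Matrix (Fin 2) (Fin 2) L) a c else ((M⁻¹ : GL (Fin 2) L).1) a c
  let SW : Finset L := Finset.univ.image (fun v : Fin rW × Bool × Fin 2 × Fin 2 =>
    ent v.2.1 (ρ (bW (FreeGroup.of v.1))) v.2.2.1 v.2.2.2)
  let S0 : Finset L := Finset.univ.image (fun v : Fin rU × Bool × Fin 2 × Fin 2 =>
    ent v.2.1 (ρ0 (bU (FreeGroup.of v.1))) v.2.2.1 v.2.2.2)
  let S1 : Finset L := Finset.univ.image (fun v : Fin rU × Bool × Fin 2 × Fin 2 =>
    ent v.2.1 (ρ1 (bU (FreeGroup.of v.1))) v.2.2.1 v.2.2.2)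
  let S : Finset L := insert δ⁻¹ (SW ∪ (S0 ∪ S1))
  let R : Subalgebra (ZMod p) L := Algebra.adjoin (ZMod p) (S : Set L)
  have hRft : Algebra.FiniteType (ZMod p) R :=
    (Subalgebra.fg_iff_finiteType R).1 (Subalgebra.fg_adjoin_finset S)
  have hS : ∀ y ∈ S, y ∈ R := fun y hy => Algebra.subset_adjoin hy
  have hmW : ∀ i b a c, ent b (ρ (bW (FreeGroup.of i))) a c ∈ R := fun i b a c =>
    hS _ (by
      simp only [S, Finset.mem_insert, Finset.mem_union]
      exact Or.inr (Or.inl (Finset.mem_image.2 ⟨(i, b, a, c), Finset.mem_univ _, rfl⟩)))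
  have hm0 : ∀ i b a c, ent b (ρ0 (bU (FreeGroup.of i))) a c ∈ R := fun i b a c =>
    hS _ (by
      simp only [S, Finset.mem_insert, Finset.mem_union]
      exact Or.inr (Or.inr (Or.inl
        (Finset.mem_image.2 ⟨(i, b, a, c), Finset.mem_univ _, rfl⟩))))
  have hm1 : ∀ i b a c, ent b (ρ1 (bU (FreeGroup.of i))) a c ∈ R := fun i b a c =>
    hS _ (by
      simp only [S, Finset.mem_insert, Finset.mem_union]
      exact Or.inr (Or.inr (Or.inr
        (Finset.mem_image.2 ⟨(i, b, a, c), Finset.mem_univ _, rfl⟩))))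
  have hδR : δ⁻¹ ∈ R := hS _ (Finset.mem_insert_self _ _)
  obtain ⟨ρ', hρ'⟩ := exists_descend bW ρ R (fun i a c => hmW i true a c)
    (fun i a c => hmW i false a c)
  obtain ⟨ρ0', hρ0'⟩ := exists_descend bU ρ0 R (fun i a c => hm0 i true a c)
    (fun i a c => hm0 i false a c)
  obtain ⟨ρ1', hρ1'⟩ := exists_descend bU ρ1 R (fun i a c => hm1 i true a c)
    (fun i a c => hm1 i false a c)
  have hRinj : Function.Injective (algebraMap R L) := Subtype.val_injective
  have hent : ∀ {H : Type} [Group H] (σ : H →* GL (Fin 2) R) (τ : H →* GL (Fin 2) L)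
      (_ : ∀ y, GeneralLinearGroup.map (n := Fin 2) (algebraMap R L) (σ y) = τ y) (y : H)
      (a c : Fin 2), algebraMap R L ((σ y : Matrix (Fin 2) (Fin 2) R) a c) =
        (τ y : Matrix (Fin 2) (Fin 2) L) a c := by
    intro H _ σ τ h y a c
    rw [← h y]
    rfl
  have j0 : ∀ j, ρ0' (x j) = ρ' (x0 j) := by
    intro j
    apply gl_map_injective _ hRinj
    rw [hρ0', hρ', e0 j]
  have j1 : ∀ j, ρ1' (x j) = ρ' (x1 j) := by
    intro j
    apply gl_map_injective _ hRinj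
    rw [hρ1', hρ', e1 j]
  -- weak Hrushovski
  have hind : ∀ (σ : U →* GL (Fin 2) R) (τ : U →* GL (Fin 2) L)
      (_ : ∀ y, GeneralLinearGroup.map (n := Fin 2) (algebraMap R L) (σ y) = τ y)
      (_ : AlgebraicIndependent (ZMod p) (fun v : Fin rU × Fin 2 × Fin 2 =>
        (τ (bU (FreeGroup.of v.1)) : Matrix (Fin 2) (Fin 2) L) v.2.1 v.2.2)),
      AlgebraicIndependent (ZMod p) (fun v : Fin rU × Fin 2 × Fin 2 =>
        (σ (bU (FreeGroup.of v.1)) : Matrix (Fin 2) (Fin 2) R) v.2.1 v.2.2) := by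
    intro σ τ h hi
    apply AlgebraicIndependent.of_comp (IsScalarTower.toAlgHom (ZMod p) R L)
    have hfun : (⇑(IsScalarTower.toAlgHom (ZMod p) R L) ∘ fun v : Fin rU × Fin 2 × Fin 2 =>
        (σ (bU (FreeGroup.of v.1)) : Matrix (Fin 2) (Fin 2) R) v.2.1 v.2.2) =
        fun v : Fin rU × Fin 2 × Fin 2 =>
        (τ (bU (FreeGroup.of v.1)) : Matrix (Fin 2) (Fin 2) L) v.2.1 v.2.2 := by
      funext v
      exact hent σ τ h _ _ _
    rw [hfun]
    exact hi
  obtain ⟨e, φ, hφ⟩ := hW (R := R) _ _ (hind ρ1' ρ1 hρ1' i1) (hind ρ0' ρ0 hρ0' i0)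
  let Φ : GL (Fin 2) R →* GL (Fin 2) (AlgebraicClosure (ZMod p)) :=
    GeneralLinearGroup.map (n := Fin 2) (φ : R →+* AlgebraicClosure (ZMod p))
  have hΦ : ∀ M a c, (Φ M : Matrix (Fin 2) (Fin 2) (AlgebraicClosure (ZMod p))) a c =
      φ ((M : Matrix (Fin 2) (Fin 2) R) a c) := fun M a c => rfl
  have hfrob : (Φ.comp ρ1') = (GeneralLinearGroup.map (n := Fin 2)
      (iterateFrobenius (AlgebraicClosure (ZMod p)) p e)).comp (Φ.comp ρ0') := by
    have key : (Φ.comp ρ1').comp bU.toMonoidHom = ((GeneralLinearGroup.map (n := Fin 2)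
      (iterateFrobenius (AlgebraicClosure (ZMod p)) p e)).comp
        (Φ.comp ρ0')).comp bU.toMonoidHom := by
      apply FreeGroup.ext_hom
      intro i
      ext a c
      exact hφ (i, a, c)
    ext y a c
    have := DFunLike.congr_fun key (bU.symm y)
    simp only [MonoidHom.comp_apply, MulEquiv.coe_toMonoidHom, MulEquiv.apply_symm_apply] at this
    exact congrArg (fun M : GL (Fin 2) (AlgebraicClosure (ZMod p)) =>
      (M : Matrix (Fin 2) (Fin 2) (AlgebraicClosure (ZMod p))) a c) this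
  refine ⟨e, Φ.comp ρ', ?_, ?_⟩
  · intro h
    have h3 : φ ((ρ' g : Matrix (Fin 2) (Fin 2) R) a₀ c₀ -
        (1 : Matrix (Fin 2) (Fin 2) R) a₀ c₀) = 0 := by
      have h4 := congrArg (fun M : GL (Fin 2) (AlgebraicClosure (ZMod p)) =>
        (M : Matrix (Fin 2) (Fin 2) (AlgebraicClosure (ZMod p))) a₀ c₀) h
      have h5 : φ ((ρ' g : Matrix (Fin 2) (Fin 2) R) a₀ c₀) =
        (1 : Matrix (Fin 2) (Fin 2) (AlgebraicClosure (ZMod p))) a₀ c₀ := h4
      rw [map_sub, h5, Matrix.one_apply, Matrix.one_apply]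
      split_ifs <;> simp
    have h6 : ((ρ' g : Matrix (Fin 2) (Fin 2) R) a₀ c₀ -
        (1 : Matrix (Fin 2) (Fin 2) R) a₀ c₀) * ⟨δ⁻¹, hδR⟩ = 1 := by
      apply hRinj
      rw [map_mul, map_sub, map_one, hent ρ' ρ hρ' g a₀ c₀]
      have h7 : algebraMap R L ((1 : Matrix (Fin 2) (Fin 2) R) a₀ c₀) =
          (1 : Matrix (Fin 2) (Fin 2) L) a₀ c₀ := by
        rw [Matrix.one_apply, Matrix.one_apply]
        split_ifs <;> simp
      rw [h7]
      exact mul_inv_cancel₀ hδ0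
    have h8 := congrArg φ h6
    rw [map_mul, h3, zero_mul, map_one] at h8
    exact zero_ne_one h8
  · intro j a c
    have h3 := DFunLike.congr_fun hfrob (x j)
    simp only [MonoidHom.comp_apply] at h3
    rw [j1, j0] at h3
    exact congrArg (fun M : GL (Fin 2) (AlgebraicClosure (ZMod p)) =>
      (M : Matrix (Fin 2) (Fin 2) (AlgebraicClosure (ZMod p))) a c) h3

end Pool.Agent.LFZ
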