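import Pool.Agent.LFZ.Defs

/-! # Block L1 : one level -/

set_option autoImplicit false

namespace Pool.Agent.LFZ

open MvPolynomial

section L1

theorem sum_indep {p n : ℕ} [Fact p.Prime] {R₀ : Type} [CommRing R₀] [IsDomain R₀]
    [Algebra (ZMod p) R₀] (f : Fin n → R₀)
    (hf : AlgebraicIndependent (ZMod p) f) (G : Type) :
    AlgebraicIndependent (ZMod p)
      (Sum.elim (fun i => (C (f i) : MvPolynomial G R₀)) (fun v : G => X v)) := by
  have h1 := hf.sumElim_comp (MvPolynomial.algebraicIndependent_X G R₀)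
  have h2 : (Sum.elim (fun i => (C (f i) : MvPolynomial G R₀)) (fun v : G => X v)) =
      (Sum.elim (X : G → MvPolynomial G R₀) (⇑(algebraMap R₀ (MvPolynomial G R₀)) ∘ f)) ∘
        (Sum.swap : Fin n ⊕ G → G ⊕ Fin n) := by
    funext v
    rcases v with v | v <;> rfl
  rw [h2]
  exact h1.comp _ Sum.swap_leftInverse.injective

theorem alg_all {p n : ℕ} [Fact p.Prime] {R₀ : Type} [CommRing R₀] [IsDomain R₀]
    [Algebra (ZMod p) R₀] (h : Fin n → R₀)
    (hh : AlgebraicIndependent (ZMod p) h)
    (halg : ∀ r : R₀, IsAlgebraic (Algebra.adjoin (ZMod p) (Set.range h)) r) (G : Type)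
    [Algebra (MvPolynomial (Fin n ⊕ G) (ZMod p)) (MvPolynomial G R₀)]
    (hmap : ∀ x : MvPolynomial (Fin n ⊕ G) (ZMod p),
      algebraMap (MvPolynomial (Fin n ⊕ G) (ZMod p)) (MvPolynomial G R₀) x =
      aeval (Sum.elim (fun i => (C (h i) : MvPolynomial G R₀)) (fun v : G => X v)) x)
    (x : MvPolynomial G R₀) :
    IsAlgebraic (MvPolynomial (Fin n ⊕ G) (ZMod p)) x := by
  have hC : ∀ r : R₀, IsAlgebraic (MvPolynomial (Fin n ⊕ G) (ZMod p))
      (C r : MvPolynomial G R₀) := by
    intro r
    obtain ⟨P, hP, hPr⟩ := halg r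
    let φ : Algebra.adjoin (ZMod p) (Set.range h) →ₐ[ZMod p] MvPolynomial (Fin n ⊕ G) (ZMod p) :=
      (rename (Sum.inl : Fin n → Fin n ⊕ G)).comp
        (hh.aevalEquiv.symm : Algebra.adjoin (ZMod p) (Set.range h) →ₐ[ZMod p]
          MvPolynomial (Fin n) (ZMod p))
    have hφ : Function.Injective φ :=
      (rename_injective _ Sum.inl_injective).comp hh.aevalEquiv.symm.injective
    have hcomp : ((algebraMap (MvPolynomial (Fin n ⊕ G) (ZMod p)) (MvPolynomial G R₀)).comp
        (φ : Algebra.adjoin (ZMod p) (Set.range h) →+* MvPolynomial (Fin n ⊕ G) (ZMod p))) =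
        (C : R₀ →+* MvPolynomial G R₀).comp
          (algebraMap (Algebra.adjoin (ZMod p) (Set.range h)) R₀) := by
      ext1 y
      obtain ⟨z, rfl⟩ := hh.aevalEquiv.surjective y
      simp only [RingHom.comp_apply, hmap]
      have e1 : (φ : Algebra.adjoin (ZMod p) (Set.range h) →+* MvPolynomial (Fin n ⊕ G) (ZMod p))
          (hh.aevalEquiv z) = rename (Sum.inl : Fin n → Fin n ⊕ G) z := by
        change rename (Sum.inl : Fin n → Fin n ⊕ G) (hh.aevalEquiv.symm (hh.aevalEquiv z)) = _
        rw [AlgEquiv.symm_apply_apply]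
      rw [e1, aeval_rename]
      have e2 : algebraMap (Algebra.adjoin (ZMod p) (Set.range h)) R₀ (hh.aevalEquiv z) =
          aeval h z := hh.algebraMap_aevalEquiv z
      rw [e2]
      have e3 : (Sum.elim (fun i => (C (h i) : MvPolynomial G R₀)) (fun v : G => X v)) ∘ Sum.inl =
        fun i => algebraMap R₀ (MvPolynomial G R₀) (h i) := rfl
      rw [e3]
      exact MvPolynomial.aeval_algebraMap_apply (MvPolynomial G R₀) h z
    refine ⟨P.map (φ : Algebra.adjoin (ZMod p) (Set.range h) →+*
      MvPolynomial (Fin n ⊕ G) (ZMod p)), ?_, ?_⟩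
    · intro h0
      exact hP ((Polynomial.map_eq_zero_iff (f := (φ : Algebra.adjoin (ZMod p) (Set.range h) →+*
        MvPolynomial (Fin n ⊕ G) (ZMod p))) hφ).1 h0)
    · rw [Polynomial.aeval_def, Polynomial.eval₂_map, hcomp, ← Polynomial.hom_eval₂]
      rw [Polynomial.aeval_def] at hPr
      rw [hPr, map_zero]
  induction x using MvPolynomial.induction_on with
  | C r => exact hC r
  | add a b ha hb => exact ha.add hb
  | mul_X a v ha =>
    refine ha.mul ?_
    have : (X v : MvPolynomial G R₀) =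
      algebraMap (MvPolynomial (Fin n ⊕ G) (ZMod p)) (MvPolynomial G R₀) (X (Sum.inr v)) := by
      rw [hmap, aeval_X]
      rfl
    rw [this]
    exact isAlgebraic_algebraMap _

theorem level_step {p n : ℕ} [Fact p.Prime] {R₀ : Type} [CommRing R₀] [IsDomain R₀]
    [Algebra (ZMod p) R₀] (f h : Fin n → R₀)
    (hf : AlgebraicIndependent (ZMod p) f) (hh : AlgebraicIndependent (ZMod p) h)
    (halg : ∀ r : R₀, IsAlgebraic (Algebra.adjoin (ZMod p) (Set.range h)) r)
    (j K a : ℕ) (B : Lev p n j K) (hB : B ≠ 0) :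
    ∃ (M : ℕ) (b : ℕ → Lev p n j (K + 1)), b 0 ≠ 0 ∧
      ∀ (E : Type) [Field E] [Algebra (ZMod p) E] (ψ : R₀ →ₐ[ZMod p] E)
        (γ : Gam n j (K + 1) → E),
        ∑ m ∈ Finset.range (M + 1),
          MvPolynomial.aeval (Sum.elim (fun i => ψ (h i)) γ) (b m) *
          (MvPolynomial.aeval (Sum.elim
            (fun i : Fin n => if hi : i.val ≤ j then ψ (f i)
              else γ (Fin.last K, some ⟨i, not_le.1 hi⟩))
            (fun v : Gam n j K => γ (upG v))) B) ^ m *
          ((∏ i : Fin n with i.val ≤ j, (ψ (f i) - γ (Fin.last K, none))) ^ a) ^ (M - m)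
          = 0 := by
  classical
  let G := Gam n j (K + 1)
  let S := MvPolynomial G R₀
  let τ : Lev p n j (K + 1) →ₐ[ZMod p] S :=
    aeval (Sum.elim (fun i => (C (h i) : S)) (fun v : G => X v))
  have hτ : Function.Injective τ := sum_indep h hh G
  let _ : Algebra (Lev p n j (K + 1)) S := (τ : Lev p n j (K + 1) →+* S).toAlgebra
  have halgS : ∀ x : S, IsAlgebraic (Lev p n j (K + 1)) x := by
    intro x
    exact alg_all h hh halg G (fun _ => rfl) x
  let s : Fin n ⊕ Gam n j K → S := Sum.elim
            (fun i : Fin n => if hi : i.val ≤ j then (C (f i) : S)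
              else X (Fin.last K, some ⟨i, not_le.1 hi⟩))
            (fun v : Gam n j K => X (upG v))
  let ι : Fin n ⊕ Gam n j K → Fin n ⊕ G := Sum.elim
    (fun i : Fin n => if hi : i.val ≤ j then Sum.inl i
              else Sum.inr (Fin.last K, some ⟨i, not_le.1 hi⟩))
    (fun v => Sum.inr (upG v))
  have hι : Function.Injective ι := by
    rintro (i | v) (i' | v') hiv
    · simp only [ι, Sum.elim_inl] at hiv
      split_ifs at hiv with h1 h2 h2
      · rw [Sum.inl.inj hiv]
      · have := Sum.inr.inj hiv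
        have h3 := congrArg (fun w : G => w.2) this
        simp only [Option.some.injEq, Subtype.mk.injEq] at h3
        rw [h3]
    · simp only [ι, Sum.elim_inl, Sum.elim_inr] at hiv
      split_ifs at hiv with h1
      have := congrArg (fun w : G => w.1) (Sum.inr.inj hiv)
      exact absurd this.symm (Fin.castSucc_lt_last _).ne
    · simp only [ι, Sum.elim_inl, Sum.elim_inr] at hiv
      split_ifs at hiv with h1
      have := congrArg (fun w : G => w.1) (Sum.inr.inj hiv)
      exact absurd this (Fin.castSucc_lt_last _).ne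
    · simp only [ι, Sum.elim_inr] at hiv
      have h1 := congrArg (fun w : G => w.1) (Sum.inr.inj hiv)
      have h2 := congrArg (fun w : G => w.2) (Sum.inr.inj hiv)
      simp only [upG] at h1 h2
      rw [Prod.ext (Fin.castSucc_injective _ h1) h2]
  have hsι : s = (Sum.elim (fun i => (C (f i) : S)) (fun v : G => X v)) ∘ ι := by
    funext v
    rcases v with i | v
    · simp only [s, ι, Sum.elim_inl, Function.comp_apply]
      split_ifs <;> rfl
    · rfl
  have hsind : AlgebraicIndependent (ZMod p) s := by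
    rw [hsι]
    exact (sum_indep f hf G).comp _ hι
  let F : S := aeval s B
  have hF : F ≠ 0 := fun h0 => hB (hsind.eq_zero_of_aeval_eq_zero _ h0)
  let Δ : S := ∏ i : Fin n with i.val ≤ j, ((C (f i) : S) - X (Fin.last K, none))
  have hΔ : Δ ≠ 0 := by
    refine Finset.prod_ne_zero_iff.2 ?_
    intro i _ h0
    have h1 := congrArg (MvPolynomial.coeff (Finsupp.single ((Fin.last K, none) : G) 1)) h0
    rw [coeff_sub, coeff_C, coeff_X, coeff_zero, if_neg, zero_sub, neg_eq_zero, if_pos rfl] at h1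
    · exact one_ne_zero h1
    · intro h2
      have := congrArg (fun q : G →₀ ℕ => q (Fin.last K, none)) h2
      simp at this
  let Q := FractionRing S
  have hinj : Function.Injective (algebraMap S Q) := IsFractionRing.injective S Q
  have hF' : algebraMap S Q F ≠ 0 := fun h0 => hF (hinj (by rw [h0, map_zero]))
  have hΔ' : algebraMap S Q Δ ≠ 0 := fun h0 => hΔ (hinj (by rw [h0, map_zero]))
  have halgQ : ∀ x : S, IsAlgebraic (Lev p n j (K + 1)) (algebraMap S Q x) := by
    intro x
    exact (halgS x).algebraMap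
  have hη : IsAlgebraic (Lev p n j (K + 1))
      (algebraMap S Q F * (algebraMap S Q Δ ^ a)⁻¹) :=
    (halgQ F).mul ((halgQ Δ).pow a).inv
  have hη0 : algebraMap S Q F * (algebraMap S Q Δ ^ a)⁻¹ ≠ 0 :=
    mul_ne_zero hF' (inv_ne_zero (pow_ne_zero _ hΔ'))
  obtain ⟨q, hq0, hq⟩ := hη.exists_nonzero_coeff_and_aeval_eq_zero
    (mem_nonZeroDivisors_of_ne_zero hη0)
  have hrel : ∑ m ∈ Finset.range (q.natDegree + 1),
      τ (q.coeff m) * F ^ m * (Δ ^ a) ^ (q.natDegree - m) = 0 := by
    apply hinj
    rw [map_zero, map_sum]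
    rw [Polynomial.aeval_eq_sum_range] at hq
    have h2 := congrArg (fun y => y * (algebraMap S Q Δ ^ a) ^ q.natDegree) hq
    simp only [zero_mul, Finset.sum_mul] at h2
    rw [← h2]
    apply Finset.sum_congr rfl
    intro m hm
    have hm' : m ≤ q.natDegree := Nat.lt_succ_iff.1 (Finset.mem_range.1 hm)
    rw [map_mul, map_mul, map_pow, map_pow, map_pow, Algebra.smul_def,
      IsScalarTower.algebraMap_apply (Lev p n j (K + 1)) S Q]
    have h3 : algebraMap (Lev p n j (K + 1)) S (q.coeff m) = τ (q.coeff m) := rfl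
    rw [h3, mul_pow, inv_pow]
    have h4 : (algebraMap S Q Δ ^ a) ^ q.natDegree =
      (algebraMap S Q Δ ^ a) ^ m * (algebraMap S Q Δ ^ a) ^ (q.natDegree - m) := by
      rw [← pow_add, Nat.add_sub_cancel' hm']
    rw [h4]
    have h5 : (algebraMap S Q Δ ^ a) ^ m ≠ 0 := pow_ne_zero _ (pow_ne_zero _ hΔ')
    have h6 : ∀ t u x y : Q, x ≠ 0 → t * u * y = t * (u * x⁻¹) * (x * y) := by
      intro t u x y hx
      calc t * u * y = t * u * y * (x⁻¹ * x) := by rw [inv_mul_cancel₀ hx, mul_one]
        _ = _ := by ring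
    exact h6 _ _ _ _ h5
  refine ⟨q.natDegree, fun m => q.coeff m, hq0, ?_⟩
  intro E _ _ ψ γ
  let Θ : S →+* E := eval₂Hom (ψ : R₀ →+* E) γ
  have hΘC : ∀ r, Θ (C r) = ψ r := fun r => eval₂Hom_C _ _ _
  have hΘX : ∀ v, Θ (X v) = γ v := fun v => eval₂Hom_X' _ _ _
  have hΘc : ∀ r : ZMod p, Θ (algebraMap (ZMod p) S r) = algebraMap (ZMod p) E r := by
    intro r
    have : algebraMap (ZMod p) S r = C (algebraMap (ZMod p) R₀ r) := rfl
    rw [this, hΘC, AlgHom.commutes]
  let Θ' : S →ₐ[ZMod p] E := { Θ with commutes' := hΘc }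
  have hΘτ : ∀ x, Θ (τ x) = aeval (Sum.elim (fun i => ψ (h i)) γ) x := by
    intro x
    have : Θ'.comp τ = aeval (Sum.elim (fun i => ψ (h i)) γ) := by
      apply MvPolynomial.algHom_ext
      rintro (i | v)
      · change Θ (τ (X (Sum.inl i))) = _
        simp only [τ, aeval_X, Sum.elim_inl, hΘC]
      · change Θ (τ (X (Sum.inr v))) = _
        simp only [τ, aeval_X, Sum.elim_inr, hΘX]
    exact DFunLike.congr_fun this x
  have hΘF : Θ F = aeval (Sum.elim
            (fun i : Fin n => if hi : i.val ≤ j then ψ (f i)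
              else γ (Fin.last K, some ⟨i, not_le.1 hi⟩))
            (fun v : Gam n j K => γ (upG v))) B := by
    have : Θ'.comp (aeval s) = aeval (Sum.elim
            (fun i : Fin n => if hi : i.val ≤ j then ψ (f i)
              else γ (Fin.last K, some ⟨i, not_le.1 hi⟩))
            (fun v : Gam n j K => γ (upG v))) := by
      apply MvPolynomial.algHom_ext
      rintro (i | v)
      · change Θ (aeval s (X (Sum.inl i))) = _
        simp only [s, aeval_X, Sum.elim_inl]
        split_ifs
        · exact hΘC _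
        · exact hΘX _
      · change Θ (aeval s (X (Sum.inr v))) = _
        simp only [s, aeval_X, Sum.elim_inr, hΘX]
    exact DFunLike.congr_fun this B
  have hΘΔ : Θ Δ = ∏ i : Fin n with i.val ≤ j, (ψ (f i) - γ (Fin.last K, none)) := by
    simp only [Δ, map_prod, map_sub, hΘC, hΘX]
  have := congrArg Θ hrel
  rw [map_sum, map_zero] at this
  rw [← this]
  apply Finset.sum_congr rfl
  intro m _
  rw [map_mul, map_mul, map_pow, map_pow, map_pow, hΘτ, hΘF, hΘΔ]

end L1

end Pool.Agent.LFZ
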