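import Pool.Agent.LFZ.Window
import Pool.Agent.LFZ.FinQuot

/-!
# MP_08a057_al : finitely presented (locally free)-by-Z groups are residually finite
-/

set_option autoImplicit false

namespace Pool.Agent.LFZ


theorem Pw_FG' {G : Type} [Group G] {n : ℕ} (t : G) (s : Fin n → G) (a b : ℤ) :
    (Pw t s a b).FG := by
  have hfin : {y | ∃ l : ℤ, a ≤ l ∧ l ≤ b ∧ ∃ i, y = t ^ l * s i * t ^ (-l)}.Finite := by
    have h1 : ((Set.Icc a b) ×ˢ (Set.univ : Set (Fin n))).Finite :=
      (Set.finite_Icc a b).prod Set.finite_univ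
    refine (h1.image (fun q : ℤ × Fin n => t ^ q.1 * s q.2 * t ^ (-q.1))).subset ?_
    rintro y ⟨l, ha, hb, i, rfl⟩
    exact ⟨(l, i), ⟨⟨ha, hb⟩, trivial⟩, rfl⟩
  exact ⟨hfin.toFinset, by simp [Pw]⟩

theorem rf_of_fp {G : Type} [Group G] {n : ℕ} (π : FreeGroup (Fin n) →* G)
    (hπ : Function.Surjective π) (R : Set (FreeGroup (Fin n))) (hR : R.Finite)
    (hker : π.ker = Subgroup.normalClosure R) (χ : G →* Multiplicative ℤ)
    (hχ : Function.Surjective χ) (hN : LocallyFree χ.ker) : RF G := by
  intro g hg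
  by_cases hχg : χ g = 1
  · obtain ⟨t, ht⟩ := hχ (Multiplicative.ofAdd 1)
    obtain ⟨m, M, hmem, hfq⟩ := fin_quot π hπ R hR hker χ t ht g hχg
    set s : Fin n → G :=
      fun i => π (FreeGroup.of i) * t ^ (-(χ (π (FreeGroup.of i))).toAdd) with hs
    have hsker : ∀ i, s i ∈ χ.ker := by
      intro i
      rw [MonoidHom.mem_ker, hs]
      simp only [map_mul, map_zpow, ht]
      rw [← ofAdd_zsmul]
      simp
    have hPle : ∀ a b : ℤ, Pw t s a b ≤ χ.ker := by
      intro a b
      rw [Pw, Subgroup.closure_le]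
      rintro y ⟨l, -, -, i, rfl⟩
      show _ ∈ χ.ker
      have := hsker i
      rw [MonoidHom.mem_ker] at this ⊢
      rw [map_mul, map_mul, this, mul_one, ← map_mul, ← zpow_add]
      simp
    have hfree : ∀ a b : ℤ, a ≤ b → IsFreeGroup (Pw t s a b) :=
      fun a b _ => hN _ (hPle a b) (Pw_FG' t s a b)
    have hg1 : t ^ M * g * (t ^ M)⁻¹ ≠ 1 := by
      intro h0
      apply hg
      have : t ^ M * g = t ^ M := by
        have := mul_eq_one_iff_eq_inv.1 h0
        simpa using this
      simpa using this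
    haveI : Fact (Nat.Prime 2) := ⟨Nat.prime_two⟩
    obtain ⟨e, ρ, h1, h2⟩ := window_rep t s hfree m _ hmem hg1 2
    exact hfq 2 e ρ h1 h2
  · -- finite cyclic quotient
    set z : ℤ := (χ g).toAdd with hz
    have hz0 : z ≠ 0 := by
      intro h0
      apply hχg
      apply Multiplicative.toAdd.injective
      simpa [hz] using h0
    let k : ℕ := z.natAbs + 1
    let q : Multiplicative ℤ →* Multiplicative (ZMod k) :=
      AddMonoidHom.toMultiplicative (Int.castAddHom (ZMod k))
    refine ⟨(q.comp χ).ker, inferInstance, ?_, ?_⟩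
    · haveI : NeZero k := ⟨Nat.succ_ne_zero _⟩
      haveI : Finite (Multiplicative (ZMod k)) := inferInstance
      haveI : Finite (q.comp χ).range := inferInstance
      rw [Subgroup.index_ker]
      exact Nat.card_pos.ne'
    · intro hmem
      rw [MonoidHom.mem_ker, MonoidHom.comp_apply] at hmem
      have h1 : ((z : ℤ) : ZMod k) = 0 := by
        have := congrArg Multiplicative.toAdd hmem
        simpa [q, hz] using this
      rw [ZMod.intCast_zmod_eq_zero_iff_dvd] at h1
      have h2 := Int.natAbs_dvd_natAbs.2 h1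
      have h3 : k ≤ z.natAbs := by
        have := Nat.le_of_dvd (Int.natAbs_pos.2 hz0) h2
        simpa using this
      omega

end Pool.Agent.LFZ
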