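import Pool.Agent.LFZ.FinIndex

/-!
# MP_08a057_al : block G8 (modulo block G6): abelianization bookkeeping
-/

set_option autoImplicit false

namespace Pool.Agent.LFZ

open DirectSum

/-- The statement of `rf_of_fp` (block G6). -/
def RfOfFpStmt : Prop :=
  ∀ {G : Type} [Group G] {n : ℕ} (π : FreeGroup (Fin n) →* G)
    (_ : Function.Surjective π) (R : Set (FreeGroup (Fin n))) (_ : R.Finite)
    (_ : π.ker = Subgroup.normalClosure R) (χ : G →* Multiplicative ℤ)
    (_ : Function.Surjective χ) (_ : LocallyFree χ.ker), RF G

theorem RF.of_subgroup {G : Type} [Group G] (G0 : Subgroup G) [hG0 : G0.FiniteIndex]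
    (h : RF G0) : RF G := by
  intro g hg
  by_cases hgm : g ∈ G0
  · have hne : (⟨g, hgm⟩ : G0) ≠ 1 := fun h => hg (congrArg Subtype.val h)
    obtain ⟨N0, _, hi, hn⟩ := h _ hne
    have hidx : (N0.map G0.subtype).index ≠ 0 := by
      rw [Subgroup.index_map_subtype]
      exact mul_ne_zero hi hG0.index_ne_zero
    have hfi : (N0.map G0.subtype).FiniteIndex := ⟨hidx⟩
    refine ⟨(N0.map G0.subtype).normalCore, inferInstance, ?_, ?_⟩
    · exact Subgroup.FiniteIndex.index_ne_zero
    · intro hc
      obtain ⟨z, hz, hzg⟩ := Subgroup.normalCore_le _ hc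
      have : z = ⟨g, hgm⟩ := Subtype.ext hzg
      exact hn (this ▸ hz)
  · exact ⟨G0.normalCore, inferInstance, Subgroup.FiniteIndex.index_ne_zero,
      fun hc => hgm (Subgroup.normalCore_le _ hc)⟩

theorem LocallyFree.of_map {G : Type} [Group G] (G0 : Subgroup G) (N : Subgroup G)
    (hN : LocallyFree N) (K : Subgroup G0) (hK : K.map G0.subtype ≤ N) : LocallyFree K := by
  intro H hH hfg
  have hfg' : (H.map G0.subtype).FG := by
    rw [← Group.fg_iff_subgroup_fg] at hfg ⊢
    exact Group.fg_of_surjective
      (f := (H.equivMapOfInjective G0.subtype G0.subtype_injective).toMonoidHom)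
      (H.equivMapOfInjective G0.subtype G0.subtype_injective).surjective
  have h1 : IsFreeGroup (H.map G0.subtype) :=
    hN _ ((Subgroup.map_mono hH).trans hK) hfg'
  exact IsFreeGroup.ofMulEquiv
    (H.equivMapOfInjective G0.subtype G0.subtype_injective).symm

theorem RF.of_mulEquiv {G H : Type} [Group G] [Group H] (e : G ≃* H) (h : RF G) : RF H := by
  intro g hg
  obtain ⟨N, hN, hi, hn⟩ := h (e.symm g) (by simpa using hg)
  refine ⟨N.comap e.symm.toMonoidHom, inferInstance, ?_, hn⟩
  rw [Subgroup.index_comap_of_surjective N e.symm.surjective]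
  exact hi

/-- free groups of finite rank are residually finite (consequence of G6) -/
theorem rf_freeGroup (hG6 : RfOfFpStmt) (r : ℕ) : RF (FreeGroup (Fin r)) := by
  rcases Nat.eq_zero_or_pos r with rfl | hr
  · intro g hg
    exact absurd (Subsingleton.elim g 1) hg
  · let χ : FreeGroup (Fin r) →* Multiplicative ℤ :=
      FreeGroup.lift (fun _ => Multiplicative.ofAdd 1)
    have hχ : Function.Surjective χ := by
      intro z
      refine ⟨FreeGroup.of ⟨0, hr⟩ ^ z.toAdd, ?_⟩
      rw [map_zpow]
      simp only [χ, FreeGroup.lift_apply_of]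
      rw [← ofAdd_zsmul]
      simp
    refine hG6 (MonoidHom.id _) Function.surjective_id ∅ Set.finite_empty ?_ χ hχ ?_
    · rw [Subgroup.normalClosure_empty]
      exact (MonoidHom.ker_eq_bot_iff _).2 Function.injective_id
    · intro H _ _
      infer_instance

theorem rf_of_rank_le_one_aux (hG6 : RfOfFpStmt) {n : ℕ} (R : Set (FreeGroup (Fin n)))
    (hR : R.Finite) (hN : LocallyFree (commutator (PresentedGroup R)))
    (hb : Module.finrank ℤ (Additive (Abelianization (PresentedGroup R))) ≤ 1) :
    RF (PresentedGroup R) := by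
  set G := PresentedGroup R with hG
  let π : FreeGroup (Fin n) →* G := PresentedGroup.mk R
  have hπ : Function.Surjective π := PresentedGroup.mk_surjective R
  have hker : π.ker = Subgroup.normalClosure R := QuotientGroup.ker_mk' _
  have hfgG : Group.FG G := Group.fg_of_surjective hπ
  let q : G →* Abelianization G := Abelianization.of
  have hq : Function.Surjective q := QuotientGroup.mk_surjective
  have hkq : q.ker = commutator G := Abelianization.ker_of G
  have hfgA : Group.FG (Abelianization G) := Group.fg_of_surjective hq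
  have hfgM : AddGroup.FG (Additive (Abelianization G)) := GroupFG.iff_add_fg.1 hfgA
  obtain ⟨m, ι, _, p, hp, e, ⟨Φ⟩⟩ :=
    AddCommGroup.equiv_free_prod_directSum_zmod (Additive (Abelianization G))
  have hfinD : Finite (⨁ i : ι, ZMod (p i ^ e i)) := by
    have : ∀ i : ι, NeZero (p i ^ e i) := fun i => ⟨pow_ne_zero _ (hp i).ne_zero⟩
    have : ∀ i : ι, Finite (ZMod (p i ^ e i)) := fun i => inferInstance
    exact Finite.of_equiv _ (DirectSum.addEquivProd (fun i : ι => ZMod (p i ^ e i))).symm.toEquiv
  have hm : m ≤ 1 := by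
    refine le_trans ?_ hb
    have : Module.Finite ℤ (Additive (Abelianization G)) := Module.Finite.iff_addGroup_fg.mpr hfgM
    let f : (Fin m →₀ ℤ) →ₗ[ℤ] Additive (Abelianization G) :=
      (Φ.symm.toAddMonoidHom.toIntLinearMap).comp (LinearMap.inl ℤ _ _)
    have hf : Function.Injective f := by
      intro a b hab
      exact (Prod.mk.inj (Φ.symm.injective hab)).1
    have := LinearMap.finrank_le_finrank_of_injective hf
    rwa [Module.finrank_finsupp_self, Fintype.card_fin] at this
  rcases Nat.eq_zero_or_pos m with rfl | hm0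
  · -- the abelianization is finite
    have hfinA : Finite (Abelianization G) :=
      Finite.of_equiv _ (Φ.symm.toEquiv.trans Additive.toMul)
    have hfinQ : Finite (G ⧸ commutator G) := hfinA
    have hfi : (commutator G).FiniteIndex := Subgroup.finiteIndex_of_finite_quotient
    have hfg : Group.FG (commutator G) := Subgroup.fg_of_index_ne_zero (H := commutator G)
    have hfree : IsFreeGroup (commutator G) :=
      hN _ le_rfl ((Group.fg_iff_subgroup_fg _).1 hfg)
    obtain ⟨r, ⟨E⟩⟩ := exists_freeGroup_equiv hfree hfg
    exact RF.of_subgroup (commutator G) (RF.of_mulEquiv E (rf_freeGroup hG6 r))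
  · obtain rfl : m = 1 := le_antisymm hm hm0
    let χA : Abelianization G →* Multiplicative ℤ :=
      { toFun := fun b => Multiplicative.ofAdd ((Φ (Additive.ofMul b)).1 0)
        map_one' := by
          have h0 : Φ (Additive.ofMul (1 : Abelianization G)) = 0 := map_zero Φ
          rw [h0]
          rfl
        map_mul' := by
          intro b c
          have h0 : Φ (Additive.ofMul (b * c)) =
            Φ (Additive.ofMul b) + Φ (Additive.ofMul c) := map_add Φ _ _
          rw [h0]
          rfl }
    let a : Abelianization G := (Φ.symm (Finsupp.single 0 1, 0)).toMul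
    have hχa : χA a = Multiplicative.ofAdd 1 := by
      show Multiplicative.ofAdd ((Φ (Additive.ofMul a)).1 0) = _
      simp only [a, ofMul_toMul, AddEquiv.apply_symm_apply, Finsupp.single_eq_same]
    have hχaz : ∀ z : ℤ, χA (a ^ z) = Multiplicative.ofAdd z := by
      intro z
      rw [map_zpow, hχa, ← ofAdd_zsmul]
      simp
    have hfinQ : Finite (Abelianization G ⧸ Subgroup.zpowers a) := by
      let F : (⨁ i : ι, ZMod (p i ^ e i)) → Abelianization G ⧸ Subgroup.zpowers a :=
        fun d => QuotientGroup.mk (Φ.symm (0, d)).toMul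
      refine Finite.of_surjective F ?_
      intro b
      induction b using QuotientGroup.induction_on with
      | H b =>
        refine ⟨(Φ (Additive.ofMul b)).2, ?_⟩
        show (QuotientGroup.mk _ : Abelianization G ⧸ Subgroup.zpowers a) = QuotientGroup.mk b
        rw [QuotientGroup.eq]
        refine Subgroup.mem_zpowers_iff.2 ⟨(Φ (Additive.ofMul b)).1 0, ?_⟩
        apply Additive.ofMul.injective
        apply Φ.injective
        rw [ofMul_zpow, map_zsmul, ofMul_mul, ofMul_inv, map_add, map_neg]
        simp only [a, ofMul_toMul, AddEquiv.apply_symm_apply]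
        apply Prod.ext
        · refine Finsupp.ext fun i => ?_
          obtain rfl : i = 0 := Subsingleton.elim _ _
          simp
        · simp
    let G0 : Subgroup G := (Subgroup.zpowers a).comap q
    have hfiZ : (Subgroup.zpowers a).FiniteIndex := Subgroup.finiteIndex_of_finite_quotient
    have hfi : G0.FiniteIndex := ⟨by
      show ((Subgroup.zpowers a).comap q).index ≠ 0
      rw [Subgroup.index_comap_of_surjective _ hq]
      exact hfiZ.index_ne_zero⟩
    let χ0 : G0 →* Multiplicative ℤ := (χA.comp q).comp G0.subtype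
    have hχ0 : Function.Surjective χ0 := by
      intro z
      obtain ⟨g, hg⟩ := hq (a ^ z.toAdd)
      refine ⟨⟨g, ?_⟩, ?_⟩
      · show q g ∈ Subgroup.zpowers a
        rw [hg]
        exact Subgroup.zpow_mem_zpowers a _
      · show χA (q g) = z
        rw [hg, hχaz]
        rfl
    have hK : LocallyFree χ0.ker := by
      refine LocallyFree.of_map G0 (commutator G) hN χ0.ker ?_
      rintro _ ⟨y, hy, rfl⟩
      obtain ⟨k, hk⟩ := Subgroup.mem_zpowers_iff.1 (show q y ∈ Subgroup.zpowers a from y.2)
      have h1 : χA (q y) = 1 := hy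
      rw [← hk, hχaz] at h1
      have hk0 : k = 0 := h1
      rw [hk0, zpow_zero] at hk
      rw [← hkq]
      exact hk.symm
    obtain ⟨m', π', R', hπ', hR', hker'⟩ := fp_of_finiteIndex π hπ R hR hker G0
    exact RF.of_subgroup G0 (hG6 π' hπ' R' hR' hker' χ0 hχ0 hK)

end Pool.Agent.LFZ
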