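import Pool.Agent.LFZ.MainA
import Pool.Agent.LFZ.OneRelAux

/-!
# MP_08a057_al : groups with locally free derived group and first Betti number at most one
-/

set_option autoImplicit false

namespace Pool.Agent.LFZ

theorem rf_of_rank_le_one {n : ℕ} (R : Set (FreeGroup (Fin n))) (hR : R.Finite)
    (hN : LocallyFree (commutator (PresentedGroup R)))
    (hb : Module.finrank ℤ (Additive (Abelianization (PresentedGroup R))) ≤ 1) :
    RF (PresentedGroup R) :=
  rf_of_rank_le_one_aux rf_of_fp R hR hN hb

end Pool.Agent.LFZ
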