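import Pool.Agent.LFZ.Defs

/-!
# Block S2: the initial stage
-/

set_option autoImplicit false

namespace Pool.Agent.LFZ

open IntermediateField

/-- Finite extensions of a field which contains a given one. -/
theorem finite_of_image {k K E : Type} [Field k] [Field K] [Field E] [Algebra k E] [Algebra K E]
    [Module.Finite K E] (L : IntermediateField k E) (hL : ∀ x : K, algebraMap K E x ∈ L) :
    Module.Finite L E := by
  let g : K →+* L := (algebraMap K E).codRestrict L.toSubfield hL
  let := g.toAlgebra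
  have : IsScalarTower K L E := IsScalarTower.of_algebraMap_eq (fun _ => rfl)
  exact Module.Finite.of_restrictScalars_finite K L E

/-- **BLOCK S2** -/
theorem stage_zero {p n : ℕ} [Fact p.Prime] {R₀ : Type} [CommRing R₀] [IsDomain R₀]
    [Algebra (ZMod p) R₀] [Algebra.FiniteType (ZMod p) R₀] (f h : Fin n → R₀)
    (hh : AlgebraicIndependent (ZMod p) h)
    (halg : ∀ r : R₀, IsAlgebraic (Algebra.adjoin (ZMod p) (Set.range h)) r) :
    ∃ C : ℕ, ∀ (Q : ℕ) (D : MvPolynomial (Fin n) (ZMod p)), D ≠ 0 → Stage f h 0 Q C D := by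
  let k := AlgebraicClosure (ZMod p)
  let Ω := AlgebraicClosure (FractionRing R₀)
  let ι : k →ₐ[ZMod p] Ω := IsAlgClosed.lift
  let := ι.toRingHom.toAlgebra
  have tower : IsScalarTower (ZMod p) k Ω := IsScalarTower.of_algebraMap_eq
    (fun x => (ι.commutes x).symm)
  let ψ₀ : R₀ →ₐ[ZMod p] Ω := IsScalarTower.toAlgHom (ZMod p) R₀ Ω
  have hψ₀ : Function.Injective ψ₀ := by
    have h1 : Function.Injective (algebraMap R₀ (FractionRing R₀)) :=
      FaithfulSMul.algebraMap_injective _ _
    have h2 : Function.Injective (algebraMap (FractionRing R₀) Ω) :=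
      (algebraMap (FractionRing R₀) Ω).injective
    have h3 : (ψ₀ : R₀ → Ω) = algebraMap (FractionRing R₀) Ω ∘ algebraMap R₀ (FractionRing R₀) := by
      funext x
      exact IsScalarTower.algebraMap_apply R₀ (FractionRing R₀) Ω x
    rw [h3]
    exact h2.comp h1
  -- the field of the `h i`
  let s : Set (Fin n) := {i : Fin n | 0 ≤ i.val}
  let K₀ : IntermediateField k Ω := adjoin k ((fun i => ψ₀ (h i)) '' s)
  have hK₀ : ∀ i, ψ₀ (h i) ∈ K₀ := fun i => subset_adjoin k _ ⟨i, Nat.zero_le _, rfl⟩
  -- generators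
  obtain ⟨S, hS⟩ := (Algebra.FiniteType.out : (⊤ : Subalgebra (ZMod p) R₀).FG)
  have hadj : ∀ x ∈ Algebra.adjoin (ZMod p) (Set.range h), ψ₀ x ∈ K₀ := by
    intro x hx
    induction hx using Algebra.adjoin_induction with
    | mem x hx =>
      obtain ⟨i, rfl⟩ := hx
      exact hK₀ i
    | algebraMap r =>
      rw [AlgHom.commutes, IsScalarTower.algebraMap_apply (ZMod p) k Ω]
      exact K₀.algebraMap_mem _
    | add x y _ _ hx hy => rw [map_add]; exact K₀.add_mem hx hy
    | mul x y _ _ hx hy => rw [map_mul]; exact K₀.mul_mem hx hy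
  have hint : ∀ r : R₀, IsIntegral K₀ (ψ₀ r) := by
    intro r
    rw [← isAlgebraic_iff_isIntegral]
    let g : Algebra.adjoin (ZMod p) (Set.range h) →+* K₀ :=
      ((ψ₀ : R₀ →+* Ω).comp (Algebra.adjoin (ZMod p) (Set.range h)).val.toRingHom).codRestrict
        K₀.toSubfield (fun x => hadj x x.2)
    refine (halg r).ringHom_of_comp_eq g ψ₀ ?_ ?_
    · intro x y hxy
      have h1 : ψ₀ x = ψ₀ y := congrArg Subtype.val hxy
      exact Subtype.ext (hψ₀ h1)
    · ext x
      rfl
  let E' : IntermediateField K₀ Ω := adjoin K₀ (ψ₀ '' (S : Set R₀))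
  have hE'fin : FiniteDimensional K₀ E' := by
    have : Finite (ψ₀ '' (S : Set R₀) : Set Ω) := (S.finite_toSet.image _).to_subtype
    refine finiteDimensional_adjoin ?_
    rintro x ⟨r, _, rfl⟩
    exact hint r
  have hψE : ∀ r : R₀, ψ₀ r ∈ E' := by
    intro r
    have hr : r ∈ Algebra.adjoin (ZMod p) (S : Set R₀) := by rw [hS]; trivial
    induction hr using Algebra.adjoin_induction with
    | mem x hx => exact subset_adjoin K₀ _ ⟨x, hx, rfl⟩
    | algebraMap r =>
      rw [AlgHom.commutes, IsScalarTower.algebraMap_apply (ZMod p) K₀ Ω]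
      exact E'.algebraMap_mem _
    | add x y _ _ hx hy => rw [map_add]; exact E'.add_mem hx hy
    | mul x y _ _ hx hy => rw [map_mul]; exact E'.mul_mem hx hy
  let ψ : R₀ →ₐ[ZMod p] E' :=
    { (ψ₀ : R₀ →+* Ω).codRestrict E'.toSubfield hψE with
      commutes' := fun x => Subtype.ext (ψ₀.commutes x) }
  let v : E' →ₐ[k] Ω := E'.val.restrictScalars k
  have hvψ : ∀ r, v (ψ r) = ψ₀ r := fun _ => rfl
  let L : IntermediateField k E' := fieldOf k (fun i => ψ (h i)) s
  have hmap : IntermediateField.map v L = K₀ := by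
    change IntermediateField.map v (adjoin k ((fun i => ψ (h i)) '' s)) = K₀
    rw [IntermediateField.adjoin_map, ← Set.image_comp]
    rfl
  have hL : ∀ x : K₀, algebraMap K₀ E' x ∈ L := by
    intro x
    have h1 : (x : Ω) ∈ IntermediateField.map v L := by rw [hmap]; exact x.2
    obtain ⟨y, hy, hyx⟩ := (IntermediateField.mem_map L).1 h1
    have h2 : y = algebraMap K₀ E' x := Subtype.ext hyx
    rw [← h2]
    exact hy
  have hfinL : FiniteDimensional L E' := finite_of_image L hL
  have hind : AlgebraicIndependent (ZMod p) (fun i => ψ (h i)) := by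
    have h1 : AlgebraicIndependent (ZMod p) (ψ₀ ∘ h) := hh.map' hψ₀
    have h2 : AlgebraicIndependent (ZMod p) ((v.restrictScalars (ZMod p)) ∘ fun i => ψ (h i)) := h1
    exact h2.of_comp _
  have hindk : AlgebraicIndependent k (fun i => ψ (h i)) := hind.extendScalars k
  refine ⟨Module.finrank L E', fun Q D hD => ?_⟩
  refine ⟨E', inferInstance, inferInstance, inferInstance, inferInstance, ψ, ?_, ?_, ?_, hfinL,
    le_rfl⟩
  · intro i hi
    exact absurd hi (Nat.not_lt_zero _)
  · intro h0
    exact hD (hind (by rw [h0, map_zero]))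
  · exact hindk.comp _ Subtype.val_injective

end Pool.Agent.LFZ
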