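import Pool.Agent.LFZ.Core
import Pool.Agent.LFZ.StageZero

/-!
# MP_08a057_al : the weak Hrushovski theorem for transcendence bases
-/

set_option autoImplicit false

namespace Pool.Agent.LFZ

open Polynomial IntermediateField

theorem exists_stage {p n : ℕ} [Fact p.Prime] {R₀ : Type} [CommRing R₀] [IsDomain R₀]
    [Algebra (ZMod p) R₀] [Algebra.FiniteType (ZMod p) R₀] (f h : Fin n → R₀)
    (hf : AlgebraicIndependent (ZMod p) f) (hh : AlgebraicIndependent (ZMod p) h)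
    (halg : ∀ r : R₀, IsAlgebraic (Algebra.adjoin (ZMod p) (Set.range h)) r) (j : ℕ)
    (hj : j ≤ n) :
    ∃ Cj : ℕ, ∀ D : MvPolynomial (Fin n) (ZMod p), D ≠ 0 → ∃ C : ℕ, ∀ e : ℕ, C ≤ p ^ e →
      Stage f h j (p ^ e) (Cj * (p ^ e) ^ j) D := by
  induction j with
  | zero =>
    obtain ⟨C, hC⟩ := stage_zero f h hh halg
    refine ⟨C, fun D hD => ⟨0, fun e _ => ?_⟩⟩
    simpa using hC (p ^ e) D hD
  | succ j ih =>
    obtain ⟨Cj, hCj⟩ := ih (by omega)
    refine ⟨2 * Cj, fun D hD => ?_⟩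
    obtain ⟨D', C, hD', hC⟩ := step_core f h hf hh halg ⟨j, by omega⟩ Cj D hD
    obtain ⟨C2, hC2⟩ := hCj D' hD'
    exact ⟨max C C2, fun e he => hC e (le_trans (le_max_left _ _) he)
      (hC2 e (le_trans (le_max_right _ _) he))⟩

theorem weak_hrushovski_basis {p n : ℕ} [Fact p.Prime] {R₀ : Type} [CommRing R₀] [IsDomain R₀]
    [Algebra (ZMod p) R₀] [Algebra.FiniteType (ZMod p) R₀] (f h : Fin n → R₀)
    (hf : AlgebraicIndependent (ZMod p) f) (hh : AlgebraicIndependent (ZMod p) h)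
    (halg : ∀ r : R₀, IsAlgebraic (Algebra.adjoin (ZMod p) (Set.range h)) r) :
    ∃ (e : ℕ) (φ : R₀ →ₐ[ZMod p] AlgebraicClosure (ZMod p)),
      ∀ i, φ (f i) = φ (h i) ^ (p ^ e) := by
  obtain ⟨Cn, hCn⟩ := exists_stage f h hf hh halg n le_rfl
  obtain ⟨C, hC⟩ := hCn 1 one_ne_zero
  obtain ⟨e, he⟩ : ∃ e : ℕ, C ≤ p ^ e :=
    ⟨C, (Nat.lt_pow_self (Fact.out : p.Prime).one_lt).le⟩
  obtain ⟨E, i1, i2, i3, i4, ψ, hψ, -, -, hfin, -⟩ := hC e he
  refine ⟨e, ?_⟩
  have hset : {i : Fin n | n ≤ i.val} = ∅ := by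
    ext i; simp
  have hbot : fieldOf (AlgebraicClosure (ZMod p)) (fun i => ψ (h i)) {i : Fin n | n ≤ i.val}
      = ⊥ := by
    rw [fieldOf, hset, Set.image_empty, IntermediateField.adjoin_empty]
  rw [hbot] at hfin
  have hfd : FiniteDimensional (AlgebraicClosure (ZMod p)) E := by
    have h1 : FiniteDimensional (AlgebraicClosure (ZMod p))
        (⊥ : IntermediateField (AlgebraicClosure (ZMod p)) E) := by infer_instance
    exact Module.Finite.trans (⊥ : IntermediateField (AlgebraicClosure (ZMod p)) E) E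
  have hbij : Function.Bijective (algebraMap (AlgebraicClosure (ZMod p)) E) :=
    IsAlgClosed.algebraMap_bijective_of_isIntegral
  let eq : AlgebraicClosure (ZMod p) ≃ₐ[ZMod p] E :=
    AlgEquiv.ofBijective (IsScalarTower.toAlgHom (ZMod p) (AlgebraicClosure (ZMod p)) E) hbij
  refine ⟨(eq.symm : E →ₐ[ZMod p] AlgebraicClosure (ZMod p)).comp ψ, fun i => ?_⟩
  have := hψ i i.isLt
  simp only [AlgHom.comp_apply]
  rw [this, map_pow]

end Pool.Agent.LFZ
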