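import Pool.Agent.LFZ.WindowAux
import Pool.Agent.LFZ.FrobRep

/-! # Block G4: Noetherian stabilisation -/

set_option autoImplicit false

namespace Pool.Agent.LFZ

theorem window_rep {G : Type} [Group G] {n : ℕ} (t : G) (s : Fin n → G)
    (hfree : ∀ a b : ℤ, a ≤ b → IsFreeGroup (Pw t s a b)) (m : ℕ) (g : G)
    (hg : g ∈ Pw t s 0 m) (hg1 : g ≠ 1) (p : ℕ) [Fact p.Prime] :
    ∃ (e : ℕ) (ρ : Pw t s 0 (m + 1) →* GL (Fin 2) (AlgebraicClosure (ZMod p))),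
      (∀ hg' : g ∈ Pw t s 0 (m + 1), ρ ⟨g, hg'⟩ ≠ 1) ∧
      ∀ (y : G) (h0 : y ∈ Pw t s 0 (m + 1)) (h1 : t * y * t⁻¹ ∈ Pw t s 0 (m + 1)),
        y ∈ Pw t s 0 m → ∀ a b : Fin 2,
        (ρ ⟨t * y * t⁻¹, h1⟩ : Matrix (Fin 2) (Fin 2) (AlgebraicClosure (ZMod p))) a b =
        ((ρ ⟨y, h0⟩ : Matrix (Fin 2) (Fin 2) (AlgebraicClosure (ZMod p))) a b) ^ (p ^ e) :=
  window_rep_aux t s hfree m g hg hg1 p
    (by intro U W _ _ rU rW bU bW J _ x x0 x1 h0 h1 g hg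
        exact frob_rep bU bW x x0 x1 h0 h1 g hg)

end Pool.Agent.LFZ
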