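import Pool.Agent.LFZ.Defs

set_option autoImplicit false

namespace Pool.Agent.LFZ

/-- The statement of `frob_rep` (block G3). -/
def FrobRepStmt (p : ℕ) [Fact p.Prime] : Prop :=
  ∀ {U W : Type} [Group U] [Group W] {rU rW : ℕ}
    (_ : FreeGroup (Fin rU) ≃* U) (_ : FreeGroup (Fin rW) ≃* W) {J : Type} [Finite J]
    (x : J → U) (x0 x1 : J → W) (_ : relI p x = relI p x0) (_ : relI p x = relI p x1)
    (g : W) (_ : g ≠ 1),
    ∃ (e : ℕ) (ρ : W →* GL (Fin 2) (AlgebraicClosure (ZMod p))), ρ g ≠ 1 ∧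
      ∀ j, ∀ a b : Fin 2,
        (ρ (x1 j) : Matrix (Fin 2) (Fin 2) (AlgebraicClosure (ZMod p))) a b =
        ((ρ (x0 j) : Matrix (Fin 2) (Fin 2) (AlgebraicClosure (ZMod p))) a b) ^ (p ^ e)

theorem finite_of_fg_freeGroup {α : Type} (h : Group.FG (FreeGroup α)) : Finite α := by
  classical
  obtain ⟨S, hS⟩ := Group.fg_def.1 h
  have key : ∀ g : FreeGroup α, ∃ Y : Finset α,
      g ∈ Subgroup.closure (FreeGroup.of '' (Y : Set α)) := by
    intro g
    induction g using FreeGroup.induction_on with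
    | C1 => exact ⟨∅, one_mem _⟩
    | of a => exact ⟨{a}, Subgroup.subset_closure ⟨a, by simp, rfl⟩⟩
    | inv_of a ha =>
      obtain ⟨Y, hY⟩ := ha
      exact ⟨Y, inv_mem hY⟩
    | mul a b ha hb =>
      obtain ⟨Y, hY⟩ := ha
      obtain ⟨Z, hZ⟩ := hb
      refine ⟨Y ∪ Z, mul_mem ?_ ?_⟩
      · exact Subgroup.closure_mono (Set.image_mono (by simp)) hY
      · exact Subgroup.closure_mono (Set.image_mono (by simp)) hZ
  choose Y hY using key
  let Z : Finset α := S.biUnion Y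
  have hZ : (⊤ : Subgroup (FreeGroup α)) ≤ Subgroup.closure (FreeGroup.of '' (Z : Set α)) := by
    rw [← hS, Subgroup.closure_le]
    intro g hg
    refine Subgroup.closure_mono (Set.image_mono ?_) (hY g)
    intro a ha
    simp only [Z, Finset.coe_biUnion, Set.mem_iUnion]
    exact ⟨g, hg, ha⟩
  have hall : ∀ a : α, a ∈ Z := by
    intro a
    by_contra ha
    let φ : FreeGroup α →* Multiplicative ℤ :=
      FreeGroup.lift (fun x => if x = a then Multiplicative.ofAdd 1 else 1)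
    have h1 : Subgroup.closure (FreeGroup.of '' (Z : Set α)) ≤ φ.ker := by
      rw [Subgroup.closure_le]
      rintro _ ⟨b, hb, rfl⟩
      have hba : b ≠ a := fun h => ha (h ▸ hb)
      simp [φ, MonoidHom.mem_ker, hba]
    have h2 : φ (FreeGroup.of a) = 1 := h1 (hZ trivial)
    simp [φ] at h2
  exact Set.finite_univ_iff.1 (Z.finite_toSet.subset (fun a _ => hall a))

theorem exists_freeGroup_equiv {H : Type} [Group H] (hfree : IsFreeGroup H) (hfg : Group.FG H) :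
    ∃ r : ℕ, Nonempty (FreeGroup (Fin r) ≃* H) := by
  have h1 : Group.FG (FreeGroup (IsFreeGroup.Generators H)) :=
    Group.fg_of_surjective (f := (IsFreeGroup.toFreeGroup H).toMonoidHom)
      (IsFreeGroup.toFreeGroup H).surjective
  have h2 : Finite (IsFreeGroup.Generators H) := finite_of_fg_freeGroup h1
  obtain ⟨r, ⟨er⟩⟩ := Finite.exists_equiv_fin (IsFreeGroup.Generators H)
  exact ⟨r, ⟨(FreeGroup.freeGroupCongr er.symm).trans (IsFreeGroup.toFreeGroup H).symm⟩⟩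

theorem relI_le_map {p : ℕ} {H H' J : Type} [Group H] [Group H'] (φ : H →* H') (x : J → H)
    (x' : J → H') (hx : ∀ j, φ (x j) = x' j) : relI p x ≤ relI p x' := by
  intro P hP A _ _ ρ
  have := hP A (ρ.comp φ)
  simpa [hx] using this

section Window

variable {G : Type} [Group G] {n : ℕ}

theorem Pw_mono (t : G) (s : Fin n → G) {a b a' b' : ℤ} (ha : a' ≤ a) (hb : b ≤ b') :
    Pw t s a b ≤ Pw t s a' b' := by
  apply Subgroup.closure_mono
  rintro y ⟨l, h1, h2, i, rfl⟩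
  exact ⟨l, ha.trans h1, h2.trans hb, i, rfl⟩

theorem Pw_fg (t : G) (s : Fin n → G) (a b : ℤ) : Group.FG (Pw t s a b) := by
  rw [Group.fg_iff_subgroup_fg]
  refine (Subgroup.fg_iff _).2 ⟨_, rfl, ?_⟩
  have : {y | ∃ l : ℤ, a ≤ l ∧ l ≤ b ∧ ∃ i, y = t ^ l * s i * t ^ (-l)} ⊆
      (fun v : ℤ × Fin n => t ^ v.1 * s v.2 * t ^ (-v.1)) '' (Set.Icc a b ×ˢ Set.univ) := by
    rintro y ⟨l, h1, h2, i, rfl⟩
    exact ⟨(l, i), ⟨⟨h1, h2⟩, trivial⟩, rfl⟩
  exact (((Set.finite_Icc a b).prod Set.finite_univ).image _).subset this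

theorem conj_zpow_eq (t y : G) (k l : ℤ) :
    t ^ k * (t ^ l * y * t ^ (-l)) * t ^ (-k) = t ^ (l + k) * y * t ^ (-(l + k)) := by
  have h1 : t ^ (l + k) = t ^ k * t ^ l := by rw [add_comm, zpow_add]
  have h2 : t ^ (-(l + k)) = t ^ (-l) * t ^ (-k) := by rw [neg_add, zpow_add]
  rw [h1, h2]
  simp only [mul_assoc]

theorem Pw_conj_mem (t : G) (s : Fin n → G) {a b : ℤ} (k : ℤ) {y : G} (hy : y ∈ Pw t s a b) :
    t ^ k * y * t ^ (-k) ∈ Pw t s (a + k) (b + k) := by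
  have hle : Pw t s a b ≤ (Pw t s (a + k) (b + k)).comap (MulAut.conj (t ^ k)).toMonoidHom := by
    rw [Pw, Subgroup.closure_le]
    rintro y ⟨l, h1, h2, i, rfl⟩
    show t ^ k * (t ^ l * s i * t ^ (-l)) * (t ^ k)⁻¹ ∈ Pw t s (a + k) (b + k)
    rw [← zpow_neg, conj_zpow_eq]
    exact mem_Pw t s (by omega) (by omega) i
  have := hle hy
  rw [zpow_neg]
  exact this

/-- the standard generators at positions `l + d`, `0 ≤ l ≤ m` -/
def wg (t : G) (s : Fin n → G) (m : ℕ) (d a b : ℤ) (ha : a ≤ d) (hb : d + m ≤ b) :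
    Fin n × Fin (m + 1) → Pw t s a b := fun j =>
  ⟨t ^ ((j.2.val : ℤ) + d) * s j.1 * t ^ (-((j.2.val : ℤ) + d)),
    mem_Pw t s (by have := j.2.2; omega) (by have := j.2.2; omega) j.1⟩

theorem relI_wg_mono {p : ℕ} (t : G) (s : Fin n → G) (m : ℕ) (d a b a' b' : ℤ) (ha : a ≤ d)
    (hb : d + m ≤ b) (haa : a' ≤ a) (hbb : b ≤ b') :
    relI p (wg t s m d a b ha hb) ≤ relI p (wg t s m d a' b' (by omega) (by omega)) := by
  apply relI_le_map (Subgroup.inclusion (Pw_mono t s haa hbb))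
  intro j
  rfl

/-- conjugation by `t ^ k` as a homomorphism between windows -/
def conjHom (t : G) (s : Fin n → G) (k a b : ℤ) : Pw t s a b →* Pw t s (a + k) (b + k) where
  toFun y := ⟨t ^ k * y * t ^ (-k), Pw_conj_mem t s k y.2⟩
  map_one' := by ext; simp
  map_mul' x y := by ext; simp [mul_assoc]

theorem relI_wg_conj {p : ℕ} (t : G) (s : Fin n → G) (m : ℕ) (k d a b : ℤ) (ha : a ≤ d)
    (hb : d + m ≤ b) :
    relI p (wg t s m d a b ha hb) ≤
      relI p (wg t s m (d + k) (a + k) (b + k) (by omega) (by omega)) := by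
  apply relI_le_map (conjHom t s k a b)
  intro j
  ext
  show t ^ k * (t ^ ((j.2.val : ℤ) + d) * s j.1 * t ^ (-((j.2.val : ℤ) + d))) * t ^ (-k) =
    t ^ ((j.2.val : ℤ) + (d + k)) * s j.1 * t ^ (-((j.2.val : ℤ) + (d + k)))
  rw [conj_zpow_eq, add_assoc]

theorem window_rep_aux (t : G) (s : Fin n → G)
    (hfree : ∀ a b : ℤ, a ≤ b → IsFreeGroup (Pw t s a b)) (m : ℕ) (g : G)
    (hg : g ∈ Pw t s 0 m) (hg1 : g ≠ 1) (p : ℕ) [Fact p.Prime] (hfrob : FrobRepStmt p) :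
    ∃ (e : ℕ) (ρ : Pw t s 0 (m + 1) →* GL (Fin 2) (AlgebraicClosure (ZMod p))),
      (∀ hg' : g ∈ Pw t s 0 (m + 1), ρ ⟨g, hg'⟩ ≠ 1) ∧
      ∀ (y : G) (h0 : y ∈ Pw t s 0 (m + 1)) (h1 : t * y * t⁻¹ ∈ Pw t s 0 (m + 1)),
        y ∈ Pw t s 0 m → ∀ a b : Fin 2,
        (ρ ⟨t * y * t⁻¹, h1⟩ : Matrix (Fin 2) (Fin 2) (AlgebraicClosure (ZMod p))) a b =
        ((ρ ⟨y, h0⟩ : Matrix (Fin 2) (Fin 2) (AlgebraicClosure (ZMod p))) a b) ^ (p ^ e) := by
  classical
  -- stabilisation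
  let I : ℕ → Ideal (MvPolynomial ((Fin n × Fin (m + 1)) × Fin 2 × Fin 2) (ZMod p)) :=
    fun c => relI p (wg t s m 0 (-(c : ℤ)) (m + c) (by omega) (by omega))
  have hI : Monotone I := fun c c' hc =>
    relI_wg_mono t s m 0 _ _ _ _ _ _ (by omega) (by omega)
  obtain ⟨c, hc⟩ := (monotone_stabilizes_iff_noetherian (R := MvPolynomial
    ((Fin n × Fin (m + 1)) × Fin 2 × Fin 2) (ZMod p)) (M := MvPolynomial
    ((Fin n × Fin (m + 1)) × Fin 2 × Fin 2) (ZMod p))).2 inferInstance ⟨I, hI⟩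
  have hc1 : I (c + 1) ≤ I c := (hc (c + 1) (Nat.le_succ c)).symm.le
  -- the groups
  let x := wg t s m 0 (-(c : ℤ)) (m + c) (by omega) (by omega)
  let x0 := wg t s m 0 (-(c : ℤ)) (m + 1 + c) (by omega) (by omega)
  let x1 := wg t s m 1 (-(c : ℤ)) (m + 1 + c) (by omega) (by omega)
  have h0 : relI p x = relI p x0 := by
    apply le_antisymm
    · exact relI_wg_mono t s m 0 _ _ _ _ _ _ (by omega) (by omega)
    · refine le_trans ?_ hc1
      exact relI_wg_mono t s m 0 _ _ _ _ _ _ (by push_cast; omega) (by push_cast; omega)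
  have h1 : relI p x = relI p x1 := by
    apply le_antisymm
    · have e1 : relI p x ≤ relI p (wg t s m 0 (-(c : ℤ) - 1) (m + c) (by omega) (by omega)) :=
        relI_wg_mono t s m 0 _ _ _ _ _ _ (by omega) (by omega)
      refine e1.trans ((relI_wg_conj t s m 1 0 (-(c : ℤ) - 1) (m + c) (by omega)
        (by omega)).trans ?_)
      exact relI_wg_mono t s m _ _ _ _ _ _ _ (by omega) (by omega)
    · refine le_trans ?_ hc1
      refine (relI_wg_conj t s m (-1) 1 (-(c : ℤ)) (m + 1 + c) (by omega) (by omega)).trans ?_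
      exact relI_wg_mono t s m _ _ _ _ _ _ _ (by push_cast; omega) (by push_cast; omega)
  -- free bases
  obtain ⟨rU, ⟨bU⟩⟩ := exists_freeGroup_equiv (hfree (-(c : ℤ)) (m + c) (by omega))
    (Pw_fg t s _ _)
  obtain ⟨rW, ⟨bW⟩⟩ := exists_freeGroup_equiv (hfree (-(c : ℤ)) (m + 1 + c) (by omega))
    (Pw_fg t s _ _)
  have hgW : g ∈ Pw t s (-(c : ℤ)) (m + 1 + c) := Pw_mono t s (by omega) (by omega) hg
  obtain ⟨e, ρ, hρ1, hρ2⟩ := hfrob bU bW x x0 x1 h0 h1 ⟨g, hgW⟩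
    (by intro h; exact hg1 (congrArg Subtype.val h))
  have hle : Pw t s 0 (m + 1) ≤ Pw t s (-(c : ℤ)) (m + 1 + c) :=
    Pw_mono t s (by omega) (by omega)
  refine ⟨e, ρ.comp (Subgroup.inclusion hle), ?_, ?_⟩
  · intro hg'
    exact hρ1
  · -- the two homomorphisms on Pw 0 m
    have hle0 : Pw t s 0 m ≤ Pw t s (-(c : ℤ)) (m + 1 + c) :=
      Pw_mono t s (by omega) (by omega)
    have hle1 : Pw t s (0 + 1) (m + 1) ≤ Pw t s (-(c : ℤ)) (m + 1 + c) :=
      Pw_mono t s (by omega) (by omega)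
    let φ1 : Pw t s 0 m →* GL (Fin 2) (AlgebraicClosure (ZMod p)) :=
      (ρ.comp (Subgroup.inclusion hle1)).comp (conjHom t s 1 0 m)
    let φ0 : Pw t s 0 m →* GL (Fin 2) (AlgebraicClosure (ZMod p)) :=
      (Matrix.GeneralLinearGroup.map (iterateFrobenius (AlgebraicClosure (ZMod p)) p e)).comp
        (ρ.comp (Subgroup.inclusion hle0))
    have hagree : ∀ y (hy : y ∈ Pw t s 0 m), φ1 ⟨y, hy⟩ = φ0 ⟨y, hy⟩ := by
      intro y hy
      induction hy using Subgroup.closure_induction with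
      | mem y hy =>
        obtain ⟨l, hl1, hl2, i, rfl⟩ := hy
        obtain ⟨k, rfl⟩ := Int.eq_ofNat_of_zero_le hl1
        have hk : k < m + 1 := by omega
        have hmem : t ^ (k : ℤ) * s i * t ^ (-(k : ℤ)) ∈ Pw t s 0 m := mem_Pw t s hl1 hl2 i
        have hx0 : Subgroup.inclusion hle0 ⟨_, hmem⟩ = x0 (i, ⟨k, hk⟩) := by
          apply Subtype.ext
          show t ^ (k : ℤ) * s i * t ^ (-(k : ℤ)) =
            t ^ ((k : ℤ) + 0) * s i * t ^ (-((k : ℤ) + 0))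
          rw [add_zero]
        have hx1 : Subgroup.inclusion hle1 (conjHom t s 1 0 m ⟨_, hmem⟩) = x1 (i, ⟨k, hk⟩) := by
          apply Subtype.ext
          show t ^ (1 : ℤ) * (t ^ (k : ℤ) * s i * t ^ (-(k : ℤ))) * t ^ (-1 : ℤ) =
            t ^ ((k : ℤ) + 1) * s i * t ^ (-((k : ℤ) + 1))
          exact conj_zpow_eq t (s i) 1 k
        have e1 : φ1 ⟨_, hmem⟩ = ρ (x1 (i, ⟨k, hk⟩)) := congrArg ρ hx1
        have e0 : φ0 ⟨_, hmem⟩ = Matrix.GeneralLinearGroup.map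
            (iterateFrobenius (AlgebraicClosure (ZMod p)) p e) (ρ (x0 (i, ⟨k, hk⟩))) :=
          congrArg (fun u => Matrix.GeneralLinearGroup.map
            (iterateFrobenius (AlgebraicClosure (ZMod p)) p e) (ρ u)) hx0
        refine (e1.trans ?_).trans e0.symm
        ext a b
        exact hρ2 (i, ⟨k, hk⟩) a b
      | one => exact (map_one φ1).trans (map_one φ0).symm
      | mul y z hy hz ihy ihz =>
        have e1 := map_mul φ1 ⟨y, hy⟩ ⟨z, hz⟩
        have e2 := map_mul φ0 ⟨y, hy⟩ ⟨z, hz⟩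
        rw [ihy, ihz] at e1
        exact e1.trans e2.symm
      | inv y hy ihy =>
        have e1 := map_inv φ1 ⟨y, hy⟩
        have e2 := map_inv φ0 ⟨y, hy⟩
        rw [ihy] at e1
        exact e1.trans e2.symm
    intro y h0 h1 hy a b
    have h3 := congrArg (fun M : GL (Fin 2) (AlgebraicClosure (ZMod p)) =>
      (M : Matrix (Fin 2) (Fin 2) (AlgebraicClosure (ZMod p))) a b) (hagree y hy)
    have hx1 : Subgroup.inclusion hle1 (conjHom t s 1 0 m ⟨y, hy⟩) =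
        Subgroup.inclusion hle ⟨t * y * t⁻¹, h1⟩ := by
      apply Subtype.ext
      show t ^ (1 : ℤ) * y * t ^ (-1 : ℤ) = t * y * t⁻¹
      rw [zpow_one, zpow_neg_one]
    have e1 : φ1 ⟨y, hy⟩ = ρ (Subgroup.inclusion hle ⟨t * y * t⁻¹, h1⟩) := congrArg ρ hx1
    have e2 := congrArg (fun M : GL (Fin 2) (AlgebraicClosure (ZMod p)) =>
      (M : Matrix (Fin 2) (Fin 2) (AlgebraicClosure (ZMod p))) a b) e1
    exact e2.symm.trans h3

end Window

end Pool.Agent.LFZ
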